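import Pool.Agent.WPB.RotP
import Pool.Agent.PSQ.AbsMain

/-!
# WPB: no anti-automorphism, from the rotations at one place
-/

set_option autoImplicit false

namespace WPB

open Module Matrix NumberField Pool.Agent.Helper7 KT2
open Pool.Agent.Ball (rot HG Lorentz Sep)
open PSQ (W Inv BetR DRA)

section

variable {κ : Type} [Fintype κ] [DecidableEq κ] {ϖ : ℂ} {P : PData κ ϖ} {L : Type} [Field L]
  [NumberField L] {m : ℕ} {F : UF P L m}

/-- the projector on an eigenvector -/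
private lemma AbR_proj {V : Type} [AddCommGroup V] [Module ℂ V] {Z : Type} [Field Z]
    [NumberField Z] [DecidableEq (Z →+* ℂ)] (R : Z →+* Module.End ℂ V) (s s' : Z →+* ℂ) (v : V)
    (hv : ∀ z, R z v = s z • v) : proj R s' v = if s' = s then v else 0 := by
  have h1 : proj R s' v = ∑ b, (s' (dbas Z b) * s (bas Z b)) • v := by
    unfold proj
    rw [LinearMap.sum_apply]
    refine Finset.sum_congr rfl (fun b _ => ?_)
    rw [LinearMap.smul_apply, hv, smul_smul]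
  rw [h1, ← Finset.sum_smul, sum_dbas_bas]
  split_ifs
  · rw [one_smul]
  · rw [zero_smul]

/-- agreement on the centre is equality of the restrictions -/
private lemma AbR_ag {Z : Type} [Field Z] {j : Z →+* L} (hj : ∀ x, Zen F x ↔ ∃ z, j z = x)
    (σ τ : L →+* ℂ) : Ag F σ τ ↔ σ.comp j = τ.comp j := by
  constructor
  · intro h
    ext z
    exact h (j z) ((hj _).2 ⟨z, rfl⟩)
  · intro h x hx
    obtain ⟨z, rfl⟩ := (hj x).1 hx
    exact DFunLike.congr_fun h z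

omit [NumberField L] in
private lemma AbR_conj {Z : Type} [Field Z] (j : Z →+* L) (σ : L →+* ℂ) :
    (ComplexEmbedding.conjugate σ).comp j = ComplexEmbedding.conjugate (σ.comp j) := by
  ext z
  rfl

end

theorem AbR_all (hCnb : St_Cnb) (hCkl : St_Ckl) (κ : Type) [Fintype κ] [DecidableEq κ]
    (P : PData κ (2 * Real.pi * Complex.I)) (L : Type) [Field L] [NumberField L] (m : ℕ)
    (F : UF P L m) (n k : ℕ) (α : (W κ n) [⋀^Fin (2 * k)]→ₗ[ℂ] ℂ) (Z : Type) [Field Z]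
    [NumberField Z] (j : Z →+* L) : 3 ≤ m → KT2.NoAnti F →
    BetR P n k (α : MultilinearMap ℂ (fun _ : Fin (2 * k) => W κ n) ℂ) →
    DRA n k (α : MultilinearMap ℂ (fun _ : Fin (2 * k) => W κ n) ℂ) → ∀ σ₀ : L →+* ℂ,
    HasRotZ F n k (α : MultilinearMap ℂ (fun _ : Fin (2 * k) => W κ n) ℂ) σ₀ →
    (∀ x, Zen F x ↔ ∃ z, j z = x) →
    (Cen F n k (α : MultilinearMap ℂ (fun _ : Fin (2 * k) => W κ n) ℂ) →
      ∀ w, Occ F n k (α : MultilinearMap ℂ (fun _ : Fin (2 * k) => W κ n) ℂ) w →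
        ∀ s, wt j w s = 0) →
    α ∈ Submodule.span ℚ {ω | ∃ γ : Fin k → (W κ n →ₗ[ℂ] W κ n →ₗ[ℂ] ℂ),
      (∀ a, γ a ∈ GW (fun _ : Unit => n) (fun _ => P)) ∧ ω = wedge γ} := by
  classical
  intro hm hNA hB hA σ₀ hR hj hw
  have hϖ : (2 * Real.pi * Complex.I : ℂ) ≠ 0 := Complex.two_pi_I_ne_zero
  obtain ⟨U, V, hUV, hVU, hrot⟩ := hR
  have hrot' : ∀ i j, U * rot i j * V ∈
      sAt n k (α : MultilinearMap ℂ (fun _ : Fin (2 * k) => W κ n) ℂ) F σ₀ := by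
    intro i j
    obtain ⟨X, hX, hXe, -⟩ := hrot i j
    exact ⟨X, hX, hXe⟩
  have hnc := KT2.All.Bra_ κ _ P L m F n k _ hm hϖ hB hA hNA σ₀ U V hUV hVU hrot'
  have hsl := KT2.All.Slc_ κ _ P L m F n k _ hm hϖ hB σ₀ U V hUV hVU hrot hnc
  have hcx := KT2.All.Cxc_ κ _ P L m F hϖ hNA
  obtain ⟨T, S, _, _, _, _, pl, τ, e, hFr, hsur, hpl, hnag, het, hef⟩ :=
    KT2.All.Frm_ κ _ P L m F n k _ hϖ hB hA hcx hsl
  have hC : Cen F n k (α : MultilinearMap ℂ (fun _ : Fin (2 * k) => W κ n) ℂ) :=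
    hCnb κ _ P L m F n k _ T S pl τ e (by omega) hϖ hFr het hef
  have hk := hCkl κ _ P L m F n k _ Z j hj (hw hC)
  apply PSQ.descent P hϖ n α hB hA
  refine KT2.All.Fam_ κ _ P n k m _ T S pl e (by omega) hFr (Or.inr ?_)
  intro s₁
  obtain ⟨t₁, rfl⟩ := hsur s₁
  have hne : ComplexEmbedding.conjugate ((τ t₁).comp j) ≠ (τ t₁).comp j := by
    intro h
    refine hnag t₁ t₁ ((AbR_ag hj _ _).2 ?_)
    rw [AbR_conj, h]
  refine ⟨_, hk ((τ t₁).comp j) hne, ?_⟩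
  intro t i
  have hv : ∀ z, (F.ρ.comp j) z (e (true, t, i)) = ((τ t).comp j) z • e (true, t, i) :=
    fun z => het t i (j z)
  have h2 : ComplexEmbedding.conjugate ((τ t₁).comp j) ≠ (τ t).comp j := by
    intro h
    refine hnag t t₁ ((AbR_ag hj _ _).2 ?_)
    rw [AbR_conj, h]
  rw [LinearMap.sub_apply, AbR_proj (F.ρ.comp j) ((τ t).comp j) _ _ hv,
    AbR_proj (F.ρ.comp j) ((τ t).comp j) _ _ hv, if_neg h2, sub_zero]
  by_cases h : pl t = pl t₁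
  · rw [if_pos h, if_pos (((AbR_ag hj _ _).1 ((hpl t t₁).1 h)).symm)]
  · rw [if_neg h, if_neg]
    intro h'
    exact h ((hpl t t₁).2 ((AbR_ag hj _ _).2 h'.symm))

theorem AbR_range (κ : Type) [Fintype κ] [DecidableEq κ]
    (P : PData κ (2 * Real.pi * Complex.I)) (L : Type) [Field L] [NumberField L] (m : ℕ)
    (F : UF P L m) (n k : ℕ) (α : (W κ n) [⋀^Fin (2 * k)]→ₗ[ℂ] ℂ) : 3 ≤ m → KT2.NoAnti F →
    BetR P n k (α : MultilinearMap ℂ (fun _ : Fin (2 * k) => W κ n) ℂ) →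
    DRA n k (α : MultilinearMap ℂ (fun _ : Fin (2 * k) => W κ n) ℂ) → ∀ σ₀ : L →+* ℂ,
    HasRotZ F n k (α : MultilinearMap ℂ (fun _ : Fin (2 * k) => W κ n) ℂ) σ₀ →
    (2 * k < (if Even m then m else 2 * m) ∨
      n * Fintype.card κ < 2 * k + (if Even m then m else 2 * m)) →
    α ∈ Submodule.span ℚ {ω | ∃ γ : Fin k → (W κ n →ₗ[ℂ] W κ n →ₗ[ℂ] ℂ),
      (∀ a, γ a ∈ GW (fun _ : Unit => n) (fun _ => P)) ∧ ω = wedge γ} := by
  classical
  intro hm hNA hB hA σ₀ hR hk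
  have hϖ : (2 * Real.pi * Complex.I : ℂ) ≠ 0 := Complex.two_pi_I_ne_zero
  obtain ⟨U, V, hUV, hVU, hrot⟩ := hR
  have hrot' : ∀ i j, U * rot i j * V ∈
      sAt n k (α : MultilinearMap ℂ (fun _ : Fin (2 * k) => W κ n) ℂ) F σ₀ := by
    intro i j
    obtain ⟨X, hX, hXe, -⟩ := hrot i j
    exact ⟨X, hX, hXe⟩
  have hnc := KT2.All.Bra_ κ _ P L m F n k _ hm hϖ hB hA hNA σ₀ U V hUV hVU hrot'
  have hsl := KT2.All.Slc_ κ _ P L m F n k _ hm hϖ hB σ₀ U V hUV hVU hrot hnc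
  have hcx := KT2.All.Cxc_ κ _ P L m F hϖ hNA
  obtain ⟨T, S, _, _, _, _, pl, τ, e, hFr, -, -, -, -, -⟩ :=
    KT2.All.Frm_ κ _ P L m F n k _ hϖ hB hA hcx hsl
  apply PSQ.descent P hϖ n α hB hA
  rcases hk with h | h
  · exact KT2.All.Fam_ κ _ P n k m _ T S pl e (by omega) hFr (Or.inl h)
  · exact KT2.All.Fad_ κ _ P n k m α T S pl e (by omega) hFr h

end WPB
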