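import Pool.Agent.WPB.St

/-!
# WPB, module Ckl: if all weights are zero, the centre kills the class
-/

set_option autoImplicit false
set_option linter.unusedSectionVars false

namespace WPB

open Module Matrix NumberField Pool.Agent.Helper7 KT2
open PSQ (W Inv BetR DRA)

section

variable {κ : Type} [Fintype κ] [DecidableEq κ] {ϖ : ℂ} {P : PData κ ϖ} {L : Type} [Field L]
  [NumberField L] {m : ℕ} {Z : Type} [Field Z] [NumberField Z]

open Classical in
/-- the projectors of the centre act on the adapted vectors -/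
lemma Ckl_proj (F : UF P L m) (j : Z →+* L) (s : Z →+* ℂ) (σ : L →+* ℂ) (a : Fin m) :
    proj (F.ρ.comp j) s (F.e σ a) = (if σ.comp j = s then (1 : ℂ) else 0) • F.e σ a := by
  have h1 : proj (F.ρ.comp j) s (F.e σ a) =
      ∑ b, (s (dbas Z b) * (σ.comp j) (bas Z b)) • F.e σ a := by
    rw [proj, LinearMap.sum_apply]
    refine Finset.sum_congr rfl fun b _ => ?_
    rw [LinearMap.smul_apply, mul_smul]
    show s (dbas Z b) • F.ρ (j (bas Z b)) (F.e σ a) = _
    rw [F.rho_e]
    rfl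
  rw [h1, ← Finset.sum_smul, sum_dbas_bas]
  by_cases h : σ.comp j = s
  · rw [if_pos h, if_pos h.symm]
  · rw [if_neg h, if_neg (fun e => h e.symm)]

open Classical in
/-- the weight of a place -/
noncomputable def Ckl_y (j : Z →+* L) (s : Z →+* ℂ) (σ : L →+* ℂ) : ℂ :=
  (if σ.comp j = s then 1 else 0) -
    (if σ.comp j = ComplexEmbedding.conjugate s then 1 else 0)

lemma Ckl_Y (F : UF P L m) (j : Z →+* L) (s : Z →+* ℂ) (σ : L →+* ℂ) (a : Fin m) :
    (proj (F.ρ.comp j) s - proj (F.ρ.comp j) (ComplexEmbedding.conjugate s)) (F.e σ a) =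
      Ckl_y j s σ • F.e σ a := by
  rw [LinearMap.sub_apply, Ckl_proj, Ckl_proj, ← sub_smul]
  rfl

lemma Ckl_conj (j : Z →+* L) (s : Z →+* ℂ) (σ : L →+* ℂ) :
    Ckl_y j s (ComplexEmbedding.conjugate σ) = - Ckl_y j s σ := by
  classical
  have h0 : (ComplexEmbedding.conjugate σ).comp j = ComplexEmbedding.conjugate (σ.comp j) := rfl
  have hii : ∀ a : Z →+* ℂ, ComplexEmbedding.conjugate (ComplexEmbedding.conjugate a) = a :=
    fun a => RingHom.ext fun x => by simp
  have h1 : ∀ a b : Z →+* ℂ, ComplexEmbedding.conjugate a = ComplexEmbedding.conjugate b ↔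
      a = b := by
    intro a b
    refine ⟨fun h => ?_, fun h => by rw [h]⟩
    have h2 := congrArg ComplexEmbedding.conjugate h
    rwa [hii, hii] at h2
  have h2 : (ComplexEmbedding.conjugate (σ.comp j) = s) ↔
      (σ.comp j = ComplexEmbedding.conjugate s) := by
    rw [← h1, hii]
  unfold Ckl_y
  rw [h0]
  simp only [h1, h2]
  ring

lemma Ckl_comm (F : UF P L m) (j : Z →+* L) (hz : ∀ z, Zen F (j z)) (s : Z →+* ℂ)
    (f : Module.End ℂ (κ → ℂ)) (hf : IsDRB P P f) (v : κ → ℂ) :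
    proj (F.ρ.comp j) s (f v) = f (proj (F.ρ.comp j) s v) := by
  rw [proj, LinearMap.sum_apply, LinearMap.sum_apply, map_sum]
  refine Finset.sum_congr rfl fun b _ => ?_
  rw [LinearMap.smul_apply, LinearMap.smul_apply, map_smul]
  congr 1
  exact (hz _ f hf v).symm

lemma Ckl_pol (F : UF P L m) (j : Z →+* L) (s : Z →+* ℂ) (Y : Module.End ℂ (κ → ℂ))
    (hY : ∀ σ a, Y (F.e σ a) = Ckl_y j s σ • F.e σ a) (u v : κ → ℂ) :
    P.ψ (Y u) v + P.ψ u (Y v) = 0 := by
  have h1 : (P.ψ.comp Y + (P.ψ.compl₂ Y)) u = (0 : (κ → ℂ) →ₗ[ℂ] (κ → ℂ) →ₗ[ℂ] ℂ) u := by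
    refine F.ext_e _ _ (fun σ a => ?_) u
    refine LinearMap.ext fun w => ?_
    refine F.ext_e _ _ (fun τ b => ?_) w
    show P.ψ (Y (F.e σ a)) (F.e τ b) + P.ψ (F.e σ a) (Y (F.e τ b)) = 0
    rw [hY, hY, map_smul, map_smul, LinearMap.smul_apply]
    by_cases h : τ = ComplexEmbedding.conjugate σ
    · rw [h, Ckl_conj, neg_smul, add_neg_cancel]
    · rw [F.psi_e σ τ a b h, smul_zero, smul_zero, add_zero]
  exact congrArg (fun g : (κ → ℂ) →ₗ[ℂ] ℂ => g v) h1

end

theorem thm_Ckl : St_Ckl := by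
  classical
  intro κ _ _ ϖ P L _ _ m F n k α Z _ _ j hzen hw s _
  have hY := Ckl_Y F j s
  set Y : Module.End ℂ (κ → ℂ) :=
    proj (F.ρ.comp j) s - proj (F.ρ.comp j) (ComplexEmbedding.conjugate s) with hYd
  have hz : ∀ z, Zen F (j z) := fun z => (hzen _).2 ⟨z, rfl⟩
  refine ⟨fun _ _ f hf v => ?_, fun _ u v => ?_, ?_⟩
  · show Y (f v) = f (Y v)
    rw [hYd, LinearMap.sub_apply, LinearMap.sub_apply, map_sub, Ckl_comm F j hz s f hf,
      Ckl_comm F j hz _ f hf]
  · show P.ψ (Y u) v + P.ψ u (Y v) = 0 * P.ψ u v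
    rw [Ckl_pol F j s Y hY, zero_mul]
  · show actForm (lift (fun _ : Unit => n) fun _ => Y) α = ((k : ℂ) * 0) • α
    rw [mul_zero, zero_smul]
    obtain ⟨B, hB⟩ : ∃ B : Basis (Σ _ : Unit, Σ _ : Fin n, ((L →+* ℂ) × Fin m)) ℂ (W κ n),
      B = Pi.basis (fun _ : Unit => Pi.basis (fun _ : Fin n => F.eb)) := ⟨_, rfl⟩
    have hBv : ∀ q, B q = Pi.single q.1 (Pi.single q.2.1 (F.e q.2.2.1 q.2.2.2)) := by
      intro q
      rw [hB, Pi.basis_apply, Pi.basis_apply]
      rfl
    have hBi : ∀ q i, B q () i = if i = q.2.1 then F.e q.2.2.1 q.2.2.2 else 0 := by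
      rintro ⟨⟨⟩, i', σ, a⟩ i
      rw [hBv, Pi.single_eq_same]
      by_cases h : i = i'
      · subst h
        rw [Pi.single_eq_same, if_pos rfl]
      · rw [Pi.single_eq_of_ne h, if_neg h]
    have hBY : ∀ q, lift (fun _ : Unit => n) (fun _ => Y) (B q) =
        Ckl_y j s q.2.2.1 • B q := by
      intro q
      funext u i
      rw [lift_apply, Pi.smul_apply, Pi.smul_apply]
      have hu : u = () := rfl
      subst hu
      rw [hBi]
      by_cases h : i = q.2.1
      · rw [if_pos h, hY]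
      · rw [if_neg h, map_zero, smul_zero]
    refine Basis.ext_multilinear (fun _ => B) fun q => ?_
    rw [actForm_apply]
    show _ = (0 : ℂ)
    have h1 : ∀ r, α (Function.update (fun r => B (q r)) r
        (lift (fun _ : Unit => n) (fun _ => Y) (B (q r)))) =
        Ckl_y j s (q r).2.2.1 * α fun r => B (q r) := by
      intro r
      rw [hBY, MultilinearMap.map_update_smul, Function.update_eq_self, smul_eq_mul]
    rw [Finset.sum_congr rfl fun r _ => h1 r, ← Finset.sum_mul]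
    by_cases h0 : (α fun r => B (q r)) = 0
    · rw [h0, mul_zero]
    have hocc : Occ F n k α fun r => (q r).2.2.1 := by
      refine ⟨fun r => B (q r), fun r i => ?_, h0⟩
      show proj F.ρ (q r).2.2.1 (B (q r) () i) = B (q r) () i
      rw [hBi]
      by_cases h : i = (q r).2.1
      · rw [if_pos h, F.proj_e, if_pos rfl]
      · rw [if_neg h, map_zero]
    have h2 := hw _ hocc s
    unfold wt at h2
    have h3 : ∑ r, Ckl_y j s (q r).2.2.1 = 0 := by
      unfold Ckl_y
      rw [Finset.sum_sub_distrib, Finset.sum_boole, Finset.sum_boole]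
      have h4 := congrArg (Int.cast : ℤ → ℂ) h2
      push_cast at h4
      exact h4
    rw [h3, zero_mul]

end WPB
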