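import Pool.Agent.WPB.St
import Pool.Agent.KT2.Fam

/-!
# WPB: the central part of a symmetry, for a frame with all matrices of trace zero
-/

set_option autoImplicit false

namespace WPB

open Module Matrix NumberField Pool.Agent.Helper7 KT2
open Pool.Agent.Helper8.D (ent ent_apply)
open PSQ (W Inv BetR DRA)

section

variable {κ : Type} [Fintype κ] [DecidableEq κ] {ϖ : ℂ} {P : PData κ ϖ} {L : Type} [Field L]
  [NumberField L] {m : ℕ}

/-- projectors on eigenvectors -/
private lemma Cnb_proj (F : UF P L m) (σ τ : L →+* ℂ) (w : κ → ℂ)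
    (hw : ∀ x, F.ρ x w = τ x • w) :
    proj F.ρ σ w = open Classical in if σ = τ then w else 0 := by
  classical
  have h0 : ∀ σ : L →+* ℂ, σ ≠ τ → proj F.ρ σ w = 0 := by
    intro σ hστ
    by_contra h0
    apply hστ
    ext x
    have h1 := F.proj_rho σ x w
    rw [hw, map_smul] at h1
    exact (smul_left_injective ℂ h0 h1).symm
  by_cases h : σ = τ
  · rw [if_pos h, h]
    have h1 := LinearMap.congr_fun (sum_proj F.ρ) w
    rw [LinearMap.sum_apply, Finset.sum_eq_single τ (fun σ _ hσ => h0 σ hσ)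
      (fun h => absurd (Finset.mem_univ _) h)] at h1
    exact h1
  · rw [if_neg h, h0 σ h]

/-- the trace of the matrix at a place -/
private lemma Cnb_tr (F : UF P L m) (σ : L →+* ℂ) (X : Module.End ℂ (κ → ℂ)) :
    LinearMap.trace ℂ (κ → ℂ) (X * proj F.ρ σ) = (ent F σ X).trace := by
  classical
  rw [LinearMap.trace_eq_matrix_trace ℂ F.eb, Matrix.trace, Fintype.sum_prod_type,
    Finset.sum_eq_single σ]
  · refine Finset.sum_congr rfl fun a _ => ?_
    rw [Matrix.diag_apply, LinearMap.toMatrix_apply, Module.End.mul_apply]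
    have h1 : proj F.ρ σ (F.eb (σ, a)) = F.e σ a := by
      have := F.proj_e σ σ a
      rwa [if_pos rfl] at this
    rw [h1]
    rfl
  · intro τ _ hτ
    refine Finset.sum_eq_zero fun a _ => ?_
    rw [Matrix.diag_apply, LinearMap.toMatrix_apply, Module.End.mul_apply]
    have h1 : proj F.ρ σ (F.eb (τ, a)) = 0 := by
      have := F.proj_e σ τ a
      rwa [if_neg (Ne.symm hτ)] at this
    rw [h1, map_zero, map_zero]
    rfl
  · intro h
    exact absurd (Finset.mem_univ _) h

/-- the trace in another basis -/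
private lemma Cnb_tr2 (F : UF P L m) {I : Type} [Fintype I] [DecidableEq I]
    (E : Basis (I × Fin m) ℂ (κ → ℂ)) (emb : I → (L →+* ℂ))
    (hE : ∀ p i x, F.ρ x (E (p, i)) = emb p x • E (p, i)) (σ : L →+* ℂ)
    (X : Module.End ℂ (κ → ℂ)) :
    (ent F σ X).trace = open Classical in
      ∑ p, if σ = emb p then ∑ i, E.repr (X (E (p, i))) (p, i) else 0 := by
  classical
  rw [← Cnb_tr, LinearMap.trace_eq_matrix_trace ℂ E, Matrix.trace, Fintype.sum_prod_type]
  refine Finset.sum_congr rfl fun p _ => ?_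
  by_cases h : σ = emb p
  · rw [if_pos h]
    refine Finset.sum_congr rfl fun a _ => ?_
    rw [Matrix.diag_apply, LinearMap.toMatrix_apply, Module.End.mul_apply,
      Cnb_proj F σ (emb p) _ (hE p a), if_pos h]
  · rw [if_neg h]
    refine Finset.sum_eq_zero fun a _ => ?_
    rw [Matrix.diag_apply, LinearMap.toMatrix_apply, Module.End.mul_apply,
      Cnb_proj F σ (emb p) _ (hE p a), if_neg h, map_zero, map_zero]
    rfl

private lemma Cnb_one (F : UF P L m) (hm : 1 ≤ m) {I : Type} [Fintype I] [DecidableEq I]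
    (E : Basis (I × Fin m) ℂ (κ → ℂ)) (emb : I → (L →+* ℂ))
    (hE : ∀ p i x, F.ρ x (E (p, i)) = emb p x • E (p, i)) (σ : L →+* ℂ) :
    ∃ p, σ = emb p ∧ ∀ q, σ = emb q → q = p := by
  classical
  have hm0 : (m : ℂ) ≠ 0 := by
    have : m ≠ 0 := by omega
    exact_mod_cast this
  have h1 := Cnb_tr2 F E emb hE σ 1
  have h2 : (ent F σ (1 : Module.End ℂ (κ → ℂ))).trace = m := by
    rw [Matrix.trace]
    simp only [Matrix.diag_apply, ent_apply, Module.End.one_apply, F.co_e]
    simp
  have h3 : ∀ p, ∑ i, E.repr ((1 : Module.End ℂ (κ → ℂ)) (E (p, i))) (p, i) = (m : ℂ) := by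
    intro p
    simp only [Module.End.one_apply, Basis.repr_self, Finsupp.single_eq_same]
    simp
  rw [h2] at h1
  simp only [h3] at h1
  rw [← Finset.sum_filter, Finset.sum_const, nsmul_eq_mul] at h1
  have h4 : ((Finset.univ.filter fun p => σ = emb p).card : ℂ) = 1 := by
    have h5 : (m : ℂ) * ((Finset.univ.filter fun p => σ = emb p).card - 1) = 0 := by
      linear_combination -h1
    have h6 := (mul_eq_zero.1 h5).resolve_left hm0
    linear_combination h6
  have h5 : (Finset.univ.filter fun p => σ = emb p).card = 1 := by exact_mod_cast h4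
  obtain ⟨p, hp⟩ := Finset.card_eq_one.1 h5
  have h6 : ∀ q, σ = emb q ↔ q = p := by
    intro q
    have h7 : q ∈ (Finset.univ.filter fun p => σ = emb p) ↔ q ∈ ({p} : Finset I) := by rw [hp]
    simpa using h7
  exact ⟨p, (h6 p).2 rfl, fun q hq => (h6 q).1 hq⟩

/-- scalars -/
private lemma Cnb_sc (F : UF P L m) {I : Type} [Fintype I] [DecidableEq I]
    (E : Basis (I × Fin m) ℂ (κ → ℂ)) (emb : I → (L →+* ℂ))
    (hE : ∀ p i x, F.ρ x (E (p, i)) = emb p x • E (p, i)) (σ : L →+* ℂ) (p : I)
    (hp : ∀ q, σ = emb q → q = p) (Y : Module.End ℂ (κ → ℂ)) (c : ℂ)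
    (hY : ∀ i, Y (E (p, i)) = c • E (p, i)) :
    ent F σ Y = c • (1 : Matrix (Fin m) (Fin m) ℂ) := by
  classical
  have h1 : ∀ a, Y (F.e σ a) = c • F.e σ a := by
    intro a
    have h2 : F.e σ a = ∑ i, E.repr (F.e σ a) (p, i) • E (p, i) := by
      have h3 : proj F.ρ σ (F.e σ a) = F.e σ a := by
        have := F.proj_e σ σ a
        rwa [if_pos rfl] at this
      conv_lhs => rw [← h3]
      conv_lhs => rw [← E.sum_repr (F.e σ a)]
      rw [map_sum, Fintype.sum_prod_type, Finset.sum_eq_single p]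
      · by_cases h : σ = emb p
        · refine Finset.sum_congr rfl fun i _ => ?_
          rw [map_smul, Cnb_proj F σ (emb p) _ (hE p i), if_pos h]
        · exfalso
          have h4 : F.e σ a = 0 := by
            rw [← h3, ← E.sum_repr (F.e σ a), map_sum]
            refine Finset.sum_eq_zero fun q _ => ?_
            obtain ⟨q, i⟩ := q
            rw [map_smul, Cnb_proj F σ (emb q) _ (hE q i), if_neg, smul_zero]
            intro h5
            rw [hp q h5] at h5
            exact h h5
          exact F.eb.ne_zero (σ, a) h4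
      · intro q _ hq
        refine Finset.sum_eq_zero fun i _ => ?_
        rw [map_smul, Cnb_proj F σ (emb q) _ (hE q i), if_neg (fun h => hq (hp q h)), smul_zero]
      · intro h
        exact absurd (Finset.mem_univ _) h
    rw [h2, map_sum, Finset.smul_sum]
    refine Finset.sum_congr rfl fun i _ => ?_
    rw [map_smul, hY, smul_comm]
  ext a b
  rw [ent_apply, h1, map_smul, F.co_e, Matrix.smul_apply, Matrix.one_apply]
  by_cases h : a = b
  · rw [if_pos ⟨rfl, h⟩, if_pos h]
  · rw [if_neg (fun h' => h h'.2), if_neg h]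

end

theorem thm_Cnb : St_Cnb := by
  intro κ _ _ ϖ P L _ _ m F n k α T S _ _ _ _ pl τ e hm hϖ hF ht hf X hX
  classical
  have hm0 : (m : ℂ) ≠ 0 := by
    have : m ≠ 0 := by omega
    exact_mod_cast this
  obtain ⟨y, hyt, hyf⟩ := hF.act X 0 hX
  obtain ⟨c, hc⟩ : ∃ c : S → ℂ, ∀ s, c s = (y s).trace / m := ⟨_, fun s => rfl⟩
  obtain ⟨X', hX', hX't⟩ := Fam_sl hF (fun s => y s - c s • (1 : Matrix (Fin m) (Fin m) ℂ))
    (fun s => by
      rw [Matrix.trace_sub, Matrix.trace_smul, Matrix.trace_one, Fintype.card_fin, smul_eq_mul, hc,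
        div_mul_cancel₀ _ hm0, sub_self])
  obtain ⟨y', hy't, hy'f⟩ := hF.act X' 0 hX'
  have hyy : ∀ t, y' (pl t) = y (pl t) - c (pl t) • (1 : Matrix (Fin m) (Fin m) ℂ) := by
    intro t
    ext i j
    have h3 := congrArg (fun w => e.repr w (true, t, i)) ((hy't t j).symm.trans (hX't t j))
    simpa [Finsupp.single_apply] using h3
  refine ⟨X + (-1 : ℂ) • X', Fam_add hX (Fam_smul _ hX'), fun σ => ?_⟩
  obtain ⟨E, hE, hrt⟩ : ∃ E : Basis ((Bool × T) × Fin m) ℂ (κ → ℂ),
      (∀ b t i, E ((b, t), i) = e (b, t, i)) ∧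
      ∀ (s : Bool) (t : T) (w : κ → ℂ) (i : Fin m),
        E.repr w ((s, t), i) = e.repr w (s, t, i) :=
    ⟨e.reindex (Equiv.prodAssoc Bool T (Fin m)).symm, fun b t i => by
      rw [Basis.reindex_apply]; rfl, fun b t w i => by
      rw [Basis.repr_reindex_apply]; rfl⟩
  obtain ⟨emb, hembt, hembf⟩ : ∃ emb : Bool × T → (L →+* ℂ), (∀ t, emb (true, t) = τ t) ∧
      ∀ t, emb (false, t) = ComplexEmbedding.conjugate (τ t) :=
    ⟨fun p => cond p.1 (τ p.2) (ComplexEmbedding.conjugate (τ p.2)), fun t => rfl, fun t => rfl⟩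
  have hEe : ∀ p i x, F.ρ x (E (p, i)) = emb p x • E (p, i) := by
    rintro ⟨b, t⟩ i x
    cases b
    · rw [hE, hembf]
      exact hf t i x
    · rw [hE, hembt]
      exact ht t i x
  obtain ⟨⟨b, t⟩, hp, hp'⟩ := Cnb_one F hm E emb hEe σ
  have htr : (ent F σ X).trace = ∑ i, E.repr (X (E ((b, t), i))) ((b, t), i) := by
    rw [Cnb_tr2 F E emb hEe σ X, Finset.sum_eq_single (b, t)]
    · rw [if_pos hp]
    · intro q _ hq
      rw [if_neg (fun h => hq (hp' q h))]
    · intro h
      exact absurd (Finset.mem_univ _) h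
  cases b
  · have h1 : ent F σ (X + (-1 : ℂ) • X') = (-(c (pl t))) • (1 : Matrix (Fin m) (Fin m) ℂ) := by
      refine Cnb_sc F E emb hEe σ (false, t) hp' _ _ fun i => ?_
      rw [LinearMap.add_apply, LinearMap.smul_apply, hE, hyf, hy'f, hyy]
      have h2 : ∑ j, (y (pl t) - c (pl t) • (1 : Matrix (Fin m) (Fin m) ℂ)) i j • e (false, t, j) =
          ∑ j, y (pl t) i j • e (false, t, j) - c (pl t) • e (false, t, i) := by
        have h3 : ∀ j, (y (pl t) - c (pl t) • (1 : Matrix (Fin m) (Fin m) ℂ)) i j •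
            e (false, t, j) = y (pl t) i j • e (false, t, j) -
              (if i = j then c (pl t) • e (false, t, j) else 0) := by
          intro j
          rw [Matrix.sub_apply, Matrix.smul_apply, sub_smul, Matrix.one_apply]
          by_cases hij : i = j
          · simp [hij]
          · simp [hij]
        simp only [h3]
        rw [Finset.sum_sub_distrib, Finset.sum_ite_eq]
        simp
      rw [h2]
      module
    have h4 : (ent F σ X).trace = -(y (pl t)).trace := by
      rw [htr, Matrix.trace, ← Finset.sum_neg_distrib]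
      refine Finset.sum_congr rfl fun i _ => ?_
      rw [hrt, hE, hyf, zero_smul, zero_sub, map_neg, map_sum]
      simp [Finsupp.single_apply]
    rw [h1, h4, hc, neg_div]
  · have h1 : ent F σ (X + (-1 : ℂ) • X') = (c (pl t)) • (1 : Matrix (Fin m) (Fin m) ℂ) := by
      refine Cnb_sc F E emb hEe σ (true, t) hp' _ _ fun i => ?_
      rw [LinearMap.add_apply, LinearMap.smul_apply, hE, hyt, hX't]
      have h2 : ∑ j, (y (pl t) - c (pl t) • (1 : Matrix (Fin m) (Fin m) ℂ)) j i • e (true, t, j) =
          ∑ j, y (pl t) j i • e (true, t, j) - c (pl t) • e (true, t, i) := by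
        have h3 : ∀ j, (y (pl t) - c (pl t) • (1 : Matrix (Fin m) (Fin m) ℂ)) j i •
            e (true, t, j) = y (pl t) j i • e (true, t, j) -
              (if j = i then c (pl t) • e (true, t, j) else 0) := by
          intro j
          rw [Matrix.sub_apply, Matrix.smul_apply, sub_smul, Matrix.one_apply]
          by_cases hij : j = i
          · simp [hij]
          · simp [hij]
        simp only [h3]
        rw [Finset.sum_sub_distrib, Finset.sum_ite_eq']
        simp
      rw [h2]
      module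
    have h4 : (ent F σ X).trace = (y (pl t)).trace := by
      rw [htr, Matrix.trace]
      refine Finset.sum_congr rfl fun i _ => ?_
      rw [hrt, hE, hyt, map_sum]
      simp [Finsupp.single_apply]
    rw [h1, h4, hc]

end WPB
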