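import Pool.Agent.WPB.St
import Pool.Agent.KT2.Itw

/-!
# WPB, module Crl: the central relation (helper69)
-/

set_option autoImplicit false

namespace WPB

open Module Matrix NumberField Pool.Agent.Helper7 KT2
open Pool.Agent.Helper8.D (ent ent_act ent_trace)
open Pool.Agent.Helper24 (tw tw_conj conj_conj)
open PSQ (W Inv BetR DRA)

section

variable {κ : Type} [Fintype κ] [DecidableEq κ] {ϖ : ℂ} {P : PData κ ϖ} {L : Type} [Field L]
  [NumberField L] {m : ℕ}

/-- The identity is a symmetry with multiplier `2`. -/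
private lemma Crl_isInv_id (P : PData κ ϖ)
    (n k : ℕ) (α : MultilinearMap ℂ (fun _ : Fin (2 * k) => W κ n) ℂ) :
    IsInv (fun _ : Unit => n) (fun _ => P) α
      ((fun _ => (LinearMap.id : Module.End ℂ (κ → ℂ))), (2 : ℂ)) where
  comm i j f hf v := rfl
  pol i u v := by
    show P.ψ u v + P.ψ u v = 2 * P.ψ u v
    ring
  form := by
    apply MultilinearMap.ext
    intro v
    rw [actForm_apply, _root_.smul_apply, smul_eq_mul]
    have h : ∀ r, α (Function.update v r
        (lift (fun _ : Unit => n) (fun _ => (LinearMap.id : Module.End ℂ (κ → ℂ))) (v r))) = α v := by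
      intro r
      have h1 : lift (fun _ : Unit => n) (fun _ => (LinearMap.id : Module.End ℂ (κ → ℂ))) (v r) =
        v r := rfl
      rw [h1, Function.update_eq_self]
    rw [Finset.sum_congr rfl fun r _ => h r, Finset.sum_const, Finset.card_univ, Fintype.card_fin,
      nsmul_eq_mul]
    push_cast
    ring

/-- The comparison operator, made of multiplier zero. -/
private lemma Crl_inv_N (P : PData κ ϖ)
    (n k : ℕ) (α : MultilinearMap ℂ (fun _ : Fin (2 * k) => W κ n) ℂ) (hϖ : ϖ ≠ 0)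
    (hB : BetR P n k α) (hA : DRA n k α) (D : Derivation ℚ ℂ ℂ) :
    Inv P n k α (P.N D + (-(D ϖ / ϖ / 2)) • LinearMap.id) 0 := by
  have hN := isInv_N (fun _ : Unit => n) (fun _ => P) α hϖ hB hA D
  have h := IsInv.add _ _ _ hN (IsInv.smul _ _ _ (-(D ϖ / ϖ / 2)) (Crl_isInv_id P n k α))
  have e : ((fun _ : Unit => P.N D, D ϖ / ϖ) : GG (fun _ : Unit => κ)) +
      (-(D ϖ / ϖ / 2)) • ((fun _ : Unit => (LinearMap.id : Module.End ℂ (κ → ℂ)), (2 : ℂ)) :
        GG (fun _ : Unit => κ)) =
      ((fun _ : Unit => P.N D + (-(D ϖ / ϖ / 2)) • LinearMap.id), (0 : ℂ)) := by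
    refine Prod.ext rfl ?_
    show D ϖ / ϖ + (-(D ϖ / ϖ / 2)) • (2 : ℂ) = 0
    rw [smul_eq_mul]
    ring
  rw [e] at h
  exact h

/-- A symmetry with scalar matrices: the sum of the scalars over a word which occurs. -/
private lemma Crl_word (F : UF P L m) {n k : ℕ}
    {α : MultilinearMap ℂ (fun _ : Fin (2 * k) => W κ n) ℂ} {Y : Module.End ℂ (κ → ℂ)}
    (hY : Inv P n k α Y 0) (a : (L →+* ℂ) → ℂ)
    (hYa : ∀ σ, ent F σ Y = a σ • (1 : Matrix (Fin m) (Fin m) ℂ))
    (w : Fin (2 * k) → (L →+* ℂ)) (hw : Occ F n k α w) : ∑ r, a (w r) = 0 := by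
  obtain ⟨v, hv, h0⟩ := hw
  have hc : F.Comm Y := Itw_comm F hY
  have hact : ∀ σ u, Y (proj F.ρ σ u) = a σ • proj F.ρ σ u := by
    intro σ u
    rw [F.proj_eq, map_sum, Finset.smul_sum]
    refine Finset.sum_congr rfl fun b _ => ?_
    rw [map_smul, ent_act F σ Y hc b, hYa, Finset.sum_eq_single b]
    · rw [Matrix.smul_apply, Matrix.one_apply_eq, smul_eq_mul, mul_one, smul_comm]
    · intro c _ hcb
      rw [Matrix.smul_apply, Matrix.one_apply_ne hcb, smul_eq_mul, mul_zero, zero_smul]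
    · intro h
      exact absurd (Finset.mem_univ _) h
  have hl : ∀ r, lift (fun _ : Unit => n) (fun _ => Y) (v r) = a (w r) • v r := by
    intro r
    funext i l
    show Y (v r i l) = (a (w r) • v r) i l
    have h1 := hact (w r) (v r () l)
    rw [hv r l] at h1
    exact h1
  have h1 : actForm (lift (fun _ : Unit => n) (fun _ => Y)) α v = (((k : ℂ) * 0) • α) v :=
    congrArg (fun f : MultilinearMap ℂ (fun _ : Fin (2 * k) => W κ n) ℂ => f v) hY.form
  rw [actForm_apply, mul_zero, zero_smul] at h1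
  have h2 : ∀ r, α (Function.update v r
      (lift (fun _ : Unit => n) (fun _ => Y) (v r))) = a (w r) * α v := by
    intro r
    rw [hl r, MultilinearMap.map_update_smul, Function.update_eq_self, smul_eq_mul]
  rw [Finset.sum_congr rfl fun r _ => h2 r, ← Finset.sum_mul] at h1
  have h3 : (∑ r, a (w r)) * α v = 0 := h1
  exact (mul_eq_zero.1 h3).resolve_right h0

/-- The traces at embeddings which agree on the centre. -/
private lemma Crl_agree (F : UF P L m) {n k : ℕ}
    {α : MultilinearMap ℂ (fun _ : Fin (2 * k) => W κ n) ℂ} (hϖ : ϖ ≠ 0)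
    (hB : BetR P n k α) (hA : DRA n k α) {X : Module.End ℂ (κ → ℂ)} (hX : Inv P n k α X 0)
    (σ τ : L →+* ℂ) (h : Ag F σ τ) : (ent F σ X).trace = (ent F τ X).trace := by
  obtain ⟨T, T', h1, h2, h3⟩ := thm_Itw κ ϖ P L m F n k α hϖ hB hA σ τ h
  have h4 := h3 X 0 hX
  calc (ent F σ X).trace = (T' * T * ent F σ X).trace := by rw [h2, one_mul]
    _ = (T' * (ent F τ X * T)).trace := by rw [Matrix.mul_assoc, h4]
    _ = (ent F τ X * T * T').trace := Matrix.trace_mul_comm _ _
    _ = (ent F τ X).trace := by rw [Matrix.mul_assoc, h1, mul_one]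

/-- The trace on an eigenspace of the centre. -/
private lemma Crl_trace [DecidableEq (L →+* ℂ)] (F : UF P L m) {Z : Type} [Field Z]
    [NumberField Z] [DecidableEq (Z →+* ℂ)] (j : Z →+* L) (s : Z →+* ℂ)
    (M : Module.End ℂ (κ → ℂ)) :
    LinearMap.trace ℂ (κ → ℂ) (M * proj (F.ρ.comp j) s) =
      ∑ σ : L →+* ℂ, if σ.comp j = s then (ent F σ M).trace else 0 := by
  have hp : ∀ σ b, proj (F.ρ.comp j) s (F.e σ b) =
      (if σ.comp j = s then (1 : ℂ) else 0) • F.e σ b := by
    intro σ b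
    rw [proj, LinearMap.sum_apply]
    have h1 : ∀ c : Fin (finrank ℚ Z), (s (dbas Z c) • (F.ρ.comp j) (bas Z c)) (F.e σ b) =
        (s (dbas Z c) * (σ.comp j) (bas Z c)) • F.e σ b := by
      intro c
      rw [LinearMap.smul_apply]
      show s (dbas Z c) • F.ρ (j (bas Z c)) (F.e σ b) = (s (dbas Z c) * σ (j (bas Z c))) • F.e σ b
      rw [F.rho_e, smul_smul]
    rw [Finset.sum_congr rfl fun c _ => h1 c, ← Finset.sum_smul, sum_dbas_bas]
    congr 1
    by_cases h : s = σ.comp j
    · rw [if_pos h, if_pos h.symm]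
    · rw [if_neg h, if_neg (fun h' => h h'.symm)]
  rw [LinearMap.trace_eq_matrix_trace ℂ F.eb, Matrix.trace, Fintype.sum_prod_type]
  refine Finset.sum_congr rfl fun σ _ => ?_
  have h2 : ∀ b, (LinearMap.toMatrix F.eb F.eb (M * proj (F.ρ.comp j) s)).diag (σ, b) =
      (if σ.comp j = s then (1 : ℂ) else 0) * F.co σ b (M (F.e σ b)) := by
    intro b
    rw [Matrix.diag_apply, LinearMap.toMatrix_apply]
    show F.co σ b ((M * proj (F.ρ.comp j) s) (F.e σ b)) = _
    rw [Module.End.mul_apply, hp, map_smul, map_smul, smul_eq_mul]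
  rw [Finset.sum_congr rfl fun b _ => h2 b, ← Finset.mul_sum]
  by_cases h : σ.comp j = s
  · rw [if_pos h, if_pos h, one_mul]
    rfl
  · rw [if_neg h, if_neg h, zero_mul]

/-- The number of the extensions. -/
private lemma Crl_fib [DecidableEq (L →+* ℂ)] {Z : Type} [Field Z] [NumberField Z]
    [DecidableEq (Z →+* ℂ)] (j : Z →+* L) (s s' : Z →+* ℂ) :
    (Finset.univ.filter fun σ : L →+* ℂ => σ.comp j = s).card =
      (Finset.univ.filter fun σ : L →+* ℂ => σ.comp j = s').card := by
  have key : ∀ s s' : Z →+* ℂ, (Finset.univ.filter fun σ : L →+* ℂ => σ.comp j = s).card ≤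
      (Finset.univ.filter fun σ : L →+* ℂ => σ.comp j = s').card := by
    intro s s'
    obtain ⟨τ, hτ⟩ := Pool.Agent.Helper84.exists_aut s s'
    refine Finset.card_le_card_of_injOn (fun σ => (τ : ℂ →+* ℂ).comp σ) ?_ ?_
    · intro σ hσ
      rw [Finset.mem_coe, Finset.mem_filter] at hσ ⊢
      refine ⟨Finset.mem_univ _, ?_⟩
      rw [RingHom.comp_assoc, hσ.2, hτ]
    · intro σ _ σ' _ h
      refine RingHom.ext fun x => ?_
      have h1 : τ (σ x) = τ (σ' x) := congrArg (fun f : L →+* ℂ => f x) h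
      exact τ.injective h1
  exact le_antisymm (key s s') (key s' s)

omit [NumberField L] in
private lemma Crl_conj {Z : Type} [Field Z] (j : Z →+* L) (σ : L →+* ℂ) :
    (ComplexEmbedding.conjugate σ).comp j = ComplexEmbedding.conjugate (σ.comp j) := by
  refine RingHom.ext fun x => ?_
  rw [ComplexEmbedding.conjugate_coe_eq]
  show ComplexEmbedding.conjugate σ (j x) = _
  rw [ComplexEmbedding.conjugate_coe_eq]
  rfl

end

/-- **CRL.** The central relation. -/
theorem thm_Crl : St_Crl := by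
  intro κ _ _ ϖ P L _ _ m F n k α Z _ _ j hm hϖ hB hA hZ hC w hw D
  classical
  set μ : ℂ := D ϖ / ϖ / 2 with hμ
  set X : Module.End ℂ (κ → ℂ) := P.N D + (-μ) • LinearMap.id with hXd
  have hX : Inv P n k α X 0 := Crl_inv_N P n k α hϖ hB hA D
  have hm0 : (m : ℂ) ≠ 0 := by
    exact_mod_cast (show m ≠ 0 by omega)
  obtain ⟨Y, hY, hYX⟩ := hC X hX
  set A : (L →+* ℂ) → ℂ := fun σ => (ent F σ X).trace / m with hAd
  have hA0 : ∑ r, A (w r) = 0 := Crl_word F hY A hYX w hw
  have hcX : F.Comm X := Itw_comm F hX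
  -- agreement
  have hAg : ∀ σ τ : L →+* ℂ, σ.comp j = τ.comp j → A σ = A τ := by
    intro σ τ h
    have h1 : Ag F σ τ := by
      intro x hx
      obtain ⟨z, rfl⟩ := (hZ x).1 hx
      exact congrArg (fun f : Z →+* ℂ => f z) h
    show (ent F σ X).trace / m = (ent F τ X).trace / m
    rw [Crl_agree F hϖ hB hA hX σ τ h1]
  -- conjugation
  have hAc : ∀ σ : L →+* ℂ, A (ComplexEmbedding.conjugate σ) = - A σ := by
    intro σ
    have h1 := tw_conj F (by omega) X hcX 0 (fun u v => hX.pol () u v) σ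
    have h2 : ∀ τ : L →+* ℂ, A τ = tw F τ X := by
      intro τ
      show (ent F τ X).trace / m = tw F τ X
      rw [ent_trace F (by omega) τ X, mul_div_assoc, mul_div_cancel₀ _ hm0]
    rw [h2, h2]
    linear_combination h1
  -- the traces
  have hT : ∀ σ : L →+* ℂ, (ent F σ (P.N D)).trace = m * A σ + m * μ := by
    intro σ
    have h1 : P.N D = X + μ • (LinearMap.id : Module.End ℂ (κ → ℂ)) := by
      rw [hXd, add_assoc, ← add_smul, neg_add_cancel, zero_smul, add_zero]
    have h2 : ent F σ (LinearMap.id : Module.End ℂ (κ → ℂ)) = 1 := by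
      ext a b
      show F.co σ a (F.e σ b) = _
      rw [F.co_e, Matrix.one_apply]
      by_cases h : a = b
      · rw [if_pos ⟨rfl, h⟩, if_pos h]
      · rw [if_neg (fun h' => h h'.2), if_neg h]
    rw [h1, map_add, map_smul, h2, Matrix.trace_add, Matrix.trace_smul, Matrix.trace_one,
      Fintype.card_fin, smul_eq_mul]
    show _ = (m : ℂ) * ((ent F σ X).trace / m) + m * μ
    rw [mul_div_cancel₀ _ hm0]
    ring
  -- the sum over the embeddings of the big field
  have hsum : ∑ s : Z →+* ℂ, (wt j w s : ℂ) *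
      LinearMap.trace ℂ (κ → ℂ) (P.N D * proj (F.ρ.comp j) s) =
      ∑ σ : L →+* ℂ, (wt j w (σ.comp j) : ℂ) * (ent F σ (P.N D)).trace := by
    simp only [Crl_trace F j, Finset.mul_sum]
    rw [Finset.sum_comm]
    refine Finset.sum_congr rfl fun σ _ => ?_
    rw [Finset.sum_eq_single (σ.comp j)]
    · rw [if_pos rfl]
    · intro s _ hs
      rw [if_neg (fun h => hs h.symm), mul_zero]
    · intro h
      exact absurd (Finset.mem_univ _) h
  rw [hsum]
  -- the weights
  have hwt : ∀ σ : L →+* ℂ, (wt j w (σ.comp j) : ℂ) =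
      ∑ r, ((if (w r).comp j = σ.comp j then (1 : ℂ) else 0) -
        if (w r).comp j = (ComplexEmbedding.conjugate σ).comp j then 1 else 0) := by
    intro σ
    rw [Finset.sum_sub_distrib, Finset.sum_boole, Finset.sum_boole, Crl_conj, wt]
    push_cast
    congr 1
  have hsplit : ∑ σ : L →+* ℂ, (wt j w (σ.comp j) : ℂ) * (ent F σ (P.N D)).trace =
      ∑ r, ∑ σ : L →+* ℂ, (if (w r).comp j = σ.comp j then (1 : ℂ) else 0) *
        ((ent F σ (P.N D)).trace - (ent F (ComplexEmbedding.conjugate σ) (P.N D)).trace) := by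
    have e1 : ∀ σ : L →+* ℂ, (wt j w (σ.comp j) : ℂ) * (ent F σ (P.N D)).trace =
        ∑ r, ((if (w r).comp j = σ.comp j then (1 : ℂ) else 0) * (ent F σ (P.N D)).trace -
          (if (w r).comp j = (ComplexEmbedding.conjugate σ).comp j then (1 : ℂ) else 0) *
            (ent F σ (P.N D)).trace) := by
      intro σ
      rw [hwt σ, Finset.sum_mul]
      refine Finset.sum_congr rfl fun r _ => ?_
      rw [sub_mul]
    rw [Finset.sum_congr rfl fun σ _ => e1 σ, Finset.sum_comm]
    refine Finset.sum_congr rfl fun r _ => ?_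
    simp only [mul_sub]
    rw [Finset.sum_sub_distrib, Finset.sum_sub_distrib]
    congr 1
    let ι : (L →+* ℂ) ≃ (L →+* ℂ) :=
      ⟨ComplexEmbedding.conjugate, ComplexEmbedding.conjugate, conj_conj, conj_conj⟩
    have e2 := Equiv.sum_comp ι (fun σ : L →+* ℂ =>
      (if (w r).comp j = (ComplexEmbedding.conjugate σ).comp j then (1 : ℂ) else 0) *
            (ent F σ (P.N D)).trace)
    rw [← e2]
    refine Finset.sum_congr rfl fun σ _ => ?_
    show (if (w r).comp j = (ComplexEmbedding.conjugate (ComplexEmbedding.conjugate σ)).comp j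
      then (1 : ℂ) else 0) * (ent F (ComplexEmbedding.conjugate σ) (P.N D)).trace = _
    rw [conj_conj]
  rw [hsplit]
  obtain ⟨s₀⟩ : Nonempty (Z →+* ℂ) := inferInstance
  have hfin : ∀ r, ∑ σ : L →+* ℂ, (if (w r).comp j = σ.comp j then (1 : ℂ) else 0) *
        ((ent F σ (P.N D)).trace - (ent F (ComplexEmbedding.conjugate σ) (P.N D)).trace) =
      (2 * m * ((Finset.univ.filter fun σ : L →+* ℂ => σ.comp j = s₀).card : ℂ)) * A (w r) := by
    intro r
    have e1 : ∀ σ : L →+* ℂ, (if (w r).comp j = σ.comp j then (1 : ℂ) else 0) *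
        ((ent F σ (P.N D)).trace - (ent F (ComplexEmbedding.conjugate σ) (P.N D)).trace) =
        (if σ.comp j = (w r).comp j then (1 : ℂ) else 0) * (2 * m * A (w r)) := by
      intro σ
      by_cases h : (w r).comp j = σ.comp j
      · rw [if_pos h, if_pos h.symm, hT, hT, hAc, hAg (w r) σ h]
        ring
      · rw [if_neg h, if_neg (fun h' => h h'.symm), zero_mul, zero_mul]
    rw [Finset.sum_congr rfl fun σ _ => e1 σ, ← Finset.sum_mul, Finset.sum_boole,
      Crl_fib j ((w r).comp j) s₀]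
    ring
  rw [Finset.sum_congr rfl fun r _ => hfin r, ← Finset.mul_sum, hA0, mul_zero]

end WPB
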