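import Pool.Agent.WPB.St
import Pool.Agent.KT2.Itw
import Pool.Agent.KT2.Tor
import Pool.Agent.Helper71.AF.Alg

/-!
# WPB, module Dim: the multiplicities depend only on the restriction to the centre
-/

set_option autoImplicit false
set_option linter.unusedSectionVars false

namespace WPB

open Module Matrix NumberField Pool.Agent.Helper7 KT2 Pool.Agent.Helper84
open Pool.Agent.GPC (AbVar)
open PSQ (W Inv BetR DRA)

section gen

variable {κ : Type} [Fintype κ] [DecidableEq κ] {ϖ : ℂ} {P : PData κ ϖ} {L : Type} [Field L]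
  [NumberField L] {m : ℕ}

/-- a set of embeddings which is not mixed by the endomorphisms is described by the centre -/
lemma Dim_cen (F : UF P L m) (R : (L →+* ℂ) → Prop)
    (hR : ∀ f, IsDRB P P f → ∀ ρ' ρ : L →+* ℂ, ¬ (R ρ' ↔ R ρ) →
      ∀ a j, F.co ρ' a (f (F.e ρ j)) = 0)
    (σ τ : L →+* ℂ) (hag : Ag F σ τ) (hσ : R σ) : R τ := by
  classical
  -- the coefficients of the projector
  obtain ⟨c, hc⟩ : ∃ c : Fin (finrank ℚ L) → ℂ,
      c = fun b => ∑ τ' : L →+* ℂ, if R τ' then τ' (dbas L b) else 0 := ⟨_, rfl⟩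
  have hs : ∀ ρ : L →+* ℂ, ∑ b, c b * ρ (bas L b) = if R ρ then 1 else 0 := by
    intro ρ
    have h1 : ∀ b, c b * ρ (bas L b) = ∑ τ' : L →+* ℂ,
        if R τ' then τ' (dbas L b) * ρ (bas L b) else 0 := by
      intro b
      rw [hc, Finset.sum_mul]
      refine Finset.sum_congr rfl fun τ' _ => ?_
      rw [ite_mul, zero_mul]
    rw [Finset.sum_congr rfl fun b _ => h1 b, Finset.sum_comm]
    have h2 : ∀ τ' : L →+* ℂ, (∑ b, if R τ' then τ' (dbas L b) * ρ (bas L b) else 0) =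
        if τ' = ρ then (if R ρ then 1 else 0) else 0 := by
      intro τ'
      by_cases h : R τ'
      · simp only [if_pos h]
        rw [sum_dbas_bas]
        by_cases h3 : τ' = ρ
        · rw [if_pos h3, if_pos h3, if_pos (h3 ▸ h)]
        · rw [if_neg h3, if_neg h3]
      · simp only [if_neg h]
        rw [Finset.sum_const_zero]
        by_cases h3 : τ' = ρ
        · rw [if_pos h3, if_neg (h3 ▸ h)]
        · rw [if_neg h3]
    rw [Finset.sum_congr rfl fun τ' _ => h2 τ']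
    rw [Finset.sum_ite_eq' Finset.univ ρ]
    rw [if_pos (Finset.mem_univ ρ)]
  -- the projector
  obtain ⟨p, hp⟩ : ∃ p : Module.End ℂ (κ → ℂ), p = ∑ b, c b • F.ρ (bas L b) := ⟨_, rfl⟩
  have hpe : ∀ ρ j, p (F.e ρ j) = (if R ρ then 1 else 0 : ℂ) • F.e ρ j := by
    intro ρ j
    rw [hp, LinearMap.sum_apply, ← hs ρ, Finset.sum_smul]
    refine Finset.sum_congr rfl fun b _ => ?_
    rw [LinearMap.smul_apply, F.rho_e, smul_smul]
  have hpf : ∀ f, IsDRB P P f → ∀ v, f (p v) = p (f v) := by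
    intro f hf v
    refine F.ext_e (f ∘ₗ p) (p ∘ₗ f) (fun ρ j => ?_) v
    rw [LinearMap.comp_apply, LinearMap.comp_apply, hpe ρ j, map_smul]
    rw [F.hsum (f (F.e ρ j)), Finset.smul_sum, map_sum]
    refine Finset.sum_congr rfl fun ρ' _ => ?_
    rw [Finset.smul_sum, map_sum]
    refine Finset.sum_congr rfl fun a _ => ?_
    rw [map_smul, hpe ρ' a]
    by_cases h1 : R ρ' ↔ R ρ
    · rw [if_congr h1.symm rfl rfl, smul_comm]
    · rw [hR f hf ρ' ρ h1 a j, zero_smul, zero_smul, smul_zero]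
  -- rational coordinates of the coefficients
  obtain ⟨B, -⟩ : ∃ B : Basis (Module.Free.ChooseBasisIndex ℚ ℂ) ℚ ℂ,
      B = Module.Free.chooseBasis ℚ ℂ := ⟨_, rfl⟩
  obtain ⟨x, hx⟩ : ∃ x : Module.Free.ChooseBasisIndex ℚ ℂ → L,
      x = fun j => ∑ b, (B.repr (c b) j) • bas L b := ⟨_, rfl⟩
  have hz : ∀ j, Zen F (x j) := by
    intro j f hf
    -- the commutators with the basis elements
    have h1 : ∀ b, ∀ q : P.ι, ∀ q' : P.ι, ∃ r : ℚ,
        P.bB.repr (f (F.ρ (bas L b) (P.bB q)) - F.ρ (bas L b) (f (P.bB q))) q' = r := by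
      intro b q q'
      refine P.repr_rat _ (P.Q.sub_mem ?_ ?_) q'
      · exact hf.rat _ ((F.hρ _).rat _ (P.basis_mem q))
      · exact (F.hρ _).rat _ (hf.rat _ (P.basis_mem q))
    choose r hr using h1
    have h2 : ∀ q q', ∑ b, c b * (r b q q' : ℂ) = 0 := by
      intro q q'
      have h3 := hpf f hf (P.bB q)
      have h4 : ∑ b, c b • (f (F.ρ (bas L b) (P.bB q)) - F.ρ (bas L b) (f (P.bB q))) = 0 := by
        rw [hp, LinearMap.sum_apply, LinearMap.sum_apply, map_sum] at h3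
        rw [← sub_eq_zero, ← Finset.sum_sub_distrib] at h3
        rw [← h3]
        refine Finset.sum_congr rfl fun b _ => ?_
        rw [LinearMap.smul_apply, LinearMap.smul_apply, map_smul, smul_sub]
      have h5 := congrArg (fun w => P.bB.repr w q') h4
      simp only [map_sum, map_smul, map_zero, Finsupp.coe_zero, Pi.zero_apply] at h5
      rw [Finsupp.finsetSum_apply] at h5
      rw [← h5]
      refine Finset.sum_congr rfl fun b _ => ?_
      rw [Finsupp.smul_apply, hr b q q', smul_eq_mul]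
    have h3 : ∀ q q', ∑ b, B.repr (c b) j * r b q q' = 0 := by
      intro q q'
      have h4 := congrArg (fun w => B.repr w j) (h2 q q')
      simp only [map_sum, map_zero, Finsupp.coe_zero, Pi.zero_apply] at h4
      rw [Finsupp.finsetSum_apply] at h4
      rw [← h4]
      refine Finset.sum_congr rfl fun b _ => ?_
      have h5 : c b * (r b q q' : ℂ) = r b q q' • c b := by
        rw [Algebra.smul_def, eq_ratCast, mul_comm]
      rw [h5, map_smul, Finsupp.smul_apply, smul_eq_mul, mul_comm]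
    have h4 : f ∘ₗ F.ρ (x j) = F.ρ (x j) ∘ₗ f := by
      apply P.bB.ext
      intro q
      rw [LinearMap.comp_apply, LinearMap.comp_apply]
      have h5 : ∀ v, F.ρ (x j) v = ∑ b, (B.repr (c b) j : ℂ) • F.ρ (bas L b) v := by
        intro v
        rw [hx, map_sum, LinearMap.sum_apply]
        refine Finset.sum_congr rfl fun b _ => ?_
        rw [rho_ratsmul, LinearMap.smul_apply]
      rw [h5, h5, map_sum, ← sub_eq_zero, ← Finset.sum_sub_distrib]
      apply P.bB.repr.injective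
      ext q'
      rw [map_zero, Finsupp.coe_zero, Pi.zero_apply, map_sum, Finsupp.finsetSum_apply]
      have h6 : ∀ b, P.bB.repr (f ((B.repr (c b) j : ℂ) • F.ρ (bas L b) (P.bB q)) -
          (B.repr (c b) j : ℂ) • F.ρ (bas L b) (f (P.bB q))) q' =
          ((B.repr (c b) j * r b q q' : ℚ) : ℂ) := by
        intro b
        rw [map_smul, ← smul_sub, map_smul, Finsupp.smul_apply, hr b q q', smul_eq_mul]
        push_cast
        rfl
      rw [Finset.sum_congr rfl fun b _ => h6 b, ← Rat.cast_sum, h3, Rat.cast_zero]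
    intro v
    exact congrArg (fun g : (κ → ℂ) →ₗ[ℂ] (κ → ℂ) => g v) h4
  -- the value at a place
  have hval : ∀ ρ : L →+* ℂ, ∑ b, c b * ρ (bas L b) =
      ∑ j ∈ Finset.univ.biUnion (fun b => (B.repr (c b)).support), B j * ρ (x j) := by
    intro ρ
    have h1 : ∀ b, c b = ∑ j ∈ Finset.univ.biUnion (fun b => (B.repr (c b)).support),
        (B.repr (c b) j) • B j := by
      intro b
      have h2 := B.linearCombination_repr (c b)
      rw [Finsupp.linearCombination_apply, Finsupp.sum] at h2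
      rw [← Finset.sum_subset (Finset.subset_biUnion_of_mem (fun b => (B.repr (c b)).support)
        (Finset.mem_univ b)) ?_]
      · exact h2.symm
      · intro j _ hj
        rw [Finsupp.notMem_support_iff.mp hj, zero_smul]
    have h3 : ∀ j, B j * ρ (x j) = ∑ b, ((B.repr (c b) j) • B j) * ρ (bas L b) := by
      intro j
      rw [hx, map_sum, Finset.mul_sum]
      refine Finset.sum_congr rfl fun b _ => ?_
      have h4 : ρ ((B.repr (c b) j) • bas L b) = (B.repr (c b) j : ℂ) * ρ (bas L b) := by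
        rw [Algebra.smul_def, map_mul, eq_ratCast, map_ratCast]
      rw [h4, Algebra.smul_def, eq_ratCast]
      ring
    rw [Finset.sum_congr rfl fun j _ => h3 j, Finset.sum_comm]
    refine Finset.sum_congr rfl fun b _ => ?_
    rw [← Finset.sum_mul, ← h1 b]
  have h1 : (if R τ then (1 : ℂ) else 0) = if R σ then 1 else 0 := by
    rw [← hs τ, ← hs σ, hval τ, hval σ]
    refine Finset.sum_congr rfl fun j _ => ?_
    rw [hag (x j) (hz j)]
  rw [if_pos hσ] at h1
  by_contra h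
  rw [if_neg h] at h1
  exact zero_ne_one h1

lemma Dim_conj (σ : L →+* ℂ) :
    ComplexEmbedding.conjugate (ComplexEmbedding.conjugate σ) = σ :=
  RingHom.ext fun x => by simp

/-- the part of an operator between two places -/
lemma Dim_part (F : UF P L m) (f : Module.End ℂ (κ → ℂ)) (τ'' τ' : L →+* ℂ) :
    (∃ v, proj F.ρ τ'' (f (proj F.ρ τ' v)) ≠ 0) ↔ ∃ a b, F.co τ'' a (f (F.e τ' b)) ≠ 0 := by
  classical
  constructor
  · rintro ⟨v, hv⟩
    by_contra hcon
    push Not at hcon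
    apply hv
    rw [F.proj_eq τ' v, map_sum, map_sum]
    refine Finset.sum_eq_zero fun b _ => ?_
    rw [map_smul, map_smul, F.proj_eq τ'' (f (F.e τ' b))]
    rw [Finset.sum_eq_zero fun a _ => by rw [hcon a b, zero_smul], smul_zero]
  · rintro ⟨a, b, h⟩
    refine ⟨F.e τ' b, fun h0 => h ?_⟩
    rw [F.proj_e, if_pos rfl, F.proj_eq] at h0
    have h1 := congrArg (F.co τ'' a) h0
    rw [map_sum, map_zero, Finset.sum_eq_single a] at h1
    · rw [map_smul, F.co_e, if_pos ⟨rfl, rfl⟩, smul_eq_mul, mul_one] at h1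
      exact h1
    · intro c _ hc
      rw [map_smul, F.co_e, if_neg (fun h => hc h.2.symm), smul_zero]
    · intro h
      exact absurd (Finset.mem_univ _) h

/-- the polarisation and the projectors -/
lemma Dim_psi (F : UF P L m) (σ : L →+* ℂ) (u v : κ → ℂ) :
    P.ψ (proj F.ρ σ u) v = P.ψ u (proj F.ρ (ComplexEmbedding.conjugate σ) v) := by
  classical
  have h1 : (P.ψ.comp (proj F.ρ σ)) u =
      (P.ψ.compl₂ (proj F.ρ (ComplexEmbedding.conjugate σ))) u := by
    refine F.ext_e _ _ (fun τ a => ?_) u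
    refine LinearMap.ext fun w => ?_
    refine F.ext_e _ _ (fun τ' b => ?_) w
    show P.ψ (proj F.ρ σ (F.e τ a)) (F.e τ' b) =
      P.ψ (F.e τ a) (proj F.ρ (ComplexEmbedding.conjugate σ) (F.e τ' b))
    rw [F.proj_e, F.proj_e]
    by_cases h2 : τ' = ComplexEmbedding.conjugate τ
    · by_cases h3 : σ = τ
      · rw [if_pos h3, if_pos (by rw [h2, h3])]
      · rw [if_neg h3, if_neg, map_zero, map_zero, LinearMap.zero_apply]
        intro h4
        apply h3
        rw [← Dim_conj σ, h4, h2, Dim_conj]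
    · have h5 := F.psi_e τ τ' a b h2
      split_ifs
      · rfl
      · rw [h5, map_zero]
      · rw [map_zero, LinearMap.zero_apply, h5]
      · rw [map_zero, map_zero, LinearMap.zero_apply]
  exact congrArg (fun g : (κ → ℂ) →ₗ[ℂ] ℂ => g v) h1

/-- the adjoint -/
lemma Dim_adj (hϖ : ϖ ≠ 0) (F : UF P L m) (f : Module.End ℂ (κ → ℂ)) (hf : IsDRB P P f)
    (τ'' τ' : L →+* ℂ) (h : ∃ v, proj F.ρ τ'' (f (proj F.ρ τ' v)) ≠ 0) :
    ∃ g : Module.End ℂ (κ → ℂ), IsDRB P P g ∧
      ∃ v, proj F.ρ (ComplexEmbedding.conjugate τ')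
        (g (proj F.ρ (ComplexEmbedding.conjugate τ'') v)) ≠ 0 := by
  obtain ⟨g, hg, hfg⟩ := Pool.Agent.Helper71.AF.exists_adj P hϖ f hf
  refine ⟨g, hg, ?_⟩
  by_contra hcon
  push Not at hcon
  obtain ⟨v, hv⟩ := h
  apply hv
  refine P.hψnd _ fun w => ?_
  rw [Dim_psi, hfg, Dim_psi, hcon, map_zero]

end gen

section av

variable {A : AbVar} {K : Type} [Field K] [NumberField K] {n : ℕ}

/-- complex conjugation -/
lemma Dim_cB (F : UF (pData A) K n) (f : Module.End ℂ A.H1) (hf : IsDRB (pData A) (pData A) f)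
    (τ'' τ' : K →+* ℂ) (h : ∃ v, proj F.ρ τ'' (f (proj F.ρ τ' v)) ≠ 0) :
    ∃ v, proj F.ρ (ComplexEmbedding.conjugate τ'')
        (f (proj F.ρ (ComplexEmbedding.conjugate τ') v)) ≠ 0 := by
  obtain ⟨v, hv⟩ := h
  have hρE : ∀ y, A.IsEnd (F.ρ y) := fun y => isEnd_of_isDRB A _ (F.hρ y)
  refine ⟨cB (pData A) v, fun h0 => hv ?_⟩
  rw [proj_cB A F.ρ hρE, Dim_conj, ← cB_comm (pData A) f hf.rat, proj_cB A F.ρ hρE, Dim_conj] at h0
  have h1 := congrArg (cB (pData A)) h0
  rw [cB_cB] at h1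
  rw [h1]
  exact cB_zero _

/-- an endomorphism with a non zero part gives an inequality -/
lemma Dim_le (F : UF (pData A) K n) (f : Module.End ℂ A.H1) (hf : IsDRB (pData A) (pData A) f)
    (τ'' τ' : K →+* ℂ) (h : ∃ v, proj F.ρ τ'' (f (proj F.ρ τ' v)) ≠ 0) :
    finrank ℂ (A.eigenFil (fun x v => F.ρ x v) τ') ≤
      finrank ℂ (A.eigenFil (fun x v => F.ρ x v) τ'') := by
  classical
  have hρE : ∀ y, A.IsEnd (F.ρ y) := fun y => isEnd_of_isDRB A _ (F.hρ y)
  obtain ⟨a₀, b₀, hab⟩ := (Dim_part F f τ'' τ').1 h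
  have h0 : Itw_fm F τ'' τ' f ≠ 0 := fun h1 => hab (congrFun (congrFun h1 a₀) b₀)
  obtain ⟨T', hT1, hT2⟩ := Itw_inv F (n := 0) (k := 0)
    (α := (0 : MultilinearMap ℂ (fun _ : Fin (2 * 0) => W (Fin A.g ⊕ Fin A.g) 0) ℂ))
    Complex.two_pi_I_ne_zero (fun v _ => ⟨0, by simp⟩) (fun v _ => isAlgebraic_zero) τ'' τ'
    (Itw_fm F τ'' τ' f) (fun X c hX => Itw_inter F hX hf τ'' τ') h0
  have hmem : ∀ v : A.eigenFil (fun x v => F.ρ x v) τ',
      proj F.ρ τ'' (f (v : A.H1)) ∈ A.eigenFil (fun x v => F.ρ x v) τ'' := by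
    intro v
    rw [Tor_mem F]
    refine ⟨fun y => congrArg (fun g : Module.End ℂ A.H1 => g (f v)) (rho_mul_proj F.ρ y τ''), ?_⟩
    exact proj_fil A F.ρ hρE τ'' ((isEnd_of_isDRB A f hf).hodge _ ((Tor_mem F τ' v).1 v.2).2)
  let φ : A.eigenFil (fun x v => F.ρ x v) τ' →ₗ[ℂ] A.eigenFil (fun x v => F.ρ x v) τ'' :=
    LinearMap.codRestrict _ ((proj F.ρ τ'').comp (f.comp (Submodule.subtype _))) hmem
  refine LinearMap.finrank_le_finrank_of_injective (f := φ) ?_
  rw [← LinearMap.ker_eq_bot, LinearMap.ker_eq_bot']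
  intro v hv
  apply Subtype.ext
  have hv1 : proj F.ρ τ'' (f (v : A.H1)) = 0 := congrArg Subtype.val hv
  have hv2 : proj F.ρ τ' (v : A.H1) = v :=
    Pool.Agent.Helper83.Ball.proj_of_eigen F τ' v ((Tor_mem F τ' v).1 v.2).1
  obtain ⟨c, hc⟩ : ∃ c : Fin n → ℂ, c = fun b => F.co τ' b (v : A.H1) := ⟨_, rfl⟩
  have hvc : (v : A.H1) = ∑ b, c b • F.e τ' b := by
    rw [hc]
    conv_lhs => rw [← hv2, F.proj_eq]
  have hTc : Itw_fm F τ'' τ' f *ᵥ c = 0 := by
    funext a
    have h1 := congrArg (F.co τ'' a) hv1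
    have h2 : F.co τ'' a (proj F.ρ τ'' (f (v : A.H1))) = F.co τ'' a (f (v : A.H1)) := by
      rw [F.proj_eq, map_sum, Finset.sum_eq_single a]
      · rw [map_smul, F.co_e, if_pos ⟨rfl, rfl⟩, smul_eq_mul, mul_one]
      · intro c _ hc
        rw [map_smul, F.co_e, if_neg (fun h => hc h.2.symm), smul_zero]
      · intro h
        exact absurd (Finset.mem_univ _) h
    rw [h2, map_zero, hvc, map_sum, map_sum] at h1
    rw [Matrix.mulVec, dotProduct, Pi.zero_apply, ← h1]
    refine Finset.sum_congr rfl fun b _ => ?_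
    rw [map_smul, map_smul, smul_eq_mul, Itw_fm_apply, mul_comm]
  have hc0 : c = 0 := by
    rw [← Matrix.one_mulVec c, ← hT2, ← Matrix.mulVec_mulVec, hTc, Matrix.mulVec_zero]
  rw [hvc, hc0]
  exact Finset.sum_eq_zero fun b _ => zero_smul _ _

end av

theorem thm_Dim : St_Dim := by
  intro A K _ _ n F σ τ hag
  refine (Dim_cen F (fun τ' => finrank ℂ (A.eigenFil (fun x v => F.ρ x v) σ) =
    finrank ℂ (A.eigenFil (fun x v => F.ρ x v) τ')) (fun f hf ρ' ρ hne a j => ?_) σ τ hag rfl)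
  by_contra h0
  apply hne
  have h1 : ∃ v, proj F.ρ ρ' (f (proj F.ρ ρ v)) ≠ 0 := (Dim_part F f ρ' ρ).2 ⟨a, j, h0⟩
  have h2 := Dim_le F f hf ρ' ρ h1
  obtain ⟨g, hg, h3⟩ := Dim_adj Complex.two_pi_I_ne_zero F f hf _ _ (Dim_cB F f hf ρ' ρ h1)
  rw [Dim_conj, Dim_conj] at h3
  have h4 := Dim_le F g hg ρ ρ' h3
  have h5 := le_antisymm h2 h4
  simp only [h5]

end WPB
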