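import Pool.Agent.WPB.St

/-!
# WPB, M7o: exterior invariants of a product of orthogonal groups of odd degree, weights zero
-/

set_option autoImplicit false

namespace WPB

open Module Matrix NumberField Pool.Agent.Helper7 KT2
open Pool.Agent.Ball

/-- counting: no place has sites of odd occupancy -/
lemma M7o_count {Φ : Type} {m k : ℕ} (s : Fin (2 * k) → Φ × Fin m × Bool)
    (hs : Function.Injective s) (hm : Odd m)
    (h : ∀ (q : Φ) (i j : Fin m),
      ((∃ r, s r = M7.dup (q, i) false) ↔ (∃ r, s r = M7.dup (q, i) true)) →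
      ((∃ r, s r = M7.dup (q, j) false) ↔ (∃ r, s r = M7.dup (q, j) true)))
    (q : Φ) (A B : Finset (Fin (2 * k))) (hA : ∀ r, r ∈ A ↔ (s r).1 = q ∧ (s r).2.2 = false)
    (hB : ∀ r, r ∈ B ↔ (s r).1 = q ∧ (s r).2.2 = true) (hAB : A.card = B.card) (i₀ : Fin m) :
    (∃ r, s r = M7.dup (q, i₀) false) ↔ (∃ r, s r = M7.dup (q, i₀) true) := by
  classical
  by_contra hx
  have hbad : ∀ i, ¬ ((∃ r, s r = M7.dup (q, i) false) ↔ (∃ r, s r = M7.dup (q, i) true)) :=
    fun i hi => hx (h q i i₀ hi)
  have hdis : Disjoint A B := by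
    rw [Finset.disjoint_left]
    intro r hr hr'
    have h1 := ((hA r).1 hr).2
    have h2 := ((hB r).1 hr').2
    rw [h1] at h2
    exact absurd h2 (by decide)
  have hcard : (A ∪ B).card = m := by
    have h1 : (A ∪ B).card = (Finset.univ : Finset (Fin m)).card := by
      refine Finset.card_bij (fun r _ => (s r).2.1) (fun r _ => Finset.mem_univ _) ?_ ?_
      · intro r hr r' hr' hrr
        have e : ∀ r, r ∈ A ∪ B → s r = M7.dup (q, (s r).2.1) (s r).2.2 := by
          intro r hr
          rcases Finset.mem_union.1 hr with h2 | h2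
          · exact Prod.ext ((hA r).1 h2).1 rfl
          · exact Prod.ext ((hB r).1 h2).1 rfl
        have e1 := e r hr
        have e2 := e r' hr'
        have e3 : (s r).2.1 = (s r').2.1 := hrr
        rw [← e3] at e2
        by_cases h3 : (s r).2.2 = (s r').2.2
        · rw [← h3] at e2
          exact hs (e1.trans e2.symm)
        · exfalso
          apply hbad (s r).2.1
          obtain ⟨a, ha⟩ : ∃ a, a = (s r).2.2 := ⟨_, rfl⟩
          obtain ⟨c, hc⟩ : ∃ c, c = (s r').2.2 := ⟨_, rfl⟩
          rw [← ha] at e1 h3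
          rw [← hc] at e2 h3
          cases a <;> cases c
          · exact absurd rfl h3
          · exact ⟨fun _ => ⟨r', e2⟩, fun _ => ⟨r, e1⟩⟩
          · exact ⟨fun _ => ⟨r, e1⟩, fun _ => ⟨r', e2⟩⟩
          · exact absurd rfl h3
      · intro i _
        have h2 := hbad i
        by_cases ha : ∃ r, s r = M7.dup (q, i) false
        · obtain ⟨r, hr⟩ := ha
          refine ⟨r, Finset.mem_union_left _ ((hA r).2 ?_), ?_⟩
          · rw [hr]
            exact ⟨rfl, rfl⟩
          · show (s r).2.1 = i
            rw [hr]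
            rfl
        · by_cases hb : ∃ r, s r = M7.dup (q, i) true
          · obtain ⟨r, hr⟩ := hb
            refine ⟨r, Finset.mem_union_right _ ((hB r).2 ?_), ?_⟩
            · rw [hr]
              exact ⟨rfl, rfl⟩
            · show (s r).2.1 = i
              rw [hr]
              rfl
          · exact absurd ⟨fun h => absurd h ha, fun h => absurd h hb⟩ h2
    rw [h1, Finset.card_univ, Fintype.card_fin]
  rw [Finset.card_union_of_disjoint hdis, hAB] at hcard
  obtain ⟨c, hc⟩ := hm
  omega

theorem thm_M7o : St_M7o := by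
  intro Φ W _ _ _ _ m k b R hR α hα hodd hw
  classical
  apply M7.mem_span b α
  · intro s hs0
    have hs : Function.Injective s := by
      by_contra hs
      apply hs0
      apply AlternatingMap.map_eq_zero_of_not_injective
      intro h
      exact hs (fun x y hxy => h (congrArg b hxy))
    apply M7.paired s hs
    rintro ⟨q, i₀⟩
    refine M7o_count s hs hodd ?_ q _ _ (fun r => ?_) (fun r => ?_) (hw s hs0 q) i₀
    · -- parity
      intro q i j hi
      by_contra hj
      apply hs0
      show M7.val b α s = 0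
      have hij : j ≠ i := by
        rintro rfl; exact hj hi
      -- the side of the odd site
      obtain ⟨ε, ⟨r₀, h0⟩, h1⟩ : ∃ ε, (∃ r₀, s r₀ = M7.dup (q, j) ε) ∧
          ∀ r, s r ≠ M7.dup (q, j) (!ε) := by
        by_cases ha : ∃ r, s r = M7.dup (q, j) false
        · refine ⟨false, ha, ?_⟩
          intro r hr
          exact hj ⟨fun _ => ⟨r, hr⟩, fun _ => ha⟩
        · by_cases hb : ∃ r, s r = M7.dup (q, j) true
          · refine ⟨true, hb, ?_⟩
            intro r hr
            exact ha ⟨r, hr⟩
          · exact absurd ⟨fun h => absurd h ha, fun h => absurd h hb⟩ hj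
      by_cases hf : ∃ r, s r = M7.dup (q, i) false
      · obtain ⟨r₁, h3⟩ := hf
        obtain ⟨r₂, h4⟩ := hi.mp ⟨r₁, h3⟩
        cases ε
        · exact M7.odd_full b R hR α hα s hs q j i hij false r₀ r₁ r₂ h0 h1 h3 h4
        · exact M7.odd_full b R hR α hα s hs q j i hij true r₀ r₂ r₁ h0 h1 h4 h3
      · have ht : ¬ ∃ r, s r = M7.dup (q, i) true := fun h => hf (hi.mpr h)
        push Not at hf ht
        refine M7.odd_empty b R hR α hα s hs q j i hij ε r₀ h0 h1 ?_
        intro r δ
        cases δ
        · exact hf r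
        · exact ht r
    · rw [Finset.mem_filter]
      exact ⟨fun h => h.2, fun h => ⟨Finset.mem_univ _, h⟩⟩
    · rw [Finset.mem_filter]
      exact ⟨fun h => h.2, fun h => ⟨Finset.mem_univ _, h⟩⟩
  · intro p q hp hq h
    exact M7.places b R hR α hα p q hp hq h

end WPB
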