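import Pool.Agent.WPB.St
import Pool.Agent.Helper20.Ball.M9a

/-!
# WPB, M9o: the conclusion from rotations at all places, odd rank and weights zero
-/

set_option autoImplicit false

open scoped ComplexConjugate

namespace WPB

open Module Matrix NumberField Pool.Agent.Helper7 KT2
open Pool.Agent.Ball
open Pool.Agent.Helper8.D (ent)
open PSQ (W Inv BetR DRA)

section

variable {κ : Type} [Fintype κ] [DecidableEq κ] {ϖ : ℂ} {P : PData κ ϖ} {L : Type} [Field L]
  [NumberField L] {m : ℕ}

/-- the embedding of a vector of the adapted basis -/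
noncomputable def M9o_em (x : InfinitePlace L × Fin m × Bool) : L →+* ℂ :=
  if x.2.2 = false then x.1.embedding else ComplexEmbedding.conjugate x.1.embedding

lemma M9o_proj (F : UF P L m) (U V : InfinitePlace L → Matrix (Fin m) (Fin m) ℂ)
    (x : InfinitePlace L × Fin m × Bool) :
    proj F.ρ (M9o_em x) (bv F U V x) = bv F U V x := by
  classical
  obtain ⟨t, j, ε⟩ := x
  cases ε
  · show proj F.ρ (M9o_em (t, j, false)) (vc F _ _) = vc F _ _
    unfold M9o_em
    rw [if_pos rfl, vc_proj, if_pos rfl]
  · show proj F.ρ (M9o_em (t, j, true)) (vc F _ _) = vc F _ _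
    unfold M9o_em
    rw [if_neg (fun h => by simp at h), vc_proj, if_pos rfl]

lemma M9o_em_lo (hc : ∀ σ : L →+* ℂ, ComplexEmbedding.conjugate σ ≠ σ)
    (x : InfinitePlace L × Fin m × Bool) (q : InfinitePlace L) :
    M9o_em x = q.embedding ↔ x.1 = q ∧ x.2.2 = false := by
  obtain ⟨t, j, ε⟩ := x
  unfold M9o_em
  cases ε
  · rw [if_pos rfl]
    refine ⟨fun h => ⟨?_, rfl⟩, fun h => by rw [h.1]⟩
    by_contra h1
    exact (emb_ne h1).1 h
  · rw [if_neg (fun h => by simp at h)]
    refine ⟨fun h => ?_, fun h => by simp at h⟩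
    exfalso
    by_cases h1 : q = t
    · subst h1
      exact hc _ h
    · exact (emb_ne h1).2 h.symm

lemma M9o_em_hi (hc : ∀ σ : L →+* ℂ, ComplexEmbedding.conjugate σ ≠ σ)
    (x : InfinitePlace L × Fin m × Bool) (q : InfinitePlace L) :
    M9o_em x = ComplexEmbedding.conjugate q.embedding ↔ x.1 = q ∧ x.2.2 = true := by
  obtain ⟨t, j, ε⟩ := x
  unfold M9o_em
  cases ε
  · rw [if_pos rfl]
    refine ⟨fun h => ?_, fun h => by simp at h⟩
    exfalso
    by_cases h1 : t = q
    · subst h1
      exact hc _ h.symm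
    · exact (emb_ne h1).2 h
  · rw [if_neg (fun h => by simp at h)]
    refine ⟨fun h => ⟨?_, rfl⟩, fun h => by rw [h.1]⟩
    by_contra h1
    apply (emb_ne h1).1
    have h2 := congrArg ComplexEmbedding.conjugate h
    rwa [cj_cj, cj_cj] at h2

end

theorem thm_M9o (hM7o : St_M7o) : St_M9o := by
  intro κ _ _ ϖ P L _ _ m F k α hϖ hc hB hA hrot hodd hw
  classical
  have hrot' : ∀ s : InfinitePlace L, HasRot P F α s.embedding := fun s => hrot _
  choose U V hUV hVU hX using hrot'
  choose X hXinv hX2 hXs hX0 using hX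
  obtain ⟨b, hb⟩ : ∃ b : Basis (InfinitePlace L × Fin m × Bool) ℂ
      (HW (fun _ : Unit => κ) (fun _ => 1)), b = (bB F U V hVU hc).map (oneEq κ) := ⟨_, rfl⟩
  have hbx : ∀ x, b x = oneEq κ (bv F U V x) := by
    intro x
    rw [hb, Basis.map_apply, bB_apply]
  have hbc : ∀ x u, b.coord x u = (bB F U V hVU hc).coord x (u () 0) := by
    intro x u
    rw [hb]
    rfl
  -- the span of the exterior products of the pairings
  have h1 : α ∈ Submodule.span ℂ {ω | ∃ f : Fin k → InfinitePlace L,
      ω = wedge (fun a => beta b (f a))} := by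
    refine hM7o (InfinitePlace L) _ m k b (fun s i j => lift (fun _ => 1) (X s i j).1) ?_ α ?_
      hodd ?_
    · intro s i j hij t l ε
      rw [hbx, hbx, hbx, oneEq_lift, rot_bv F U V hVU hc ((X s i j).1 ())
        (fun x v => (hXinv s i j).comm () () _ (F.hρ x) v)
        (fun u v => by
          have h := (hXinv s i j).pol () u v
          rw [hX2, zero_mul] at h
          exact h) s i j hij (hXs s i j) (hX0 s i j) t l ε]
      split_ifs
      · rw [map_neg]
      · rfl
      · rw [map_zero]
    · intro s i j hij v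
      have h := congrArg (fun f => f v) (hXinv s i j).form
      simp only [actForm_apply] at h
      rw [hX2, mul_zero, zero_smul] at h
      exact h
    · intro s hs q
      have hocc : Occ F 1 k (α : MultilinearMap ℂ (fun _ : Fin (2 * k) => W κ 1) ℂ)
          (fun r => M9o_em (s r)) := by
        refine ⟨fun r => b (s r), fun r i => ?_, hs⟩
        have h2 : b (s r) () i = bv F U V (s r) := by rw [hbx]; rfl
        show proj F.ρ (M9o_em (s r)) (b (s r) () i) = b (s r) () i
        rw [h2]
        exact M9o_proj F U V (s r)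
      have h3 := hw _ hocc q.embedding
      unfold wt at h3
      rw [sub_eq_zero, Nat.cast_inj] at h3
      have h4 : (Finset.univ.filter fun r => (s r).1 = q ∧ (s r).2.2 = false) =
          Finset.univ.filter fun r => (M9o_em (s r)).comp (RingHom.id L) = q.embedding := by
        ext r
        rw [Finset.mem_filter, Finset.mem_filter, RingHom.comp_id, M9o_em_lo hc]
      have h5 : (Finset.univ.filter fun r => (s r).1 = q ∧ (s r).2.2 = true) =
          Finset.univ.filter fun r => (M9o_em (s r)).comp (RingHom.id L) =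
            ComplexEmbedding.conjugate q.embedding := by
        ext r
        rw [Finset.mem_filter, Finset.mem_filter, RingHom.comp_id, M9o_em_hi hc]
      rw [h4, h5]
      exact h3
  -- the pairings are invariant
  have hinv : ∀ s, beta b s ∈ invB (fun _ => 1) (fun _ : Unit => P)
      (α : MultilinearMap ℂ (fun _ : Fin (2 * k) => HW (fun _ : Unit => κ) (fun _ => 1)) ℂ) := by
    intro s Y hY u v
    have hβ : ∀ u v : HW (fun _ : Unit => κ) (fun _ => 1), beta b s u v =
        P.ψ (proj F.ρ s.embedding (u () 0)) (v () 0) := by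
      intro u v
      rw [pair_eq F U V hVU hc, beta, LinearMap.sum_apply, LinearMap.sum_apply]
      refine Finset.sum_congr rfl fun i _ => ?_
      rw [LinearMap.compl₁₂_apply, LinearMap.mul_apply', hbc, hbc]
    have hYc : F.Comm (Y.1 ()) := fun x v => hY.comm () () _ (F.hρ x) v
    rw [hβ, hβ, hβ]
    show P.ψ (proj F.ρ s.embedding (Y.1 () (u () 0))) (v () 0) +
      P.ψ (proj F.ρ s.embedding (u () 0)) (Y.1 () (v () 0)) = _
    rw [← hYc.proj]
    exact hY.pol () _ _
  -- the complex span
  have h2 : α ∈ Submodule.span ℂ {ω | ∃ γ : Fin k → (HW (fun _ : Unit => κ) (fun _ => 1) →ₗ[ℂ]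
        HW (fun _ : Unit => κ) (fun _ => 1) →ₗ[ℂ] ℂ),
      (∀ a, γ a ∈ GW (fun _ => 1) (fun _ : Unit => P)) ∧ ω = wedge γ} := by
    refine Submodule.span_le.mpr ?_ h1
    rintro _ ⟨f, rfl⟩
    exact wedge_mem_span (GW (fun _ => 1) (fun _ : Unit => P)) _
      (fun a => inv_mem_GW (fun _ => 1) (fun _ : Unit => P) _ hϖ hB hA _ (hinv (f a)))
  refine rational_descent (FBP (fun _ => 1) (fun _ : Unit => P)) (ϖ ^ k) (pow_ne_zero _ hϖ) _ ?_ α
    (fun s => hB _ (fun r => FBP_isRatP _ _ _)) h2
  rintro ω ⟨γ, hγ, rfl⟩ s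
  exact wedge_rational' (fun _ => 1) (fun _ : Unit => P) γ hγ _ (fun r => FBP_isRatP _ _ _)

end WPB
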