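import Pool.Agent.WPB.St

/-!
# WPB, module STB: the words which occur are stable under automorphisms
-/

set_option autoImplicit false

namespace WPB

open Module Matrix NumberField Pool.Agent.Helper7 KT2
open PSQ (W Inv BetR DRA)

section

variable {κ : Type} [Fintype κ] [DecidableEq κ] {ϖ : ℂ}

/-- the twist of a vector by an automorphism of `ℂ` -/
noncomputable def Stb_t (P : PData κ ϖ) (τ : ℂ ≃+* ℂ) (v : κ → ℂ) : κ → ℂ :=
  ∑ q, τ (P.bB.repr v q) • P.bB q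

lemma Stb_t_add (P : PData κ ϖ) (τ : ℂ ≃+* ℂ) (u v : κ → ℂ) :
    Stb_t P τ (u + v) = Stb_t P τ u + Stb_t P τ v := by
  unfold Stb_t
  rw [← Finset.sum_add_distrib]
  refine Finset.sum_congr rfl fun q _ => ?_
  rw [map_add, Finsupp.add_apply, map_add, add_smul]

lemma Stb_t_smul (P : PData κ ϖ) (τ : ℂ ≃+* ℂ) (c : ℂ) (v : κ → ℂ) :
    Stb_t P τ (c • v) = τ c • Stb_t P τ v := by
  unfold Stb_t
  rw [Finset.smul_sum]
  refine Finset.sum_congr rfl fun q _ => ?_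
  rw [map_smul, Finsupp.smul_apply, smul_eq_mul, map_mul, mul_smul]

lemma Stb_t_zero (P : PData κ ϖ) (τ : ℂ ≃+* ℂ) : Stb_t P τ 0 = 0 := by
  have h := Stb_t_smul P τ 0 0
  rw [zero_smul, map_zero, zero_smul] at h
  exact h

lemma Stb_t_sum (P : PData κ ϖ) (τ : ℂ ≃+* ℂ) {J : Type} (s : Finset J) (v : J → κ → ℂ) :
    Stb_t P τ (∑ j ∈ s, v j) = ∑ j ∈ s, Stb_t P τ (v j) := by
  classical
  induction s using Finset.induction_on with
  | empty => rw [Finset.sum_empty, Finset.sum_empty, Stb_t_zero]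
  | insert a s ha ih => rw [Finset.sum_insert ha, Finset.sum_insert ha, Stb_t_add, ih]

lemma Stb_t_mem (P : PData κ ϖ) (τ : ℂ ≃+* ℂ) (v : κ → ℂ) (hv : v ∈ P.Q) :
    Stb_t P τ v = v := by
  conv_rhs => rw [← P.bB.sum_repr v]
  unfold Stb_t
  refine Finset.sum_congr rfl fun q _ => ?_
  obtain ⟨a, ha⟩ := P.repr_rat v hv q
  rw [ha, map_ratCast]

lemma Stb_t_comm (P : PData κ ϖ) (τ : ℂ ≃+* ℂ) (M : Module.End ℂ (κ → ℂ))
    (hM : ∀ v ∈ P.Q, M v ∈ P.Q) (v : κ → ℂ) : M (Stb_t P τ v) = Stb_t P τ (M v) := by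
  conv_rhs => rw [← P.bB.sum_repr v]
  rw [Stb_t, map_sum, map_sum, Stb_t_sum]
  refine Finset.sum_congr rfl fun q _ => ?_
  rw [map_smul, map_smul, Stb_t_smul, Stb_t_mem P τ _ (hM _ (P.basis_mem q))]

lemma Stb_proj {L : Type} [Field L] [NumberField L] {m : ℕ} (P : PData κ ϖ) (F : UF P L m)
    (τ : ℂ ≃+* ℂ) (σ : L →+* ℂ) (v : κ → ℂ) :
    proj F.ρ ((τ : ℂ →+* ℂ).comp σ) (Stb_t P τ v) = Stb_t P τ (proj F.ρ σ v) := by
  have h : ∀ (σ : L →+* ℂ) (w : κ → ℂ), proj F.ρ σ w =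
      ∑ b, σ (dbas L b) • F.ρ (bas L b) w := by
    intro σ w
    rw [proj, LinearMap.sum_apply]
    rfl
  rw [h, h, Stb_t_sum]
  refine Finset.sum_congr rfl fun b _ => ?_
  rw [Stb_t_smul, Stb_t_comm P τ _ (F.hρ _).rat]
  rfl

/-- the twist of a vector of the product -/
noncomputable def Stb_T (P : PData κ ϖ) (n : ℕ) (τ : ℂ ≃+* ℂ) (v : W κ n) : W κ n :=
  fun u i => Stb_t P τ (v u i)

lemma Stb_T_sum (P : PData κ ϖ) (n : ℕ) (τ : ℂ ≃+* ℂ) {J : Type} (s : Finset J)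
    (c : J → ℂ) (v : J → W κ n) (hv : ∀ j, IsRatP (fun _ : Unit => n) (fun _ => P) (v j)) :
    Stb_T P n τ (∑ j ∈ s, c j • v j) = ∑ j ∈ s, τ (c j) • v j := by
  funext u i
  have h1 : (∑ j ∈ s, c j • v j) u i = ∑ j ∈ s, c j • v j u i := by
    rw [Finset.sum_apply, Finset.sum_apply]
    rfl
  have h2 : (∑ j ∈ s, τ (c j) • v j) u i = ∑ j ∈ s, τ (c j) • v j u i := by
    rw [Finset.sum_apply, Finset.sum_apply]
    rfl
  rw [Stb_T, h1, h2, Stb_t_sum]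
  refine Finset.sum_congr rfl fun j _ => ?_
  rw [Stb_t_smul, Stb_t_mem P τ _ (hv j u i)]

/-- the value of a rational form on twisted vectors -/
lemma Stb_val (P : PData κ ϖ) (n k : ℕ)
    (α : MultilinearMap ℂ (fun _ : Fin (2 * k) => W κ n) ℂ) (hB : BetR P n k α)
    (τ : ℂ ≃+* ℂ) (v : Fin (2 * k) → W κ n) :
    ∃ z : ℂ, α v = ϖ ^ k * z ∧ α (fun r => Stb_T P n τ (v r)) = ϖ ^ k * τ z := by
  classical
  obtain ⟨B, hBB⟩ : ∃ B, B = FBP (fun _ : Unit => n) (fun _ : Unit => P) := ⟨_, rfl⟩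
  have hr : ∀ s, IsRatP (fun _ : Unit => n) (fun _ => P) (B s) := by
    intro s
    rw [hBB]
    exact FBP_isRatP _ _ s
  have h0 : ∀ f : Fin (2 * k) → (Σ _ : Unit, Σ (_ : Fin n), P.ι),
      ∃ q : ℚ, α (fun r => B (f r)) = ϖ ^ k * q := fun f => hB _ fun r => hr (f r)
  choose q hq using h0
  have h1 : ∀ c : Fin (2 * k) → (Σ _ : Unit, Σ (_ : Fin n), P.ι) → ℂ,
      α (fun r => ∑ s, c r s • B s) =
        ϖ ^ k * ∑ f : Fin (2 * k) → (Σ _ : Unit, Σ (_ : Fin n), P.ι),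
          (∏ r, c r (f r)) * (q f : ℂ) := by
    intro c
    rw [MultilinearMap.map_sum, Finset.mul_sum]
    refine Finset.sum_congr rfl fun f _ => ?_
    rw [MultilinearMap.map_smul_univ, hq, smul_eq_mul]
    ring
  have h2 : v = fun r => ∑ s, B.repr (v r) s • B s := by
    funext r
    rw [B.sum_repr]
  have h3 : (fun r => Stb_T P n τ (v r)) = fun r => ∑ s, τ (B.repr (v r) s) • B s := by
    funext r
    conv_lhs => rw [← B.sum_repr (v r)]
    exact Stb_T_sum P n τ Finset.univ _ _ hr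
  refine ⟨∑ f : Fin (2 * k) → (Σ _ : Unit, Σ (_ : Fin n), P.ι),
    (∏ r, B.repr (v r) (f r)) * (q f : ℂ), ?_, ?_⟩
  · conv_lhs => rw [h2]
    exact h1 _
  · rw [h3, h1, map_sum]
    congr 1
    refine Finset.sum_congr rfl fun f _ => ?_
    rw [map_mul, map_prod, map_ratCast]

end

theorem thm_Stb : St_Stb := by
  intro κ _ _ ϖ P L _ _ m F n k α hϖ hB w τ hw
  obtain ⟨v, hv, h0⟩ := hw
  obtain ⟨z, hz, hz'⟩ := Stb_val P n k α hB τ v
  refine ⟨fun r => Stb_T P n τ (v r), fun r i => ?_, ?_⟩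
  · show proj F.ρ ((τ : ℂ →+* ℂ).comp (w r)) (Stb_t P τ (v r () i)) = Stb_t P τ (v r () i)
    rw [Stb_proj, hv]
  · rw [hz']
    refine mul_ne_zero (pow_ne_zero k hϖ) fun h1 => h0 ?_
    rw [hz, (map_eq_zero_iff τ τ.injective).1 h1, mul_zero]

end WPB
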