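import Pool.Agent.WPB.St
import Pool.Agent.WPP.AllC
import Pool.Agent.WPP.TorA
import Pool.Agent.WPP.TorI
import Pool.Agent.WPP.TorP
import Pool.Agent.WPP.EgF
import Pool.Agent.WPP.PrT

/-!
# WPB: the torus theorem
-/

set_option autoImplicit false

namespace WPB

open Module NumberField Pool.Agent.Helper7

theorem thm_TorA : St_TorA := by
  intro A Z _ _ _ hGal hab R hE hR c hc hD
  exact WPP.thm_TorA (WPP.thm_TorI (WPP.thm_TorP WPP.All.TorB_ WPP.thm_PrT WPP.All.AnB_))
    WPP.thm_EgF WPP.thm_PrT A Z hab R hE hR c hc hD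

end WPB
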