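import Pool.Agent.WPB.MainQ
import Pool.Agent.WPB.TorA
import Pool.Agent.WPB.Stb
import Pool.Agent.WPB.Crl
import Pool.Agent.WPB.Ckl
import Pool.Agent.WPB.Dim
import Pool.Agent.WPB.Cnb
import Pool.Agent.WPB.M7o
import Pool.Agent.WPB.M9o
import Pool.Agent.Helper7.UN.Main

/-!
# WPB: assembly
-/

set_option autoImplicit false

namespace WPB

open Pool.Agent.GPC (AbVar Form IsGrothendieck IsDivisorial)

/-- `A` of ball type or of prime rank over one place of the centre. -/
theorem unitary (A : AbVar) (m k : ℕ) (h : A.IsUnitaryRange m k)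
    (α : Form (fun _ : Unit => A) (fun _ => m) (2 * k)) :
    IsGrothendieck (fun _ : Unit => A) (fun _ => m) k α ↔
      IsDivisorial (fun _ : Unit => A) (fun _ => m) k α :=
  mainQ thm_Stb thm_Crl thm_Dim thm_TorA thm_Cnb thm_Ckl (thm_M9o thm_M7o) A m k h α

end WPB
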