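import Pool.Agent.WPB.St
import Pool.Agent.Helper84.AutC
import Pool.Agent.Helper20.Ball.M9a

/-!
# WPB, Cna: the central part of a symmetry is a symmetry, all endomorphisms in `L`
-/

set_option autoImplicit false

namespace WPB

open Module Matrix NumberField Pool.Agent.Helper7 KT2
open Pool.Agent.Ball (rot gAt HG Lorentz Sep emb_ne)
open Pool.Agent.Helper8.D (ent ent_apply ent_act ent_mul)
open PSQ (W Inv BetR DRA)
open BTL (ConfM)

section gram

variable {κ : Type} [Fintype κ] [DecidableEq κ] {ϖ : ℂ} {P : PData κ ϖ} {L : Type} [Field L]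
  [NumberField L] {m : ℕ}

/-- the Gram matrix of two conjugate eigenspaces -/
private noncomputable def Cna_G (F : UF P L m) (σ : L →+* ℂ) : Matrix (Fin m) (Fin m) ℂ :=
  Matrix.of fun a b => P.ψ (F.e (ComplexEmbedding.conjugate σ) a) (F.e σ b)

private theorem Cna_G_inv (F : UF P L m) (σ : L →+* ℂ) :
    ∃ G' : Matrix (Fin m) (Fin m) ℂ, Cna_G F σ * G' = 1 ∧ G' * Cna_G F σ = 1 := by
  classical
  have hu : IsUnit (Cna_G F σ) := by
    rw [← Matrix.mulVec_injective_iff_isUnit]
    intro u v huv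
    have h1 : Cna_G F σ *ᵥ (u - v) = 0 := by
      rw [Matrix.mulVec_sub]
      exact sub_eq_zero.mpr huv
    refine sub_eq_zero.mp ?_
    have h2 : (∑ b, (u - v) b • F.e σ b) = 0 := by
      apply P.hψnd
      intro w
      rw [P.hψalt, neg_eq_zero]
      refine F.ext_e (P.ψ.flip (∑ b, (u - v) b • F.e σ b)) 0 (fun τ a => ?_) w
      show P.ψ (F.e τ a) (∑ b, (u - v) b • F.e σ b) = 0
      rw [map_sum]
      by_cases hτ : τ = ComplexEmbedding.conjugate σ
      · subst hτ
        have h3 : ∑ b, P.ψ (F.e (ComplexEmbedding.conjugate σ) a) (F.e σ b) * (u - v) b = 0 :=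
          congrFun h1 a
        rw [← h3]
        refine Finset.sum_congr rfl fun b _ => ?_
        rw [map_smul, smul_eq_mul, mul_comm]
      · refine Finset.sum_eq_zero fun b _ => ?_
        rw [map_smul, F.psi_e, smul_zero]
        intro h
        apply hτ
        rw [h]
        exact (ComplexEmbedding.involutive_conjugate L τ).symm
    funext b
    have h4 := congrArg (F.co σ b) h2
    rw [map_sum, Finset.sum_eq_single b, map_smul, F.co_e, if_pos ⟨rfl, rfl⟩, smul_eq_mul,
      mul_one, map_zero] at h4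
    · exact h4
    · intro j _ hj
      rw [map_smul, F.co_e, if_neg (fun h => hj h.2.symm), smul_zero]
    · intro h
      exact absurd (Finset.mem_univ _) h
  obtain ⟨u, hu⟩ := hu
  refine ⟨(u⁻¹ : (Matrix (Fin m) (Fin m) ℂ)ˣ), ?_, ?_⟩
  · rw [← hu]
    exact u.mul_inv
  · rw [← hu]
    exact u.inv_mul

/-- the matrices of a symmetry of multiplier zero at two conjugate embeddings -/
private theorem Cna_G_rel (F : UF P L m) {n k : ℕ}
    {α : MultilinearMap ℂ (fun _ : Fin (2 * k) => W κ n) ℂ} {Y : Module.End ℂ (κ → ℂ)}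
    (hY : Inv P n k α Y 0) (σ : L →+* ℂ) :
    (ent F (ComplexEmbedding.conjugate σ) Y)ᵀ * Cna_G F σ + Cna_G F σ * ent F σ Y = 0 := by
  have hc : F.Comm Y := Com_comm F hY
  ext a b
  have h1 := hY.pol () (F.e (ComplexEmbedding.conjugate σ) a) (F.e σ b)
  have h2 : P.ψ (Y (F.e (ComplexEmbedding.conjugate σ) a)) (F.e σ b) +
      P.ψ (F.e (ComplexEmbedding.conjugate σ) a) (Y (F.e σ b)) = 0 := by
    refine h1.trans ?_
    exact zero_mul _
  rw [ent_act F _ Y hc, ent_act F σ Y hc, map_sum, LinearMap.sum_apply, map_sum] at h2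
  rw [Matrix.add_apply, Matrix.mul_apply, Matrix.mul_apply, Matrix.zero_apply, ← h2]
  congr 1
  · refine Finset.sum_congr rfl fun i _ => ?_
    rw [map_smul, LinearMap.smul_apply, smul_eq_mul]
    rfl
  · refine Finset.sum_congr rfl fun i _ => ?_
    rw [map_smul, smul_eq_mul, mul_comm]
    rfl

/-- the matrix at the conjugate embedding is minus the transpose up to conjugation -/
private theorem Cna_conj (F : UF P L m) {n k : ℕ}
    {α : MultilinearMap ℂ (fun _ : Fin (2 * k) => W κ n) ℂ} {Y : Module.End ℂ (κ → ℂ)}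
    (hY : Inv P n k α Y 0) (σ : L →+* ℂ) {G' : Matrix (Fin m) (Fin m) ℂ}
    (h1 : Cna_G F σ * G' = 1) :
    (ent F (ComplexEmbedding.conjugate σ) Y)ᵀ = -(Cna_G F σ * ent F σ Y * G') := by
  have h5 : (ent F (ComplexEmbedding.conjugate σ) Y)ᵀ * Cna_G F σ =
      -(Cna_G F σ * ent F σ Y) := eq_neg_of_add_eq_zero_left (Cna_G_rel F hY σ)
  calc (ent F (ComplexEmbedding.conjugate σ) Y)ᵀ =
        (ent F (ComplexEmbedding.conjugate σ) Y)ᵀ * (Cna_G F σ * G') := by
        rw [h1, Matrix.mul_one]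
    _ = ((ent F (ComplexEmbedding.conjugate σ) Y)ᵀ * Cna_G F σ) * G' := by
        rw [Matrix.mul_assoc]
    _ = _ := by rw [h5, Matrix.neg_mul]

/-- the trace at the conjugate embedding -/
theorem Cna_trace (F : UF P L m) {n k : ℕ}
    {α : MultilinearMap ℂ (fun _ : Fin (2 * k) => W κ n) ℂ} {Y : Module.End ℂ (κ → ℂ)}
    (hY : Inv P n k α Y 0) (σ : L →+* ℂ) :
    (ent F (ComplexEmbedding.conjugate σ) Y).trace = -(ent F σ Y).trace := by
  obtain ⟨G', h1, h2⟩ := Cna_G_inv F σ
  rw [← Matrix.trace_transpose, Cna_conj F hY σ h1, Matrix.trace_neg, Matrix.trace_mul_comm,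
    ← Matrix.mul_assoc, h2, Matrix.one_mul]

/-- scalar matrices at the conjugate embedding -/
theorem Cna_scal (F : UF P L m) {n k : ℕ}
    {α : MultilinearMap ℂ (fun _ : Fin (2 * k) => W κ n) ℂ} {Y : Module.End ℂ (κ → ℂ)}
    (hY : Inv P n k α Y 0) (σ : L →+* ℂ) (a : ℂ)
    (h : ent F σ Y = a • (1 : Matrix (Fin m) (Fin m) ℂ)) :
    ent F (ComplexEmbedding.conjugate σ) Y = (-a) • (1 : Matrix (Fin m) (Fin m) ℂ) := by
  obtain ⟨G', h1, h2⟩ := Cna_G_inv F σ
  have h3 := Cna_conj F hY σ h1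
  rw [h, Matrix.mul_smul, Matrix.mul_one, Matrix.smul_mul, h1] at h3
  have h4 := congrArg Matrix.transpose h3
  rw [Matrix.transpose_transpose, Matrix.transpose_neg, Matrix.transpose_smul,
    Matrix.transpose_one] at h4
  rw [h4, neg_smul]

/-- conformal matrices and automorphisms -/
private theorem Cna_map (τ : ℂ ≃+* ℂ) {U V M : Matrix (Fin m) (Fin m) ℂ} (h : ConfM U V M) :
    ConfM (U.map τ) (V.map τ) (M.map τ) := by
  obtain ⟨c, S, hS, rfl⟩ := h
  refine ⟨τ c, S.map τ, ?_, ?_⟩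
  · ext i j
    have h1 : S j i = -S i j := congrFun (congrFun hS i) j
    show τ (S j i) = -τ (S i j)
    rw [h1, map_neg]
  · ext i j
    rw [Matrix.map_apply, Matrix.add_apply, map_add, Matrix.add_apply, ← Matrix.map_mul,
      ← Matrix.map_mul]
    congr 1
    rw [Matrix.smul_apply, Matrix.smul_apply, smul_eq_mul, smul_eq_mul, map_mul,
      Matrix.one_apply]
    split_ifs
    · rw [map_one]
    · rw [map_zero]

/-- the symmetries of multiplier zero concentrated at `σ` -/
def Cna_Z (n k : ℕ) (α : MultilinearMap ℂ (fun _ : Fin (2 * k) => W κ n) ℂ) (F : UF P L m)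
    (σ : L →+* ℂ) : Submodule ℂ (Module.End ℂ (κ → ℂ)) where
  carrier := {X | Inv P n k α X 0 ∧ ∀ τ, ¬ Ag F τ σ →
    ¬ Ag F τ (ComplexEmbedding.conjugate σ) → ent F τ X = 0}
  zero_mem' := ⟨Com_zero, fun τ _ _ => map_zero _⟩
  add_mem' := by
    rintro X Y ⟨h1, h2⟩ ⟨h3, h4⟩
    refine ⟨?_, fun τ h5 h6 => by rw [map_add, h2 τ h5 h6, h4 τ h5 h6, add_zero]⟩
    have h := Com_add h1 h3
    rwa [add_zero] at h
  smul_mem' := by
    rintro c Y ⟨h1, h2⟩
    refine ⟨?_, fun τ h5 h6 => by rw [map_smul, h2 τ h5 h6, smul_zero]⟩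
    have h := Com_smul c h1
    rwa [mul_zero] at h

theorem Cna_mem (n k : ℕ) (α : MultilinearMap ℂ (fun _ : Fin (2 * k) => W κ n) ℂ) (F : UF P L m)
    (σ : L →+* ℂ) (M : Matrix (Fin m) (Fin m) ℂ) :
    M ∈ zAt n k α F σ ↔ M ∈ (Cna_Z n k α F σ).map (ent F σ) := by
  constructor
  · rintro ⟨X, h1, h2, h3⟩
    exact ⟨X, ⟨h1, h3⟩, h2⟩
  · rintro ⟨X, ⟨h1, h3⟩, h2⟩
    exact ⟨X, h1, h2, h3⟩

/-- skew matrices in adapted coordinates -/
theorem Cna_skew (n k : ℕ) (α : MultilinearMap ℂ (fun _ : Fin (2 * k) => W κ n) ℂ)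
    (F : UF P L m) (σ : L →+* ℂ) (U V S : Matrix (Fin m) (Fin m) ℂ)
    (h : ∀ i j, U * rot i j * V ∈ zAt n k α F σ) (hS : Sᵀ = -S) :
    U * S * V ∈ zAt n k α F σ := by
  rw [Cna_mem, Com_skew S hS, Finset.mul_sum, Finset.sum_mul]
  refine Submodule.sum_mem _ fun i _ => ?_
  rw [Finset.mul_sum, Finset.sum_mul]
  refine Submodule.sum_mem _ fun j _ => ?_
  rw [mul_smul_comm, smul_mul_assoc]
  exact Submodule.smul_mem _ _ ((Cna_mem n k α F σ _).1 (h i j))

/-- the trace of a conformal matrix -/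
theorem Cna_tr (hm : 3 ≤ m) {U V M : Matrix (Fin m) (Fin m) ℂ} (hVU : V * U = 1)
    (h : ConfM U V M) : ∃ S : Matrix (Fin m) (Fin m) ℂ, Sᵀ = -S ∧
      M - (M.trace / m) • (1 : Matrix (Fin m) (Fin m) ℂ) = U * S * V := by
  obtain ⟨c, S, hS, rfl⟩ := h
  refine ⟨S, hS, ?_⟩
  have h0 : S.trace = 0 := by
    have h1 := congrArg Matrix.trace hS
    rw [Matrix.trace_transpose, Matrix.trace_neg] at h1
    linear_combination h1 / 2
  have h1 : (U * S * V).trace = 0 := by
    rw [Matrix.trace_mul_comm, ← Matrix.mul_assoc, hVU, Matrix.one_mul, h0]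
  have hm0 : (m : ℂ) ≠ 0 := by
    have : m ≠ 0 := by omega
    exact_mod_cast this
  rw [Matrix.trace_add, h1, Matrix.trace_smul, Matrix.trace_one, Fintype.card_fin, add_zero,
    smul_eq_mul, mul_div_assoc, div_self hm0, mul_one]
  exact add_sub_cancel_left _ _

end gram

/-- the central part of a symmetry, from the rotations at one place -/
theorem Cna_rot (κ : Type) [Fintype κ] [DecidableEq κ]
    (P : PData κ (2 * Real.pi * Complex.I)) (L : Type) [Field L] [NumberField L] (m : ℕ)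
    (F : UF P L m) (n k : ℕ) (α : MultilinearMap ℂ (fun _ : Fin (2 * k) => W κ n) ℂ) : 3 ≤ m →
    BetR P n k α → ∀ σ₀ : L →+* ℂ,
    (∃ U V : Matrix (Fin m) (Fin m) ℂ, U * V = 1 ∧ V * U = 1 ∧
      ∀ i j, U * rot i j * V ∈ zAt n k α F σ₀) → (∀ x, Zen F x) → Cen F n k α := by
  intro hm hB σ₀ hR hZ
  classical
  have hϖ : (2 * Real.pi * Complex.I : ℂ) ≠ 0 := Complex.two_pi_I_ne_zero
  have hAg : ∀ σ τ : L →+* ℂ, Ag F σ τ → σ = τ := fun σ τ h => RingHom.ext fun x => h x (hZ x)
  obtain ⟨U, V, hUV, hVU, hrot⟩ := hR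
  have hmm : (m : ℂ) ≠ 0 := by
    have : m ≠ 0 := by omega
    exact_mod_cast this
  have key : ∀ X, Inv P n k α X 0 → ∀ σ : L →+* ℂ,
      ent F σ X - ((ent F σ X).trace / m) • (1 : Matrix (Fin m) (Fin m) ℂ) ∈
        zAt n k α F σ := by
    intro X hX σ
    by_cases hcase : ∃ M ∈ sAt n k α F σ₀, ¬ ConfM U V M
    · refine KT2.All.Slc_ κ _ P L m F n k α hm hϖ hB σ₀ U V hUV hVU hrot hcase σ _ ?_
      rw [Matrix.trace_sub, Matrix.trace_smul, Matrix.trace_one, Fintype.card_fin, smul_eq_mul,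
        div_mul_cancel₀ _ hmm, sub_self]
    · push Not at hcase
      obtain ⟨τ, hτ⟩ := Pool.Agent.Helper84.exists_aut σ₀ σ
      have hτ' : ((τ.symm : ℂ ≃+* ℂ) : ℂ →+* ℂ).comp σ = σ₀ := by
        rw [← hτ]
        ext x
        exact τ.symm_apply_apply (σ₀ x)
      have hmap : ∀ M : Matrix (Fin m) (Fin m) ℂ, M.map τ = τ.mapMatrix M := fun _ => rfl
      have h7 : V.map τ * U.map τ = 1 := by
        rw [hmap, hmap, ← map_mul, hVU, map_one]
      have h1 := (KT2.All.Twi_ κ _ P L m F n k α hϖ hB τ.symm σ (ent F σ X)).1 ⟨X, hX, rfl⟩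
      rw [hτ'] at h1
      have h3 := Cna_map τ (hcase _ h1)
      have h4 : ((ent F σ X).map τ.symm).map τ = ent F σ X := by
        ext i j
        exact τ.apply_symm_apply _
      rw [h4] at h3
      obtain ⟨S, hS, hS'⟩ := Cna_tr hm h7 h3
      rw [hS']
      refine Cna_skew n k α F σ _ _ S (fun i j => ?_) hS
      have h := (KT2.All.Twi_ κ _ P L m F n k α hϖ hB τ σ₀ _).2 (hrot i j)
      rw [hτ, hmap, map_mul, map_mul] at h
      have h6 : τ.mapMatrix (rot i j) = rot i j := by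
        unfold rot
        rw [map_sub]
        congr 1
        · ext a b
          show τ (Matrix.single i j (1 : ℂ) a b) = _
          rw [Matrix.single_apply]
          split_ifs <;> simp
        · ext a b
          show τ (Matrix.single j i (1 : ℂ) a b) = _
          rw [Matrix.single_apply]
          split_ifs <;> simp
      rw [h6] at h
      exact h
  intro X hX
  choose Z hZ1 hZ2 hZ3 using fun σ => key X hX σ
  obtain ⟨Y, hYd⟩ : ∃ Y, Y = X - ∑ s : InfinitePlace L, Z s.embedding := ⟨_, rfl⟩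
  have hsum : ∀ T : Finset (InfinitePlace L), Inv P n k α (∑ s ∈ T, Z s.embedding) 0 := by
    intro T
    induction T using Finset.induction_on with
    | empty => rw [Finset.sum_empty]; exact Com_zero
    | insert a T ha ih =>
      rw [Finset.sum_insert ha]
      have h := Com_add (hZ1 a.embedding) ih
      rwa [add_zero] at h
  have hY : Inv P n k α Y 0 := by
    have h := Com_add hX (Com_smul (-1) (hsum Finset.univ))
    rw [mul_zero, add_zero] at h
    have h1 : X - ∑ s : InfinitePlace L, Z s.embedding =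
        X + (-1 : ℂ) • ∑ s : InfinitePlace L, Z s.embedding := by
      refine LinearMap.ext fun v => ?_
      rw [LinearMap.sub_apply, LinearMap.add_apply, LinearMap.smul_apply, neg_smul, one_smul,
        sub_eq_add_neg]
    rw [hYd, h1]
    exact h
  have hent : ∀ s : InfinitePlace L, ent F s.embedding Y =
      ((ent F s.embedding X).trace / m) • (1 : Matrix (Fin m) (Fin m) ℂ) := by
    intro s
    rw [hYd, map_sub, map_sum, Finset.sum_eq_single s]
    · rw [hZ2, sub_sub_cancel]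
    · intro t _ hts
      refine hZ3 t.embedding s.embedding (fun h => ?_) (fun h => ?_)
      · exact (emb_ne (Ne.symm hts)).1 (hAg _ _ h)
      · exact (emb_ne (Ne.symm hts)).2 (hAg _ _ h)
    · intro h
      exact absurd (Finset.mem_univ _) h
  refine ⟨Y, hY, fun σ => ?_⟩
  rcases InfinitePlace.embedding_mk_eq σ with h | h
  · have h1 := hent (InfinitePlace.mk σ)
    rw [h] at h1
    exact h1
  · have h1 := hent (InfinitePlace.mk σ)
    rw [h] at h1
    have h2 := Cna_scal F hY _ _ h1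
    have h3 := Cna_trace F hX (ComplexEmbedding.conjugate σ)
    have hcc : ComplexEmbedding.conjugate (ComplexEmbedding.conjugate σ) = σ :=
      ComplexEmbedding.involutive_conjugate L σ
    rw [hcc] at h2 h3
    rw [h2, h3, neg_div]

theorem thm_Cna : St_Cna := by
  intro κ _ _ P L _ _ m F n k α hm hB hA σ₀ hL _ hZ hsep
  have hAr : ∀ σ : L →+* ℂ, Ag F σ σ := fun σ x _ => rfl
  refine Cna_rot κ P L m F n k α hm hB σ₀ ?_ hZ
  exact KT2.All.Rot_ κ P L m F n k α hm hB hA σ₀ hL
    (fun τ h1 h2 => hsep τ (fun h => h1 (by rw [h]; exact hAr _))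
      (fun h => h2 (by rw [h]; exact hAr _)))

end WPB
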