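import Pool.Agent.WPB.St
import Pool.Agent.Helper84.AutC

/-!
# WPB, module Dsc: descent
-/

set_option autoImplicit false

namespace WPB

open Module Matrix NumberField

private theorem Dsc_pow (k : ℕ) : 2 ^ k * (k + 2) ≤ 2 * 3 ^ k := by
  induction k with
  | zero => norm_num
  | succ k ih =>
    have h1 : 2 ^ k ≤ 3 ^ k := Nat.pow_le_pow_left (by norm_num) k
    rw [pow_succ, pow_succ]
    nlinarith

/-- **DSC.** -/
theorem thm_Dsc : St_Dsc := by
  classical
  intro Z _ _ n d c q s₀ hn hd hcj hne hq1 hq2 hq3 hsum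
  have hq : ∀ s, ∃ e : ℤ, s ≠ s₀ → s ≠ ComplexEmbedding.conjugate s₀ →
      (q s : ℤ) = (d : ℤ) * n * e := by
    intro s
    by_cases h1 : s = s₀
    · exact ⟨0, fun h => absurd h1 h⟩
    · by_cases h2 : s = ComplexEmbedding.conjugate s₀
      · exact ⟨0, fun _ h => absurd h2 h⟩
      · rcases hq3 s h1 h2 with h | h
        · exact ⟨0, fun _ _ => by rw [h]; simp⟩
        · exact ⟨1, fun _ _ => by rw [h]; push_cast; ring⟩
  choose e he using hq
  have key : ∀ τ : ℂ ≃+* ℂ, 2 * c ((τ : ℂ →+* ℂ).comp s₀) =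
      (n : ℤ) * (c ((τ : ℂ →+* ℂ).comp s₀) -
        ∑ s ∈ (Finset.univ.erase s₀).erase (ComplexEmbedding.conjugate s₀),
          c ((τ : ℂ →+* ℂ).comp s) * e s) := by
    intro τ
    have h1 := hsum τ
    rw [← Finset.add_sum_erase _ _ (Finset.mem_univ s₀), ← Finset.add_sum_erase _ _
      (Finset.mem_erase.2 ⟨hne, Finset.mem_univ (ComplexEmbedding.conjugate s₀)⟩), hcj, hq1,
      hq2] at h1
    have h2 : ∑ s ∈ (Finset.univ.erase s₀).erase (ComplexEmbedding.conjugate s₀),
        c ((τ : ℂ →+* ℂ).comp s) * (q s : ℤ) = (d : ℤ) * n *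
        ∑ s ∈ (Finset.univ.erase s₀).erase (ComplexEmbedding.conjugate s₀),
          c ((τ : ℂ →+* ℂ).comp s) * e s := by
      rw [Finset.mul_sum]
      refine Finset.sum_congr rfl fun s hs => ?_
      rw [Finset.mem_erase, Finset.mem_erase] at hs
      rw [he s hs.2.1 hs.1]
      ring
    rw [h2] at h1
    have h3 : ((d * (n - 1) : ℕ) : ℤ) = (d : ℤ) * ((n : ℤ) - 1) := by
      rw [Nat.cast_mul, Nat.cast_sub (by omega), Nat.cast_one]
    rw [h3] at h1
    have hd0 : (d : ℤ) ≠ 0 := by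
      have : d ≠ 0 := by omega
      exact_mod_cast this
    apply mul_left_cancel₀ hd0
    linear_combination h1
  have hdvd : ∀ k : ℕ, ∀ s, (n : ℤ) ^ k ∣ 2 ^ k * c s := by
    intro k
    induction k with
    | zero =>
      intro s
      simp
    | succ k ih =>
      intro s
      obtain ⟨τ, hτ⟩ := Pool.Agent.Helper84.exists_aut s₀ s
      have h1 := key τ
      rw [hτ] at h1
      have h2 : (2 : ℤ) ^ (k + 1) * c s = (n : ℤ) * (2 ^ k * c s -
          ∑ s' ∈ (Finset.univ.erase s₀).erase (ComplexEmbedding.conjugate s₀),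
            2 ^ k * c ((τ : ℂ →+* ℂ).comp s') * e s') := by
        have h3 : ∑ s' ∈ (Finset.univ.erase s₀).erase (ComplexEmbedding.conjugate s₀),
            2 ^ k * c ((τ : ℂ →+* ℂ).comp s') * e s' = 2 ^ k *
            ∑ s' ∈ (Finset.univ.erase s₀).erase (ComplexEmbedding.conjugate s₀),
            c ((τ : ℂ →+* ℂ).comp s') * e s' := by
          rw [Finset.mul_sum]
          exact Finset.sum_congr rfl fun s' _ => by ring
        rw [h3, pow_succ]
        linear_combination (2 : ℤ) ^ k * h1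
      rw [h2, pow_succ, mul_comm ((n : ℤ) ^ k)]
      refine mul_dvd_mul_left _ (dvd_sub (ih s) (Finset.dvd_sum fun s' _ => ?_))
      exact Dvd.dvd.mul_right (ih _) _
  intro s
  by_contra hs
  have h1 := hdvd (2 * (c s).natAbs) s
  have h2 := Int.natAbs_dvd_natAbs.2 h1
  rw [Int.natAbs_pow, Int.natAbs_mul, Int.natAbs_pow, Int.natAbs_natCast] at h2
  have h3 : (2 : ℤ).natAbs = 2 := rfl
  rw [h3] at h2
  have hpos : 0 < (c s).natAbs := Int.natAbs_pos.2 hs
  have h4 := Nat.le_of_dvd (by positivity) h2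
  have h5 : 3 ^ (2 * (c s).natAbs) ≤ n ^ (2 * (c s).natAbs) := Nat.pow_le_pow_left hn _
  have h6 := Dsc_pow (2 * (c s).natAbs)
  have h7 : 0 < 2 ^ (2 * (c s).natAbs) := by positivity
  nlinarith

end WPB
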