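import Pool.Agent.WPB.St
import Pool.Agent.Helper84.AutC

/-!
# WPB: descent for the multiplicities `r` and `n - r`
-/

set_option autoImplicit false

namespace WPB

open Module Matrix NumberField

private theorem DscQ_pow (a k : ℕ) : a ^ k * (k + a) ≤ a * (a + 1) ^ k := by
  induction k with
  | zero => simp
  | succ k ih =>
    have h1 : a ^ (k + 1) * (k + 1 + a) ≤ a ^ k * (k + a) * (a + 1) := by
      have h2 : a ^ k * (k + a) * (a + 1) = a ^ (k + 1) * (k + 1 + a) + a ^ k * k := by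
        rw [pow_succ]
        ring
      omega
    refine h1.trans ?_
    calc a ^ k * (k + a) * (a + 1) ≤ a * (a + 1) ^ k * (a + 1) := Nat.mul_le_mul_right _ ih
      _ = a * (a + 1) ^ (k + 1) := by rw [pow_succ]; ring

/-- Descent. -/
theorem DscQ (Z : Type) [Field Z] [NumberField Z] (n d r : ℕ) (c : (Z →+* ℂ) → ℤ)
    (q : (Z →+* ℂ) → ℕ) (s₀ : Z →+* ℂ) (hr : 1 ≤ r) (hn : 2 * r + 1 ≤ n) (hd : 1 ≤ d)
    (hcj : ∀ τ : ℂ ≃+* ℂ, c ((τ : ℂ →+* ℂ).comp (ComplexEmbedding.conjugate s₀)) =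
      - c ((τ : ℂ →+* ℂ).comp s₀))
    (hne : ComplexEmbedding.conjugate s₀ ≠ s₀)
    (hq1 : q s₀ = d * r) (hq2 : q (ComplexEmbedding.conjugate s₀) = d * (n - r))
    (hq3 : ∀ s, s ≠ s₀ → s ≠ ComplexEmbedding.conjugate s₀ → q s = 0 ∨ q s = d * n)
    (hsum : ∀ τ : ℂ ≃+* ℂ, ∑ s, c ((τ : ℂ →+* ℂ).comp s) * (q s : ℤ) = 0) (s : Z →+* ℂ) :
    c s = 0 := by
  classical
  have hq : ∀ s, ∃ e : ℤ, s ≠ s₀ → s ≠ ComplexEmbedding.conjugate s₀ →
      (q s : ℤ) = (d : ℤ) * n * e := by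
    intro s
    by_cases h1 : s = s₀
    · exact ⟨0, fun h => absurd h1 h⟩
    · by_cases h2 : s = ComplexEmbedding.conjugate s₀
      · exact ⟨0, fun _ h => absurd h2 h⟩
      · rcases hq3 s h1 h2 with h | h
        · exact ⟨0, fun _ _ => by rw [h]; simp⟩
        · exact ⟨1, fun _ _ => by rw [h]; push_cast; ring⟩
  choose e he using hq
  have key : ∀ τ : ℂ ≃+* ℂ, (2 * r : ℤ) * c ((τ : ℂ →+* ℂ).comp s₀) =
      (n : ℤ) * (c ((τ : ℂ →+* ℂ).comp s₀) -
        ∑ s ∈ (Finset.univ.erase s₀).erase (ComplexEmbedding.conjugate s₀),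
          c ((τ : ℂ →+* ℂ).comp s) * e s) := by
    intro τ
    have h1 := hsum τ
    rw [← Finset.add_sum_erase _ _ (Finset.mem_univ s₀), ← Finset.add_sum_erase _ _
      (Finset.mem_erase.2 ⟨hne, Finset.mem_univ (ComplexEmbedding.conjugate s₀)⟩), hcj, hq1,
      hq2] at h1
    have h2 : ∑ s ∈ (Finset.univ.erase s₀).erase (ComplexEmbedding.conjugate s₀),
        c ((τ : ℂ →+* ℂ).comp s) * (q s : ℤ) = (d : ℤ) * n *
        ∑ s ∈ (Finset.univ.erase s₀).erase (ComplexEmbedding.conjugate s₀),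
          c ((τ : ℂ →+* ℂ).comp s) * e s := by
      rw [Finset.mul_sum]
      refine Finset.sum_congr rfl fun s hs => ?_
      rw [Finset.mem_erase, Finset.mem_erase] at hs
      rw [he s hs.2.1 hs.1]
      ring
    rw [h2] at h1
    have h3 : ((d * (n - r) : ℕ) : ℤ) = (d : ℤ) * ((n : ℤ) - r) := by
      rw [Nat.cast_mul, Nat.cast_sub (by omega)]
    rw [h3] at h1
    have hd0 : (d : ℤ) ≠ 0 := by
      have : d ≠ 0 := by omega
      exact_mod_cast this
    apply mul_left_cancel₀ hd0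
    push_cast at h1
    linear_combination h1
  have hdvd : ∀ k : ℕ, ∀ s, (n : ℤ) ^ k ∣ (2 * r : ℤ) ^ k * c s := by
    intro k
    induction k with
    | zero =>
      intro s
      simp
    | succ k ih =>
      intro s
      obtain ⟨τ, hτ⟩ := Pool.Agent.Helper84.exists_aut s₀ s
      have h1 := key τ
      rw [hτ] at h1
      have h2 : (2 * r : ℤ) ^ (k + 1) * c s = (n : ℤ) * ((2 * r : ℤ) ^ k * c s -
          ∑ s' ∈ (Finset.univ.erase s₀).erase (ComplexEmbedding.conjugate s₀),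
            (2 * r : ℤ) ^ k * c ((τ : ℂ →+* ℂ).comp s') * e s') := by
        have h3 : ∑ s' ∈ (Finset.univ.erase s₀).erase (ComplexEmbedding.conjugate s₀),
            (2 * r : ℤ) ^ k * c ((τ : ℂ →+* ℂ).comp s') * e s' = (2 * r : ℤ) ^ k *
            ∑ s' ∈ (Finset.univ.erase s₀).erase (ComplexEmbedding.conjugate s₀),
            c ((τ : ℂ →+* ℂ).comp s') * e s' := by
          rw [Finset.mul_sum]
          exact Finset.sum_congr rfl fun s' _ => by ring
        rw [h3, pow_succ]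
        linear_combination (2 * r : ℤ) ^ k * h1
      rw [h2, pow_succ, mul_comm ((n : ℤ) ^ k)]
      refine mul_dvd_mul_left _ (dvd_sub (ih s) (Finset.dvd_sum fun s' _ => ?_))
      exact Dvd.dvd.mul_right (ih _) _
  by_contra hs
  have hpos : 0 < (c s).natAbs := Int.natAbs_pos.2 hs
  obtain ⟨a, ha⟩ : ∃ a, a = 2 * r := ⟨_, rfl⟩
  obtain ⟨k, hk⟩ : ∃ k, k = a * (c s).natAbs := ⟨_, rfl⟩
  have h1 := hdvd k s
  have h2 := Int.natAbs_dvd_natAbs.2 h1
  rw [Int.natAbs_pow, Int.natAbs_mul, Int.natAbs_pow, Int.natAbs_natCast] at h2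
  have h3 : (2 * r : ℤ).natAbs = a := by
    rw [ha, ← Int.natAbs_natCast (2 * r)]
    push_cast
    rfl
  rw [h3] at h2
  have ha0 : 0 < a := by omega
  have h4 : n ^ k ≤ a ^ k * (c s).natAbs := Nat.le_of_dvd (Nat.mul_pos (pow_pos ha0 k) hpos) h2
  have h5 : (a + 1) ^ k ≤ n ^ k := Nat.pow_le_pow_left (by omega) _
  have h6 := DscQ_pow a k
  have h7 : a ^ k * (k + a) = a * (a ^ k * (c s).natAbs) + a * a ^ k := by
    rw [hk]
    ring
  rw [h7] at h6
  have h8 : a * (a + 1) ^ k ≤ a * (a ^ k * (c s).natAbs) :=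
    Nat.mul_le_mul_left _ (h5.trans h4)
  have h9 : 0 < a * a ^ k := Nat.mul_pos ha0 (pow_pos ha0 k)
  omega

end WPB
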