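import Pool.Agent.WPB.St
import Pool.Agent.Helper8.B.Final2
import Pool.Agent.Helper8.B.Main2
import Pool.Agent.Helper7.AFT.Prod31
import Pool.Agent.PSQ.Bridge

/-!
# WPB, Fia: commutative endomorphism algebra, odd rank
-/

set_option autoImplicit false

namespace WPB

open Module Matrix NumberField Pool.Agent.Helper7 KT2
open Pool.Agent.GPC (AbVar Form IsGrothendieck IsDivisorial)
open Pool.Agent.Helper71.AF Pool.Agent.Helper39.AF
open Pool.Agent.Ball (rot gAt hf HG Lorentz Sep Definite indef_of_not_pure hf_conj_place HasRot)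
open Pool.Agent.Helper83.Ball (conj_conj' HG_herm definite_of_pure lorentz_of_one)
open PSQ (W Inv BetR DRA)
open scoped ComplexConjugate

/-- all elements of `K` are central if all endomorphisms are in `K` -/
private lemma Fia_cen (A : AbVar) (K : Type) [Field K] [NumberField K] [IsCMField K] (n : ℕ)
    (ρ : K → A.H1 → A.H1) (C : A.IsMultCen K n ρ)
    (hall : ∀ f, A.IsEnd f → ∃ x, ∀ v, f v = ρ x v) (x : K) :
    ∀ f, A.IsEnd f → ∀ v, f (ρ x v) = ρ x (f v) := by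
  intro f hf v
  obtain ⟨y, hy⟩ := hall f hf
  rw [hy, hy, ← C.mul, ← C.mul, mul_comm]

/-- separation -/
private lemma Fia_sep (A : AbVar) (K : Type) [Field K] [NumberField K] [IsCMField K] (n : ℕ)
    (ρ : K → A.H1 → A.H1) (F : UF (pData A) K n) (hF : ∀ x v, F.ρ x v = ρ x v)
    (hcen : ∀ x, ∀ f, A.IsEnd f → ∀ v, f (ρ x v) = ρ x (f v)) (σ₁ : K →+* ℂ)
    (hs : ∀ σ : K →+* ℂ, ¬ A.AgreeCen ρ σ σ₁ →
      ¬ A.AgreeCen ρ σ (ComplexEmbedding.conjugate σ₁) →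
      ∃ g : ℂ ≃+* ℂ, ¬ A.IsPureAt ρ ((g : ℂ →+* ℂ).comp σ₁) ∧
        A.IsPureAt ρ ((g : ℂ →+* ℂ).comp σ)) (τ : K →+* ℂ)
    (h1 : τ ≠ ComplexEmbedding.conjugate σ₁)
    (h2 : τ ≠ ComplexEmbedding.conjugate (ComplexEmbedding.conjugate σ₁)) :
    Sep (fun _ : Unit => pData A) () F (ComplexEmbedding.conjugate σ₁) τ := by
  have hag : ∀ σ τ : K →+* ℂ, A.AgreeCen ρ σ τ → σ = τ := fun σ τ h =>
    RingHom.ext fun x => h x (hcen x)
  rw [conj_conj'] at h2
  obtain ⟨g, h3, h4⟩ := hs τ (fun h => h2 (hag _ _ h)) fun h => h1 (hag _ _ h)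
  obtain ⟨⟨v, hv⟩, ⟨w, hw⟩⟩ := indef_of_not_pure F ρ hF _ h3
  have h5 : (g : ℂ →+* ℂ).comp (ComplexEmbedding.conjugate σ₁) =
      ComplexEmbedding.conjugate ((g : ℂ →+* ℂ).comp σ₁) :=
    Pool.Agent.Ball.comp_conj (fun _ : Unit => pData A) () g σ₁ F
  refine ⟨g, HG_herm F _, ⟨fun a => conj (w a), ?_⟩, ⟨fun a => conj (v a), ?_⟩,
    definite_of_pure F ρ hF _ h4⟩
  · rw [h5, hf_conj_place]
    linarith
  · rw [h5, hf_conj_place]
    linarith

theorem thm_Fia (hM9o : St_M9o) (hCna : St_Cna) (hZer : St_Zer) : St_Fia := by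
  classical
  rintro A k ⟨K, _, _, _, n, ρ, hGal, hab, C, hn, hodd, hall⟩ α
  refine ⟨fun hα => ?_, Pool.Agent.Helper7.isGrothendieck_of_isDivisorial _ _ k α⟩
  obtain ⟨F, hF⟩ := KT2.Fra_uf A K n ρ C.1
  obtain ⟨σ₁, hs1, hs2⟩ := C.1.signature
  have hcen := Fia_cen A K n ρ C.1 hall
  have hzen : ∀ x, Zen F x := fun x => (KT2.Fra_zen A K n ρ F hF x).mpr (hcen x)
  have hL := lorentz_of_one F ρ hF σ₁ (hs1 σ₁ fun _ _ => rfl)
  have hc : ∀ σ : K →+* ℂ, ComplexEmbedding.conjugate σ ≠ σ := fun σ h =>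
    IsTotallyComplex.complexEmbedding_not_isReal σ (ComplexEmbedding.isReal_iff.mpr h)
  have hsep := Fia_sep A K n ρ F hF hcen σ₁ hs2
  obtain ⟨hα1, hα2⟩ := hα
  have hB : BetR (pData A) 1 k (α : MultilinearMap ℂ (fun _ : Fin (2 * k) => W _ 1) ℂ) := by
    intro v hv
    apply hα2
    intro r i m
    exact (mem_pData_Q _ _).mp (hv r i m)
  have hD : DRA 1 k (α : MultilinearMap ℂ
      (fun _ : Fin (2 * k) => W (Fin A.g ⊕ Fin A.g) 1) ℂ) :=
    fun v hv => hα1 v fun r i m j => hv r i m j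
  have hrot : ∀ σ : K →+* ℂ, HasRot (pData A) F α σ :=
    Pool.Agent.Ball.all_rot2 (pData A) F α hn _ hL hsep (fun v hv => hB v hv)
      (fun v hv => hD v hv)
  have hCen := hCna _ (pData A) K n F 1 k _ hn hB hD _ hL hc hzen hsep
  refine isDivisorial_of_span (fun _ : Unit => A) (fun _ => 1) k α ?_
  exact hM9o _ _ (pData A) K n F k α Complex.two_pi_I_ne_zero hc hB hD hrot hodd
    (fun w hw s => hZer A K n ρ K (RingHom.id K) F 1 k _ hGal hab
      (fun x => ⟨fun _ => ⟨x, rfl⟩, fun _ => hcen x⟩) C hn hF hB hD hCen w hw s)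

end WPB
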