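import Pool.Agent.WPB.St
import Pool.Agent.Helper7.AFT.Prod31
import Pool.Agent.PSQ.Bridge

/-!
# WPB, Fib: no anti-automorphism
-/

set_option autoImplicit false

namespace WPB

open Module Matrix NumberField Pool.Agent.Helper7 KT2
open Pool.Agent.GPC (AbVar Form IsGrothendieck IsDivisorial)
open Pool.Agent.Ball (rot gAt HG Lorentz Sep)
open PSQ (W Inv BetR DRA)

theorem thm_Fib (hAbb : St_Abb) (hZer : St_Zer) : St_Fib := by
  classical
  rintro A m k ⟨K, _, _, _, n, ρ, Z, _, _, _, j, hGal, hab, hcen, C, hn, hNA⟩ α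
  refine ⟨fun hα => ?_, Pool.Agent.Helper7.isGrothendieck_of_isDivisorial _ _ k α⟩
  obtain ⟨F, σ₀, hF, hNF, hL, -, hsep⟩ := KT2.thm_Fra A K n ρ C.1 hn hNA
  obtain ⟨hα1, hα2⟩ := hα
  have hB : BetR (pData A) m k (α : MultilinearMap ℂ (fun _ : Fin (2 * k) => W _ m) ℂ) := by
    intro v hv
    apply hα2
    intro r i m
    exact (mem_pData_Q _ _).mp (hv r i m)
  have hD : DRA m k (α : MultilinearMap ℂ
      (fun _ : Fin (2 * k) => W (Fin A.g ⊕ Fin A.g) m) ℂ) :=
    fun v hv => hα1 v fun r i m j => hv r i m j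
  refine isDivisorial_of_span (fun _ : Unit => A) (fun _ => m) k α ?_
  refine hAbb _ (pData A) K n F m k α Z j hn hNF hB hD σ₀ hL hsep (fun x => ?_)
    (fun hCen w hw s => hZer A K n ρ Z j F m k _ hGal hab hcen C hn hF hB hD hCen w hw s)
  exact (KT2.Fra_zen A K n ρ F hF x).trans (hcen x)

end WPB
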