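import Pool.Agent.Helper64.BQ.Types

/-!
Abelian varieties with multiplication by a CM field of signature `(n - q, q)` over one place of the
centre: ball type, `q = 1`, and prime rank.
-/

namespace Pool.Agent.GPC

/-- The CM field `K` acts on `H_1(A)` by `ρ` through endomorphisms of `A` (tensor `ℚ`), the
dimension of `H_1(A, ℚ)` over `K` is `n`, the Rosati involution is complex conjugation on `K`, and
every endomorphism of `A` (tensor `ℚ`) which commutes with `K` is in `K`. For some embedding `σ₀` the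
multiplicities in `Lie A` of `σ` and of its complex conjugate are `q` and `n - q` (in this order or
in the other one, the same for all `σ`), for all embeddings `σ` of `K` which agree with `σ₀` on the
centre of `End(A) ⊗ ℚ`. The embedding `σ₀` is separated from every embedding `σ` which does not
agree on the centre with `σ₀` or its complex conjugate: for some automorphism `g` of `ℂ` the
multiplicity of `g σ₀` in `Lie A` is neither `0` nor `n`, and the multiplicity of `g σ` is `0` or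
`n`. -/
structure AbVar.IsMultAt (A : AbVar) (K : Type) [Field K] [NumberField K]
    [NumberField.IsCMField K] (n q : ℕ) (ρ : K → A.H1 → A.H1) : Prop where
  one : ∀ v, ρ 1 v = v
  mul : ∀ x y v, ρ (x * y) v = ρ x (ρ y v)
  add : ∀ x y v, ρ (x + y) v = ρ x v + ρ y v
  rank : n * Module.finrank ℚ K = 2 * A.g
  endo : ∀ x, A.IsEnd (ρ x)
  rosati : ∀ x, A.IsAdjoint (ρ x) (ρ (cmConj K x))
  centralizer : ∀ f, A.IsEnd f → (∀ x v, f (ρ x v) = ρ x (f v)) → ∃ x, ∀ v, f v = ρ x v
  signature : ∃ σ₀ : K →+* ℂ,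
    (∀ σ : K →+* ℂ, A.AgreeCen ρ σ σ₀ → Module.finrank ℂ (A.eigenFil ρ σ) = q) ∧
    ∀ σ : K →+* ℂ, ¬ A.AgreeCen ρ σ σ₀ →
      ¬ A.AgreeCen ρ σ (NumberField.ComplexEmbedding.conjugate σ₀) →
      ∃ g : ℂ ≃+* ℂ, ¬ A.IsPureAt ρ ((g : ℂ →+* ℂ).comp σ₀) ∧
        A.IsPureAt ρ ((g : ℂ →+* ℂ).comp σ)

/-- The multiplicities in `Lie A` are `q` and `n - q` at the embeddings of `K` which agree with some
`σ₀` on the centre of `End(A) ⊗ ℚ`, and `0` or `n` at the embeddings which do not agree on the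
centre with `σ₀` or its complex conjugate. -/
def AbVar.IsStrictAt (A : AbVar) (K : Type) [Field K] [NumberField K] (q : ℕ)
    (ρ : K → A.H1 → A.H1) : Prop :=
  ∃ σ₀ : K →+* ℂ,
    (∀ σ : K →+* ℂ, A.AgreeCen ρ σ σ₀ → Module.finrank ℂ (A.eigenFil ρ σ) = q) ∧
    ∀ σ : K →+* ℂ, ¬ A.AgreeCen ρ σ σ₀ →
      ¬ A.AgreeCen ρ σ (NumberField.ComplexEmbedding.conjugate σ₀) → A.IsPureAt ρ σ

/-- The centre of `End(A) ⊗ ℚ`, contained in the CM field `K`, is a CM field `Z`, Galois over `ℚ`
with abelian group. -/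
def AbVar.IsCentreAb (A : AbVar) (K : Type) [Field K] [NumberField K]
    (ρ : K → A.H1 → A.H1) : Prop :=
  ∃ (Z : Type) (_ : Field Z) (_ : NumberField Z) (_ : NumberField.IsCMField Z) (j : Z →+* K),
    IsGalois ℚ Z ∧ (∀ g h : Z ≃ₐ[ℚ] Z, g * h = h * g) ∧
      ∀ x, (∀ f, A.IsEnd f → ∀ v, f (ρ x v) = ρ x (f v)) ↔ ∃ z, j z = x

/-- The CM field `K`, `n = 2 dim A / [K : ℚ]`, acts as in `IsMultAt`, where `q = 1` and `n ≥ 3`, or
`n` is a prime number and `1 ≤ q ≤ (n - 3) / 2`. Moreover every endomorphism (tensor `ℚ`) is in `K`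
and `m = 1`, or `End(A) ⊗ ℚ` has no anti-automorphism which is the identity on the centre. Moreover
`k < d` or `k > m dim A - d` for `d = n` (`n` odd), `d = n / 2` (`n` even), or the signature is
`(n - q, q)` over one place of the centre and definite at the other ones, the centre is abelian over
`ℚ`, and `n` is odd or there is no anti-automorphism. -/
def AbVar.IsUnitaryRange (A : AbVar) (m k : ℕ) : Prop :=
  ∃ (K : Type) (_ : Field K) (_ : NumberField K) (_ : NumberField.IsCMField K) (n q : ℕ)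
    (ρ : K → A.H1 → A.H1), A.IsMultAt K n q ρ ∧
      ((q = 1 ∧ 3 ≤ n) ∨ (n.Prime ∧ 1 ≤ q ∧ 2 * q + 3 ≤ n)) ∧
      ((m = 1 ∧ ∀ f, A.IsEnd f → ∃ x, ∀ v, f v = ρ x v) ∨ A.NoAnti) ∧
      (2 * k < (if Even n then n else 2 * n) ∨
        2 * (m * A.g) < 2 * k + (if Even n then n else 2 * n) ∨
        A.IsStrictAt K q ρ ∧ A.IsCentreAb K ρ ∧ (Odd n ∨ A.NoAnti))

end Pool.Agent.GPC
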