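import Pool.Agent.Helper7.UN.Types
import Pool.Agent.WPB.TypesQ

/-!
Abelian varieties all of whose Grothendieck classes are divisorial: the union of the cases.
-/

namespace Pool.Agent.GPC

/-- The cases of the theorem for `A^m` in degree `2k`: `m = 1`, `A` of prime dimension
(`IsPrimeType`); `A` of prime square dimension (`IsPrimeSquareType`); `A` simple of signature
`(dim A - 1, 1)` for an imaginary quadratic field `ℚ(J)` (`IsPicardType`), and `m = 1`, or `dim A`
even and `End(A) ⊗ ℚ = ℚ(J)`; a CM field of signature `(n - q, q)` over one place of the centre, `m`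
and `k` as in `IsUnitaryRange`. -/
def AbVar.IsDivisorCase (A : AbVar) (m k : ℕ) : Prop :=
  (m = 1 ∧ A.IsPrimeType) ∨ A.IsPrimeSquareType ∨
    (∃ (d : ℚ) (J : A.H1 → A.H1), A.IsPicardType d J ∧ (m = 1 ∨ (Even A.g ∧
      ∀ f, A.IsEnd f → ∃ a b : ℚ, ∀ v, f v = (a : ℂ) • v + (b : ℂ) • J v))) ∨
    A.IsUnitaryRange m k

end Pool.Agent.GPC
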