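import Pool.Agent.WPB.All
import Pool.Agent.WPB.Types3

/-!
# WPB: the union of the cases
-/

set_option autoImplicit false

namespace WPB

open Pool.Agent.GPC

theorem final (A : AbVar) (m k : ℕ) (h : A.IsDivisorCase m k)
    (α : Form (fun _ : Unit => A) (fun _ => m) (2 * k)) :
    IsGrothendieck (fun _ : Unit => A) (fun _ => m) k α ↔
      IsDivisorial (fun _ : Unit => A) (fun _ => m) k α := by
  rcases h with h | h | h | h
  · exact Pool.Agent.Helper7.UN.main KT2.All.Fin_ KT2.All.Fid_ A m k (Or.inl h) α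
  · exact Pool.Agent.Helper7.UN.main KT2.All.Fin_ KT2.All.Fid_ A m k (Or.inr (Or.inl h)) α
  · exact Pool.Agent.Helper7.UN.main KT2.All.Fin_ KT2.All.Fid_ A m k
      (Or.inr (Or.inr (Or.inr (Or.inr h)))) α
  · exact unitary A m k h α

end WPB
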