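import Pool.Agent.Helper64.BQ.Types

/-!
Abelian varieties of ball type whose centre is abelian over the rational numbers.
-/

namespace Pool.Agent.GPC

/-- The CM field `K` acts as in `IsMultCen`, the multiplicities are `1` and `n - 1` at the embeddings
which agree with `σ₀` on the centre of `End(A) ⊗ ℚ`, and `0` or `n` at the embeddings which do not
agree on the centre with `σ₀` or its complex conjugate. -/
def AbVar.IsStrictBall (A : AbVar) (K : Type) [Field K] [NumberField K]
    [NumberField.IsCMField K] (n : ℕ) (ρ : K → A.H1 → A.H1) : Prop :=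
  A.IsMultCen K n ρ ∧ ∃ σ₀ : K →+* ℂ,
    (∀ σ : K →+* ℂ, A.AgreeCen ρ σ σ₀ → Module.finrank ℂ (A.eigenFil ρ σ) = 1) ∧
    ∀ σ : K →+* ℂ, ¬ A.AgreeCen ρ σ σ₀ →
      ¬ A.AgreeCen ρ σ (NumberField.ComplexEmbedding.conjugate σ₀) → A.IsPureAt ρ σ

/-- Every endomorphism (tensor `ℚ`) is in the CM field `K`, which is a Galois extension of `ℚ` with
abelian group, the signature is `(n - 1, 1)` at one place and definite at the other places, and
`n ≥ 3` is odd. -/
def AbVar.IsBallCommAb (A : AbVar) : Prop :=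
  ∃ (K : Type) (_ : Field K) (_ : NumberField K) (_ : NumberField.IsCMField K) (n : ℕ)
    (ρ : K → A.H1 → A.H1), IsGalois ℚ K ∧ (∀ g h : K ≃ₐ[ℚ] K, g * h = h * g) ∧
      A.IsStrictBall K n ρ ∧ 3 ≤ n ∧ Odd n ∧ ∀ f, A.IsEnd f → ∃ x, ∀ v, f v = ρ x v

/-- The signature of the CM field `K` is `(n - 1, 1)` at the embeddings over one place of the centre
of `End(A) ⊗ ℚ` and definite at the others, `n ≥ 3`, `End(A) ⊗ ℚ` has no anti-automorphism which is
the identity on the centre, and the centre is a CM field `Z`, Galois over `ℚ` with abelian group. -/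
def AbVar.IsBallNoAntiAb (A : AbVar) : Prop :=
  ∃ (K : Type) (_ : Field K) (_ : NumberField K) (_ : NumberField.IsCMField K) (n : ℕ)
    (ρ : K → A.H1 → A.H1) (Z : Type) (_ : Field Z) (_ : NumberField Z)
    (_ : NumberField.IsCMField Z) (j : Z →+* K), IsGalois ℚ Z ∧
      (∀ g h : Z ≃ₐ[ℚ] Z, g * h = h * g) ∧
      (∀ x, (∀ f, A.IsEnd f → ∀ v, f (ρ x v) = ρ x (f v)) ↔ ∃ z, j z = x) ∧
      A.IsStrictBall K n ρ ∧ 3 ≤ n ∧ A.NoAnti

end Pool.Agent.GPC
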