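import Pool.Agent.KT2.All
import Pool.Agent.WPB.Types

/-!
# WPB: ball type, all degrees, centre abelian over the rational numbers (statements)

Every module `Pool/Agent/WPB/<X>.lean` imports this file and proves `theorem thm_<X> : St_<X>` (with
the hypotheses named in its docstring), namespace `WPB`, own lemmas with names starting with the
name of the module. The docstrings contain the proofs. `α` is a Grothendieck class on `A^n`, `L` the
CM field which is its own centralizer, `F` its frame, `j : Z → L` the centre.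
-/

set_option autoImplicit false

namespace WPB

open Module Matrix NumberField Pool.Agent.Helper7 KT2
open Pool.Agent.GPC (AbVar Form IsGrothendieck IsDivisorial)
open Pool.Agent.Ball (rot gAt HG Lorentz Sep)
open Pool.Agent.Helper8.D (ent)
open PSQ (W Inv BetR DRA)

section defs

variable {κ : Type} [Fintype κ] [DecidableEq κ] {ϖ : ℂ} {P : PData κ ϖ} {L : Type} [Field L]
  [NumberField L] {m : ℕ}

/-- The word `w` occurs in `α`: `α` does not vanish on the product of the eigenspaces of the `w r`. -/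
def Occ (F : UF P L m) (n k : ℕ) (α : MultilinearMap ℂ (fun _ : Fin (2 * k) => W κ n) ℂ)
    (w : Fin (2 * k) → (L →+* ℂ)) : Prop :=
  ∃ v : Fin (2 * k) → W κ n, (∀ r i, proj F.ρ (w r) (v r () i) = v r () i) ∧ α v ≠ 0

/-- The weight of the word `w` at the embedding `s` of the centre. -/
noncomputable def wt {L Z : Type} [Field L] [Field Z] (j : Z →+* L) {N : ℕ}
    (w : Fin N → (L →+* ℂ)) (s : Z →+* ℂ) : ℤ :=
  open Classical in
  ((Finset.univ.filter fun r => (w r).comp j = s).card : ℤ) -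
    (Finset.univ.filter fun r => (w r).comp j = ComplexEmbedding.conjugate s).card

/-- The central part of every symmetry is a symmetry. -/
def Cen (F : UF P L m) (n k : ℕ) (α : MultilinearMap ℂ (fun _ : Fin (2 * k) => W κ n) ℂ) : Prop :=
  ∀ X, Inv P n k α X 0 → ∃ Y, Inv P n k α Y 0 ∧ ∀ σ : L →+* ℂ,
    ent F σ Y = ((ent F σ X).trace / m) • (1 : Matrix (Fin m) (Fin m) ℂ)

end defs

/-! ## Part A. General -/

/-- **STB.**  The set of the words which occur is stable under automorphisms.  PROOF.  `α` is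
multilinear, so it does not vanish on some family `v r = Pi.single () (Pi.single (i r) (F.e (w r) (a r)))`
(the eigenspace of `σ` is spanned by the `F.e σ a`, `F.hsum`, `F.proj_e`).  `F.e σ a = proj F.ρ σ (F.lam a)`
with `F.lam a ∈ P.Q`, so the coordinates of `F.e (τ σ) a` in the basis `P.bB` are the images under `τ` of
those of `F.e σ a` (as `Pool.Agent.Helper28.GPC.entry_tw`; `proj` is `∑ b, σ (dbas L b) • F.ρ (bas L b)`, and
`F.ρ x` maps `P.Q` to `P.Q`).  Expand `α` multilinearly in the basis `P.bB`: `BetR` gives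
`α (v^τ) = ϖ ^ k * τ (α v / ϖ ^ k) ≠ 0`. -/
def St_Stb : Prop := ∀ (κ : Type) [Fintype κ] [DecidableEq κ] (ϖ : ℂ) (P : PData κ ϖ)
  (L : Type) [Field L] [NumberField L] (m : ℕ) (F : UF P L m) (n k : ℕ)
  (α : MultilinearMap ℂ (fun _ : Fin (2 * k) => W κ n) ℂ), ϖ ≠ 0 → BetR P n k α →
  ∀ (w : Fin (2 * k) → (L →+* ℂ)) (τ : ℂ ≃+* ℂ), Occ F n k α w →
    Occ F n k α fun r => (τ : ℂ →+* ℂ).comp (w r)

/-- **CRL.**  The central relation.  PROOF.  Let `X = P.N D - (D ϖ / ϖ / 2) • 1`, a symmetry of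
multiplier zero (`isInv_N`, see `KT2.Qua_inv_N` in `KT2/Qua.lean`), `Y` as in `Cen` for `X`,
`a σ = trace (ent F σ X) / m` (`1 ≤ m`).  (1) `Y` acts on the eigenspace of `σ` by `a σ` (`ent_act`), and `Y`
kills `α`, so `∑ r, a (w r) = 0` if `w` occurs.  (2) `a σ = a σ'` if `σ.comp j = σ'.comp j` (`KT2.Itw_`: the
matrices are conjugate; `Ag F σ σ'` because the central elements are the `j z`), and
`a (conj σ) = - a σ` (`P.ψ (X u) v + P.ψ u (X v) = 0`, and `P.ψ` pairs the eigenspaces of `σ` and `conj σ`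
perfectly, as in `KT2/Frm.lean`).  (3) `proj (F.ρ.comp j) s = ∑ σ with σ.comp j = s, proj F.ρ σ` (both
are the projector on the eigenspace of `s` along the others), so
`trace (P.N D * proj (F.ρ.comp j) s) = ∑ σ over s, (m * a σ + (D ϖ / ϖ / 2) * m)`, the number of the `σ`
over `s` is `finrank ℚ L / finrank ℚ Z` for every `s` (it does not depend on `s`: use an automorphism of
`ℂ`, `Pool.Agent.Helper84.exists_aut`).  (4) `∑ s, wt j w s * b s` for a function with `b (conj s) = b s` is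
zero (`wt` is odd), and for the odd function `a` it is `2 * ∑ r, a (w r) = 0`. -/
def St_Crl : Prop := ∀ (κ : Type) [Fintype κ] [DecidableEq κ] (ϖ : ℂ) (P : PData κ ϖ)
  (L : Type) [Field L] [NumberField L] (m : ℕ) (F : UF P L m) (n k : ℕ)
  (α : MultilinearMap ℂ (fun _ : Fin (2 * k) => W κ n) ℂ) (Z : Type) [Field Z] [NumberField Z]
  (j : Z →+* L), 1 ≤ m → ϖ ≠ 0 → BetR P n k α → DRA n k α → (∀ x, Zen F x ↔ ∃ z, j z = x) →
  Cen F n k α → ∀ w, Occ F n k α w → ∀ D : Derivation ℚ ℂ ℂ,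
    ∑ s : Z →+* ℂ, (wt j w s : ℂ) *
      LinearMap.trace ℂ (κ → ℂ) (P.N D * proj (F.ρ.comp j) s) = 0

/-- **DSC.**  Descent.  PROOF.  Suppose `c ≠ 0`, let `g > 0` be the gcd of the values of `c` and `c = g c'`.
The hypothesis for `c'` divided by `d`: `c' (τ s₀) + (n - 1) c' (conj (τ s₀)) + n (integer) = 0` (conjugation
and `τ`: `c' ((τ).comp (conj s₀)) = - c' (τ s₀)`: this is `hcj`), so `n` divides `2 c' (τ s₀)` for all `τ`, i.e.
`2 c' s` for all `s` (`Pool.Agent.Helper84.exists_aut`).  So `n` divides `2`. -/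
def St_Dsc : Prop := ∀ (Z : Type) [Field Z] [NumberField Z] (n d : ℕ) (c : (Z →+* ℂ) → ℤ)
  (q : (Z →+* ℂ) → ℕ) (s₀ : Z →+* ℂ), 3 ≤ n → 1 ≤ d →
  (∀ τ : ℂ ≃+* ℂ, c ((τ : ℂ →+* ℂ).comp (ComplexEmbedding.conjugate s₀)) =
    - c ((τ : ℂ →+* ℂ).comp s₀)) →
  ComplexEmbedding.conjugate s₀ ≠ s₀ →
  q s₀ = d → q (ComplexEmbedding.conjugate s₀) = d * (n - 1) →
  (∀ s, s ≠ s₀ → s ≠ ComplexEmbedding.conjugate s₀ → q s = 0 ∨ q s = d * n) →
  (∀ τ : ℂ ≃+* ℂ, ∑ s, c ((τ : ℂ →+* ℂ).comp s) * (q s : ℤ) = 0) → ∀ s, c s = 0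

/-- **CKL.**  If all weights are zero, the centre kills `α`.  PROOF.  Let `R = F.ρ.comp j` and
`Y = proj R s - proj R (conj s)`.  `comm`: `Y` is a linear combination of the `F.ρ (j z)`, which commute with
every `f` such that `IsDRB P P f` (`j z` is central).  `pol`: `F.hros` and `F.hcc` give
`P.ψ (proj R s u) v = P.ψ u (proj R (conj s) v)` (`F.cc (j z)` is in the image of `j`: it is central since
`F.ρ (F.cc x)` is the adjoint of `F.ρ x`, see `KT2/Bra.lean`; or: `proj R s` is the sum of the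
`proj F.ρ σ`, `σ.comp j = s`, and `P.ψ (proj F.ρ σ u) v = P.ψ u (proj F.ρ (conj σ) v)`, and
`(conj σ).comp j = conj (σ.comp j)`).  `form`: `α` and `actForm (lift Y) α` are multilinear, every vector is
the sum of its `proj F.ρ σ`; on vectors with `proj F.ρ (w r) (v r) = v r` the value of
`actForm (lift Y) α` is `wt j w s * α v` (if `s` is the restriction of a `w r`, otherwise zero), which is
zero: if `α v ≠ 0` then `w` occurs. -/
def St_Ckl : Prop := ∀ (κ : Type) [Fintype κ] [DecidableEq κ] (ϖ : ℂ) (P : PData κ ϖ)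
  (L : Type) [Field L] [NumberField L] (m : ℕ) (F : UF P L m) (n k : ℕ)
  (α : MultilinearMap ℂ (fun _ : Fin (2 * k) => W κ n) ℂ) (Z : Type) [Field Z] [NumberField Z]
  (j : Z →+* L), (∀ x, Zen F x ↔ ∃ z, j z = x) → (∀ w, Occ F n k α w → ∀ s, wt j w s = 0) →
  ∀ s : Z →+* ℂ, ComplexEmbedding.conjugate s ≠ s →
  Inv P n k α (proj (F.ρ.comp j) s - proj (F.ρ.comp j) (ComplexEmbedding.conjugate s)) 0

/-- **TORA** (from WPP, owner helper99).  The torus theorem for one CM field, Galois over `ℚ` with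
abelian group, acting on an abelian variety. -/
def St_TorA : Prop := ∀ (A : AbVar) (Z : Type) [Field Z] [NumberField Z] [IsCMField Z],
  IsGalois ℚ Z → (∀ g h : Z ≃ₐ[ℚ] Z, g * h = h * g) → ∀ R : Z →+* Module.End ℂ A.H1,
  (∀ x, A.IsEnd (R x)) → (∀ x, A.IsAdjoint (R x) (R (Pool.Agent.GPC.cmConj Z x))) →
  ∀ c : (Z →+* ℂ) → ℤ, (∀ s, c (ComplexEmbedding.conjugate s) = - c s) →
  (∀ (τ : ℂ ≃+* ℂ) (D : Derivation ℚ ℂ ℂ), ∑ s, (c ((τ : ℂ →+* ℂ).comp s) : ℂ) *
    LinearMap.trace ℂ (Fin A.g ⊕ Fin A.g → ℂ) ((pData A).N D * proj R s) = 0) →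
  ∑ s, c s * (finrank ℂ (A.eigenFil (fun x v => R x v) s) : ℤ) = 0

/-- **DIM.**  The dimension `d σ` of `A.eigenFil` at `σ` depends only on the restriction of `σ` to the
centre.  PROOF.  Let `R` be the set of the `τ'` with `d τ' = d σ`.  If `f` is an endomorphism and
`F.co τ'' a (f (F.e τ' b)) ≠ 0` for some `a, b`, then `d τ' = d τ''`: by `KT2.Itw_inv` (with `α = 0`, `k = 0`) the
part of `f` from the eigenspace of `τ'` to that of `τ''` is bijective, and `f` and the projectors (complex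
combinations of endomorphisms) preserve `F^0`, so `d τ' ≤ d τ''`; the adjoint `g` of `f` (`P.ψ (g u) v =
P.ψ u (f v)`, an endomorphism) has a non zero part from `τ''` to `τ'`: the part of `f` from `conj τ'` to
`conj τ''` is not zero (complex conjugation of the coordinates in the basis `P.bB`, as
`Pool.Agent.Helper28.GPC.entry_tw`), and `P.ψ` pairs the eigenspaces of `τ''` and `conj τ''`; so `d τ'' ≤ d τ'`.
So `p = ∑ τ' ∈ R, proj F.ρ τ'` commutes with all endomorphisms, and steps (2), (3) of the proof of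
`KT2.thm_Itw` (KT2/Itw.lean, with this `R`; copy them) give `τ ∈ R`. -/
def St_Dim : Prop := ∀ (A : AbVar) (K : Type) [Field K] [NumberField K] (n : ℕ)
  (F : UF (pData A) K n) (σ τ : K →+* ℂ), Ag F σ τ →
  finrank ℂ (A.eigenFil (fun x v => F.ρ x v) σ) = finrank ℂ (A.eigenFil (fun x v => F.ρ x v) τ)

/-- **ZER** (from `St_Stb`, `St_Crl`, `St_Dsc`, `St_Dim`, `St_TorA`).  All weights are zero.  PROOF.  Let `w`
occur and `c = wt j w`.  `wt j (τ w) (τ s) = wt j w s` and `τ (conj s) = conj (τ s)` on `Z` (CM field), so `c` is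
odd, and `τ` applied to the word (`St_Stb`, `St_Crl`) gives the hypothesis of `St_TorA` for `c` and also for
`c ∘ τ`: so `∑ s, c (τ s) q s = 0` for all `τ`, `q s` the dimension of `A.eigenFil` at `s`.  `q s` is the sum of
the dimensions of the `A.eigenFil ρ σ`, `σ.comp j = s` (`proj_fil`; as in `KT2/Tor.lean`), their number is
`d = finrank ℚ K / finrank ℚ Z`; `AgreeCen` is equality of the restrictions to `Z`; at `conj σ₀` the
dimension is `n - 1` (`A.eigenFil ρ σ` and `A.eigenFil ρ (conj σ)` have dimensions with sum `n`, as in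
`lorentz_of_one`, `KT2/Tor.lean`); pure places have dimension `0` or `n`, the same for all `σ` over `s`
(`St_Dim`).  `St_Dsc`. -/
def St_Zer : Prop := ∀ (A : AbVar) (K : Type) [Field K] [NumberField K] [IsCMField K] (n : ℕ)
  (ρ : K → A.H1 → A.H1) (Z : Type) [Field Z] [NumberField Z] [IsCMField Z] (j : Z →+* K)
  (F : UF (pData A) K n) (N k : ℕ)
  (α : MultilinearMap ℂ (fun _ : Fin (2 * k) => W (Fin A.g ⊕ Fin A.g) N) ℂ),
  IsGalois ℚ Z → (∀ g h : Z ≃ₐ[ℚ] Z, g * h = h * g) →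
  (∀ x, (∀ f, A.IsEnd f → ∀ v, f (ρ x v) = ρ x (f v)) ↔ ∃ z, j z = x) →
  A.IsStrictBall K n ρ → 3 ≤ n → (∀ x v, F.ρ x v = ρ x v) →
  BetR (pData A) N k α → DRA N k α → Cen F N k α →
  ∀ w, Occ F N k α w → ∀ s, wt j w s = 0

/-! ## Part B. No anti-automorphism -/

/-- **CNB.**  The central part, `sl` case.  PROOF.  `Frame.act` for `X` gives matrices `y s`; by
`KT2.Fam_sl` (KT2/Fam.lean) there is a symmetry `X'` of multiplier zero with the matrices
`y s - (trace (y s) / m) • 1`; `Y = X - X'` acts on `e (true, t, i)` by `trace (y (pl t)) / m` and on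
`e (false, t, i)` by minus this number (`Frame.act` for `X'`, the matrices are determined by the action
on the `e (true, ..)`).  The eigenspace of `τ t` is spanned by the `e (true, t, i)`, that of
`conj (τ t)` by the `e (false, t, i)` (`ht`, `hf`), and these are all embeddings (dimension: the `e` are a
basis), so `ent F σ Y` is the scalar, and the trace of `ent F σ X` is `trace (y (pl t))` or its negative. -/
def St_Cnb : Prop := ∀ (κ : Type) [Fintype κ] [DecidableEq κ] (ϖ : ℂ) (P : PData κ ϖ)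
  (L : Type) [Field L] [NumberField L] (m : ℕ) (F : UF P L m) (n k : ℕ)
  (α : MultilinearMap ℂ (fun _ : Fin (2 * k) => W κ n) ℂ) (T S : Type) [Fintype T]
  [DecidableEq T] [Fintype S] [DecidableEq S] (pl : T → S) (τ : T → (L →+* ℂ))
  (e : Basis (Bool × T × Fin m) ℂ (κ → ℂ)), 1 ≤ m → ϖ ≠ 0 → Frame n k α pl e P →
  (∀ t j x, F.ρ x (e (true, t, j)) = τ t x • e (true, t, j)) →
  (∀ t j x, F.ρ x (e (false, t, j)) = ComplexEmbedding.conjugate (τ t) x • e (false, t, j)) →
  Cen F n k α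

/-- **ABB** (from `St_Cnb`, `St_Ckl`).  PROOF.  As `KT2.thm_Abs` up to `hFrm` (KT2/Abs.lean; use
`KT2.Rot_`, `KT2.Bra_`, `KT2.Slc_`, `KT2.Cxc_`, `KT2.Frm_`); `St_Cnb` gives `Cen`, so the hypothesis `hw` gives
weights zero, and `St_Ckl` for `s = (τ t).comp j`, `pl t` the given place, is the second alternative of
`KT2.Fam_` (`proj (F.ρ.comp j) s` acts on the eigenspace of `σ` by 1 if `σ.comp j = s` and by 0 otherwise,
`pl t = pl t' ↔ Ag F (τ t) (τ t')`, `Ag` is equality of the restrictions along `j`, and `τ t` never agrees with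
`conj (τ t')`).  Then `PSQ.descent`. -/
def St_Abb : Prop := ∀ (κ : Type) [Fintype κ] [DecidableEq κ]
  (P : PData κ (2 * Real.pi * Complex.I)) (L : Type) [Field L] [NumberField L] (m : ℕ)
  (F : UF P L m) (n k : ℕ) (α : (W κ n) [⋀^Fin (2 * k)]→ₗ[ℂ] ℂ) (Z : Type) [Field Z]
  [NumberField Z] (j : Z →+* L), 3 ≤ m → KT2.NoAnti F →
  BetR P n k (α : MultilinearMap ℂ (fun _ : Fin (2 * k) => W κ n) ℂ) →
  DRA n k (α : MultilinearMap ℂ (fun _ : Fin (2 * k) => W κ n) ℂ) → ∀ σ₀ : L →+* ℂ,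
  Lorentz (HG F σ₀) → (∀ τ, ¬ Ag F τ σ₀ → ¬ Ag F τ (ComplexEmbedding.conjugate σ₀) →
    Sep (fun _ : Unit => P) () F σ₀ τ) →
  (∀ x, Zen F x ↔ ∃ z, j z = x) →
  (Cen F n k (α : MultilinearMap ℂ (fun _ : Fin (2 * k) => W κ n) ℂ) →
    ∀ w, Occ F n k (α : MultilinearMap ℂ (fun _ : Fin (2 * k) => W κ n) ℂ) w →
      ∀ s, wt j w s = 0) →
  α ∈ Submodule.span ℚ {ω | ∃ γ : Fin k → (W κ n →ₗ[ℂ] W κ n →ₗ[ℂ] ℂ),
    (∀ a, γ a ∈ GW (fun _ : Unit => n) (fun _ => P)) ∧ ω = wedge γ}

/-- **FIB** (from `St_Abb`, `St_Zer`).  PROOF.  As `KT2.thm_Fin` (KT2/Fin.lean) with `KT2.Fra_`;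
`Zen F x` is the condition on `x` in `IsBallNoAntiAb` (`IsDRB (pData A) (pData A) f` is `A.IsEnd f`,
`isDRB_of_isEnd`, `isEnd_of_isDRB`, see `KT2.Fra_zen`). -/
def St_Fib : Prop := ∀ (A : AbVar) (m k : ℕ), A.IsBallNoAntiAb →
  ∀ α : Form (fun _ : Unit => A) (fun _ => m) (2 * k),
  IsGrothendieck (fun _ : Unit => A) (fun _ => m) k α ↔
    IsDivisorial (fun _ : Unit => A) (fun _ => m) k α

/-! ## Part C. Commutative endomorphism algebra, odd rank -/

/-- **CNA.**  The central part, all endomorphisms in `L`.  PROOF.  All elements of `L` are central, so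
`Ag F σ τ ↔ σ = τ`, and `KT2.Rot_` gives `U, V` at `σ₀`; by `KT2.Twi_` and `exists_aut` there are `U_σ, V_σ` at every
`σ` with the rotations `U_σ * rot i l * V_σ ∈ zAt n k α F σ`.  (1) Some matrix in `sAt σ₀` is not conformal:
then `KT2.Slc_` gives all matrices of trace zero in `zAt σ` for all `σ`.  (2) All matrices in `sAt σ₀`, hence
(`KT2.Twi_`, as in `KT2/Kan.lean`) in `sAt σ` for all `σ`, are conformal: `ent F σ X = U_σ (a • 1 + S) V_σ`, `S`
skew, a sum of rotations (`KT2.Com_skew`), `a = trace (ent F σ X) / m` (`3 ≤ m`).  In both cases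
`ent F σ X - (trace (ent F σ X) / m) • 1 ∈ zAt n k α F σ` for every `σ`.  Choose one `σ` from every pair of
complex conjugate embeddings and subtract the corresponding symmetries from `X`: the difference has
the scalar matrices at the chosen `σ`, and also at the conjugate ones (polarization: `ent F (conj σ) X` is
minus the transpose of `ent F σ X`, conjugated by the Gram matrix, KT2/Kan.lean); `conj σ ≠ σ` by `hc`. -/
def St_Cna : Prop := ∀ (κ : Type) [Fintype κ] [DecidableEq κ]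
  (P : PData κ (2 * Real.pi * Complex.I)) (L : Type) [Field L] [NumberField L] (m : ℕ)
  (F : UF P L m) (n k : ℕ) (α : MultilinearMap ℂ (fun _ : Fin (2 * k) => W κ n) ℂ), 3 ≤ m →
  BetR P n k α → DRA n k α → ∀ σ₀ : L →+* ℂ, Lorentz (HG F σ₀) →
  (∀ σ : L →+* ℂ, ComplexEmbedding.conjugate σ ≠ σ) → (∀ x, Zen F x) →
  (∀ τ, τ ≠ σ₀ → τ ≠ ComplexEmbedding.conjugate σ₀ → Sep (fun _ : Unit => P) () F σ₀ τ) →
  Cen F n k α

/-- **M7O.**  Exterior invariants of a product of orthogonal groups of odd degree and weights zero.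
PROOF.  As `Pool.Agent.Ball.M7` (Helper12/Ball/M7.lean), with `M7.count` replaced by: if `α` does not
vanish on the monomial `s` and the place `q` has a site of odd occupancy, then (parity step of the proof
of `M7`) all sites `(q, i)` have odd occupancy, so the number of the `r` with `s r = (q, _, true)` plus
the number of those with `s r = (q, _, false)` is `m`, odd; but the two numbers are equal by `hw`. -/
def St_M7o : Prop := ∀ (Φ W : Type) [Fintype Φ] [DecidableEq Φ] [AddCommGroup W] [Module ℂ W]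
  (m k : ℕ) (b : Basis (Φ × Fin m × Bool) ℂ W) (R : Φ → Fin m → Fin m → Module.End ℂ W),
  (∀ s i j, i ≠ j → ∀ (t : Φ) (l : Fin m) (ε : Bool), R s i j (b (t, l, ε)) =
    if t = s ∧ l = i then - b (s, j, ε) else if t = s ∧ l = j then b (s, i, ε) else 0) →
  ∀ α : W [⋀^Fin (2 * k)]→ₗ[ℂ] ℂ,
  (∀ s i j, i ≠ j → ∀ v : Fin (2 * k) → W,
    ∑ r, α (Function.update v r (R s i j (v r))) = 0) → Odd m →
  (∀ s : Fin (2 * k) → Φ × Fin m × Bool, α (fun r => b (s r)) ≠ 0 → ∀ q : Φ,
    (Finset.univ.filter fun r => (s r).1 = q ∧ (s r).2.2 = false).card =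
      (Finset.univ.filter fun r => (s r).1 = q ∧ (s r).2.2 = true).card) →
  α ∈ Submodule.span ℂ {ω | ∃ f : Fin k → Φ, ω = wedge (fun a => Pool.Agent.Ball.beta b (f a))}

/-- **M9O** (from `St_M7o`).  PROOF.  As `Pool.Agent.Ball.M9a` (Helper20/Ball/M9a.lean) with `St_M7o` for
`M7`: if `α` does not vanish on the vectors `b (s r)`, then the word `w r`, which is `(s r).1.embedding` if
`(s r).2.2 = false` and its conjugate otherwise, occurs, and `hw` for it at `q.embedding` is the equality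
of the two numbers. -/
def St_M9o : Prop := ∀ (κ : Type) [Fintype κ] [DecidableEq κ] (ϖ : ℂ) (P : PData κ ϖ)
  (L : Type) [Field L] [NumberField L] (m : ℕ) (F : UF P L m) (k : ℕ)
  (α : (W κ 1) [⋀^Fin (2 * k)]→ₗ[ℂ] ℂ), ϖ ≠ 0 →
  (∀ σ : L →+* ℂ, ComplexEmbedding.conjugate σ ≠ σ) →
  BetR P 1 k (α : MultilinearMap ℂ (fun _ : Fin (2 * k) => W κ 1) ℂ) →
  DRA 1 k (α : MultilinearMap ℂ (fun _ : Fin (2 * k) => W κ 1) ℂ) →
  (∀ σ : L →+* ℂ, Pool.Agent.Ball.HasRot P F α σ) → Odd m →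
  (∀ w, Occ F 1 k (α : MultilinearMap ℂ (fun _ : Fin (2 * k) => W κ 1) ℂ) w →
    ∀ s, wt (RingHom.id L) w s = 0) →
  α ∈ Submodule.span ℚ {ω | ∃ γ : Fin k → (W κ 1 →ₗ[ℂ] W κ 1 →ₗ[ℂ] ℂ),
    (∀ a, γ a ∈ GW (fun _ : Unit => 1) (fun _ => P)) ∧ ω = wedge γ}

/-- **FIA** (from `St_M9o`, `St_Cna`, `St_Zer`).  PROOF.  As `Pool.Agent.Ball.main_ball2`
(Helper8/B/Main2.lean) and `KT2.thm_Fra`: `KT2.Fra_uf` gives `F`; `lorentz_of_one`, the separation from
`IsMultCen` (or from `IsStrictBall` with `g = 1`), `Pool.Agent.Ball.all_rot2` gives the rotations, `St_Cna` gives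
`Cen`, `St_Zer` with `Z = K`, `j = RingHom.id K` (all elements of `K` are central) gives weights zero, `St_M9o`,
and then `isDivisorial_of_span`, `isGrothendieck_of_isDivisorial` as in `KT2.thm_Fin`. -/
def St_Fia : Prop := ∀ (A : AbVar) (k : ℕ), A.IsBallCommAb →
  ∀ α : Form (fun _ : Unit => A) (fun _ => 1) (2 * k),
  IsGrothendieck (fun _ : Unit => A) (fun _ => 1) k α ↔
    IsDivisorial (fun _ : Unit => A) (fun _ => 1) k α

end WPB
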