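import Pool.Agent.Helper7.UN.Types
import Pool.Agent.WPB.Types

/-!
Abelian varieties all of whose Grothendieck classes are divisorial: the union of the cases, with the
abelian varieties of ball type whose centre is abelian over the rational numbers.
-/

namespace Pool.Agent.GPC

/-- `A` is of prime dimension, of prime square dimension or of ball type, `m` and `k` as in
`IsDivisorRange`, or of ball type with the centre of `End(A) ⊗ ℚ` abelian over `ℚ`, in all degrees:
`m = 1`, `End(A) ⊗ ℚ = K` and `n` odd (`IsBallCommAb`), or no anti-automorphism over the centre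
(`IsBallNoAntiAb`). -/
def AbVar.IsDivisorRangeAb (A : AbVar) (m k : ℕ) : Prop :=
  A.IsDivisorRange m k ∨ (m = 1 ∧ A.IsBallCommAb) ∨ A.IsBallNoAntiAb

end Pool.Agent.GPC
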