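import Pool.Agent.Helper7.UN.Main
import Pool.Agent.WPB.St
import Pool.Agent.WPB.Types2

/-!
# WPB: the union of the cases
-/

namespace WPB

open Pool.Agent.GPC

theorem main (hT : KT2.St_FinT) (hD : KT2.St_FinD) (hFia : St_Fia) (hFib : St_Fib) (A : AbVar)
    (m k : ℕ) (h : A.IsDivisorRangeAb m k) (α : Form (fun _ : Unit => A) (fun _ => m) (2 * k)) :
    IsGrothendieck (fun _ : Unit => A) (fun _ => m) k α ↔
      IsDivisorial (fun _ : Unit => A) (fun _ => m) k α := by
  rcases h with h | ⟨rfl, h⟩ | h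
  · exact Pool.Agent.Helper7.UN.main hT hD A m k h α
  · exact hFia A k h α
  · exact hFib A m k h α

end WPB
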