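import Pool.Agent.WPB.St
import Pool.Agent.WPB.DscQ
import Pool.Agent.KT2.Fra
import Pool.Agent.KT2.Tor
import Pool.Agent.Helper8.P.AV

/-!
# WPB: all weights are zero
-/

set_option autoImplicit false

namespace WPB

open scoped ComplexConjugate
open Module Matrix NumberField Pool.Agent.GPC Pool.Agent.Helper7 KT2
open Pool.Agent.Helper39.AF Pool.Agent.Helper71.AF
open Pool.Agent.Ball (posPart finrank_posPart vec_add vec_smul HG hf)
open Pool.Agent.Helper83.Ball (vec conj_conj' cB_vec hf_HG vec_eq_zero proj_vec exists_vec rho_vec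
  isEnd_rho hf_nondeg decomp proj_of_eigen)
open PSQ (W Inv BetR DRA)

section dims

variable {A : AbVar} {K : Type} [Field K] [NumberField K] {m : ℕ} (F : UF (pData A) K m)

/-- the vectors of an eigenspace -/
private noncomputable def Zer_vec (σ : K →+* ℂ) : (Fin m → ℂ) →ₗ[ℂ] A.H1 where
  toFun := vec F σ
  map_add' := vec_add F σ
  map_smul' := vec_smul F σ

private lemma Zer_vec_apply (σ : K →+* ℂ) (v : Fin m → ℂ) : Zer_vec F σ v = vec F σ v := rfl

/-- the pairing of the eigenspaces of `σ` and its conjugate -/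
private noncomputable def Zer_pair (σ : K →+* ℂ) : (Fin m → ℂ) →ₗ[ℂ] Module.Dual ℂ (Fin m → ℂ) :=
  (pData A).ψ.compl₁₂ (Zer_vec F σ) (Zer_vec F (ComplexEmbedding.conjugate σ))

private lemma Zer_pair_apply (σ : K →+* ℂ) (v w : Fin m → ℂ) : Zer_pair F σ v w =
    (pData A).ψ (vec F σ v) (vec F (ComplexEmbedding.conjugate σ) w) := rfl

private lemma Zer_pair_inj (σ : K →+* ℂ) : Function.Injective (Zer_pair F σ) := by
  rw [injective_iff_map_eq_zero]
  intro v hv
  apply hf_nondeg F σ v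
  intro u
  rw [hf_HG, cB_vec, (pData A).hψalt, ← Zer_pair_apply, hv, LinearMap.zero_apply, neg_zero]

/-- the dimensions of the Hodge filtration at `σ` and its conjugate -/
private theorem Zer_add (σ : K →+* ℂ) : finrank ℂ (posPart F σ) +
    finrank ℂ (posPart F (ComplexEmbedding.conjugate σ)) = m := by
  have h1 : (posPart F σ).map (Zer_pair F σ) =
      (posPart F (ComplexEmbedding.conjugate σ)).dualAnnihilator := by
    apply le_antisymm
    · rintro _ ⟨v, hv, rfl⟩
      rw [Submodule.mem_dualAnnihilator]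
      intro w hw
      exact fil_isotropic A hv hw
    · intro φ hφ
      have hb : Function.Surjective (Zer_pair F σ) := by
        refine (LinearMap.injective_iff_surjective_of_finrank_eq_finrank ?_).mp (Zer_pair_inj F σ)
        exact Subspace.dual_finrank_eq.symm
      obtain ⟨v, rfl⟩ := hb φ
      refine ⟨v, ?_, rfl⟩
      obtain ⟨u, u', hu, hu', hp, hp', huu⟩ := decomp F σ v
      obtain ⟨w, hw⟩ := exists_vec F _ u' hp'
      rw [Submodule.mem_dualAnnihilator] at hφ
      have h2 := hφ w (by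
        show A.IsFil (vec F _ w)
        rw [← hw]
        exact hu')
      rw [Zer_pair_apply, ← hw, huu, map_add, LinearMap.add_apply, fil_isotropic A hu hu',
        zero_add] at h2
      have h3 : u' = 0 := by
        by_contra hne
        obtain ⟨r, hr, h4⟩ := sign_fil A hu' hne
        rw [(pData A).hψalt, h4, neg_neg] at h2
        exact hr.ne' (by exact_mod_cast h2)
      show A.IsFil (vec F σ v)
      rw [huu, h3, cB_zero, add_zero]
      exact hu
  have h2 := Subspace.finrank_add_finrank_dualAnnihilator_eq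
    (posPart F (ComplexEmbedding.conjugate σ))
  rw [← h1, ← (Submodule.equivMapOfInjective _ (Zer_pair_inj F σ) (posPart F σ)).finrank_eq,
    finrank_fintype_fun_eq_card, Fintype.card_fin] at h2
  omega

/-- the dimension of the Hodge filtration at `σ` -/
private noncomputable def Zer_d (σ : K →+* ℂ) : ℕ :=
  finrank ℂ (A.eigenFil (fun x v => F.ρ x v) σ)

private theorem Zer_d_add (σ : K →+* ℂ) :
    Zer_d F σ + Zer_d F (ComplexEmbedding.conjugate σ) = m := by
  unfold Zer_d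
  rw [← finrank_posPart F _ (fun _ _ => rfl), ← finrank_posPart F _ (fun _ _ => rfl)]
  exact Zer_add F σ

/-- pure places -/
private theorem Zer_pure (σ : K →+* ℂ) (h : A.IsPureAt (fun x v => F.ρ x v) σ) :
    Zer_d F σ = 0 ∨ Zer_d F σ = m := by
  unfold Zer_d
  rw [← finrank_posPart F _ (fun _ _ => rfl)]
  rcases h with h | h
  · right
    have h1 : posPart F σ = ⊤ := by
      rw [eq_top_iff]
      intro v _
      exact h _ fun x => rho_vec F σ v x
    rw [h1, finrank_top, finrank_fintype_fun_eq_card, Fintype.card_fin]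
  · left
    have h1 : posPart F σ = ⊥ := by
      rw [eq_bot_iff]
      intro v hv
      rw [Submodule.mem_bot]
      exact vec_eq_zero F σ v (h _ (fun x => rho_vec F σ v x) hv)
    rw [h1, finrank_bot]

variable {Z : Type} [Field Z] [NumberField Z] (j : Z →+* K)

omit [NumberField Z] in
private lemma Zer_mem (s : Z →+* ℂ) (v : A.H1) :
    v ∈ A.eigenFil (fun x v => (F.ρ.comp j) x v) s ↔
      (∀ x, F.ρ (j x) v = s x • v) ∧ A.IsFil v := by
  constructor
  · intro h
    unfold AbVar.eigenFil at h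
    induction h using Submodule.span_induction with
    | mem v hv => exact hv
    | zero => exact ⟨fun x => by rw [map_zero, smul_zero], fun _ => rfl⟩
    | add u v _ _ hu hv => exact ⟨fun x => by
        rw [map_add, hu.1, hv.1, smul_add], fun a => by
        rw [Pi.add_apply, hu.2 a, hv.2 a, add_zero]⟩
    | smul c v _ hv => exact ⟨fun x => by
        rw [map_smul, hv.1, smul_comm], fun a => by
        rw [Pi.smul_apply, hv.2 a, smul_zero]⟩
  · intro h
    exact Submodule.subset_span h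

omit [NumberField Z] in
open Classical in
private theorem Zer_gen (s : Z →+* ℂ) (E : Submodule ℂ A.H1) (G : (K →+* ℂ) → Submodule ℂ A.H1)
    (hmem : ∀ v, v ∈ E ↔ (∀ x, F.ρ (j x) v = s x • v) ∧ A.IsFil v)
    (hmemE : ∀ τ v, v ∈ G τ ↔ (∀ y, F.ρ y v = τ y • v) ∧ A.IsFil v) :
    finrank ℂ E = ∑ σ : {σ : K →+* ℂ // σ.comp j = s}, finrank ℂ (G σ.1) := by
  have hρE : ∀ y, A.IsEnd (F.ρ y) := fun y => isEnd_of_isDRB A _ (F.hρ y)
  have hpe : ∀ (τ : K →+* ℂ) (v : A.H1) (y : K),
      F.ρ y (proj F.ρ τ v) = τ y • proj F.ρ τ v := fun τ v y =>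
    congrArg (fun f : Module.End ℂ A.H1 => f v) (rho_mul_proj F.ρ y τ)
  have hpm : ∀ (τ : K →+* ℂ) (v : A.H1), A.IsFil v → proj F.ρ τ v ∈ G τ := fun τ v hv =>
    (hmemE τ _).mpr ⟨hpe τ v, proj_fil A F.ρ hρE τ hv⟩
  let f : E →ₗ[ℂ] (∀ σ : {σ : K →+* ℂ // σ.comp j = s}, G σ.1) :=
    LinearMap.pi fun σ => LinearMap.codRestrict _
      ((proj F.ρ σ.1).comp E.subtype) (fun v => hpm σ.1 v ((hmem v.1).mp v.2).2)
  have hf : ∀ v σ, ((f v σ : G σ.1) : A.H1) = proj F.ρ σ.1 v.1 := fun v σ => rfl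
  have hz : ∀ (v : A.H1), v ∈ E → ∀ σ : K →+* ℂ, σ.comp j ≠ s → proj F.ρ σ v = 0 := by
    intro v hv σ hσ
    have h2 : ∃ x, σ (j x) ≠ s x := by
      by_contra hcon
      push Not at hcon
      exact hσ (RingHom.ext hcon)
    obtain ⟨x, hx⟩ := h2
    have h3 := F.proj_rho σ (j x) v
    rw [((hmem v).mp hv).1 x, map_smul] at h3
    have h4 : (s x - σ (j x)) • proj F.ρ σ v = 0 := by rw [sub_smul, h3, sub_self]
    exact (smul_eq_zero.mp h4).resolve_left (sub_ne_zero.mpr (Ne.symm hx))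
  have hinj : Function.Injective f := by
    rw [← LinearMap.ker_eq_bot, LinearMap.ker_eq_bot']
    intro v hv
    apply Subtype.ext
    have h1 : (v : A.H1) = ∑ τ : K →+* ℂ, proj F.ρ τ (v : A.H1) := by
      rw [← LinearMap.sum_apply, sum_proj]; rfl
    rw [h1]
    refine Finset.sum_eq_zero fun τ _ => ?_
    by_cases h : τ.comp j = s
    · have h2 := hf v ⟨τ, h⟩
      rw [hv] at h2
      exact h2.symm
    · exact hz v v.2 τ h
  have hsur : Function.Surjective f := by
    intro w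
    have hw : ∀ σ : {σ : K →+* ℂ // σ.comp j = s}, (∀ y, F.ρ y (w σ).1 = σ.1 y • (w σ).1) ∧
        A.IsFil (w σ).1 := fun σ => (hmemE σ.1 _).mp (w σ).2
    have h1 : (∑ σ, (w σ).1) ∈ E := by
      refine Submodule.sum_mem _ fun σ _ => ?_
      rw [hmem]
      refine ⟨fun x => ?_, (hw σ).2⟩
      have h9 : σ.1 (j x) = s x := RingHom.congr_fun σ.2 x
      rw [(hw σ).1, h9]
    refine ⟨⟨_, h1⟩, ?_⟩
    funext σ
    apply Subtype.ext
    rw [hf]
    show proj F.ρ σ.1 (∑ τ, (w τ).1) = (w σ).1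
    rw [map_sum, Finset.sum_eq_single σ]
    · exact proj_of_eigen F σ.1 _ (hw σ).1
    · intro τ _ hτ
      have h2 := proj_of_eigen F τ.1 _ (hw τ).1
      rw [← h2]
      have h3 : ∃ x, σ.1 x ≠ τ.1 x := by
        by_contra hcon
        push Not at hcon
        exact hτ (Subtype.ext (RingHom.ext fun x => (hcon x).symm))
      obtain ⟨x, hx⟩ := h3
      have h4 := F.proj_rho σ.1 x (proj F.ρ τ.1 (w τ).1)
      rw [hpe, map_smul] at h4
      have h5 : (τ.1 x - σ.1 x) • proj F.ρ σ.1 (proj F.ρ τ.1 (w τ).1) = 0 := by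
        rw [sub_smul, h4, sub_self]
      exact (smul_eq_zero.mp h5).resolve_left (sub_ne_zero.mpr (Ne.symm hx))
    · intro h
      exact absurd (Finset.mem_univ _) h
  rw [(LinearEquiv.ofBijective f ⟨hinj, hsur⟩).finrank_eq, finrank_pi_fintype]

omit [NumberField Z] in
open Classical in
/-- the dimension over an embedding of the centre -/
private theorem Zer_sum (s : Z →+* ℂ) :
    finrank ℂ (A.eigenFil (fun x v => (F.ρ.comp j) x v) s) =
      ∑ σ : {σ : K →+* ℂ // σ.comp j = s}, Zer_d F σ.1 :=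
  Zer_gen F j s _ (fun τ => A.eigenFil (fun x v => F.ρ x v) τ) (Zer_mem F j s)
    (fun τ v => Tor_mem F τ v)

open Classical in
/-- the number of embeddings over an embedding of the centre -/
private theorem Zer_card (s s' : Z →+* ℂ) :
    Fintype.card {σ : K →+* ℂ // σ.comp j = s} = Fintype.card {σ : K →+* ℂ // σ.comp j = s'} := by
  obtain ⟨τ, hτ⟩ := Pool.Agent.Helper84.exists_aut s s'
  refine Fintype.card_congr
    { toFun := fun σ => ⟨(τ : ℂ →+* ℂ).comp σ.1, by rw [RingHom.comp_assoc, σ.2, hτ]⟩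
      invFun := fun σ => ⟨(τ.symm : ℂ →+* ℂ).comp σ.1, by
        rw [RingHom.comp_assoc, σ.2, ← hτ]
        ext x
        simp⟩
      left_inv := fun σ => by
        apply Subtype.ext
        ext x
        simp
      right_inv := fun σ => by
        apply Subtype.ext
        ext x
        simp }

end dims

section words

variable {L Z : Type} [Field L] [NumberField L] [Field Z] [NumberField Z] [IsCMField Z]

private lemma Zer_comp_conj (υ : ℂ ≃+* ℂ) (s : Z →+* ℂ) :
    (υ : ℂ →+* ℂ).comp (ComplexEmbedding.conjugate s) =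
      ComplexEmbedding.conjugate ((υ : ℂ →+* ℂ).comp s) := by
  ext x
  have h1 : ∀ φ : Z →+* ℂ, ComplexEmbedding.conjugate φ x = φ (IsCMField.complexConj Z x) := by
    intro φ
    rw [ComplexEmbedding.conjugate_coe_eq, IsCMField.complexEmbedding_complexConj]
  rw [RingHom.comp_apply, h1, h1, RingHom.comp_apply]

omit [NumberField L] [IsCMField Z] in
private lemma Zer_wt_neg (j : Z →+* L) {N : ℕ} (w : Fin N → (L →+* ℂ)) (s : Z →+* ℂ) :
    wt j w (ComplexEmbedding.conjugate s) = - wt j w s := by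
  classical
  unfold wt
  rw [conj_conj', neg_sub]

omit [NumberField L] in
private lemma Zer_wt_tw (j : Z →+* L) {N : ℕ} (w : Fin N → (L →+* ℂ)) (υ : ℂ ≃+* ℂ)
    (s : Z →+* ℂ) : wt j (fun r => (υ.symm : ℂ →+* ℂ).comp (w r)) s =
      wt j w ((υ : ℂ →+* ℂ).comp s) := by
  classical
  have h1 : ∀ (φ : L →+* ℂ) (t : Z →+* ℂ), ((υ.symm : ℂ →+* ℂ).comp φ).comp j = t ↔
      φ.comp j = (υ : ℂ →+* ℂ).comp t := by
    intro φ t
    constructor
    · rintro rfl
      ext x
      simp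
    · intro h
      rw [RingHom.comp_assoc, h]
      ext x
      simp
  unfold wt
  simp only [h1, Zer_comp_conj]

end words

/-- all weights are zero, the multiplicities over one place of the centre are `r` and `n - r` -/
theorem Zer_main (hStb : St_Stb) (hCrl : St_Crl) (hDim : St_Dim) (hTor : St_TorA) (A : AbVar)
    (K : Type) [Field K] [NumberField K] [IsCMField K] (n r : ℕ)
    (ρ : K → A.H1 → A.H1) (Z : Type) [Field Z] [NumberField Z] [IsCMField Z] (j : Z →+* K)
    (F : UF (pData A) K n) (N k : ℕ)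
    (α : MultilinearMap ℂ (fun _ : Fin (2 * k) => W (Fin A.g ⊕ Fin A.g) N) ℂ)
    (hGal : IsGalois ℚ Z) (hab : ∀ g h : Z ≃ₐ[ℚ] Z, g * h = h * g)
    (hcen : ∀ x, (∀ f, A.IsEnd f → ∀ v, f (ρ x v) = ρ x (f v)) ↔ ∃ z, j z = x)
    (hros : ∀ x, A.IsAdjoint (ρ x) (ρ (cmConj K x))) (σ₀ : K →+* ℂ)
    (h1 : ∀ σ : K →+* ℂ, A.AgreeCen ρ σ σ₀ → finrank ℂ (A.eigenFil ρ σ) = r)
    (h2 : ∀ σ : K →+* ℂ, ¬ A.AgreeCen ρ σ σ₀ →
      ¬ A.AgreeCen ρ σ (ComplexEmbedding.conjugate σ₀) → A.IsPureAt ρ σ)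
    (hr : 1 ≤ r) (hn : 2 * r + 1 ≤ n) (hF : ∀ x v, F.ρ x v = ρ x v)
    (hB : BetR (pData A) N k α) (hA : DRA N k α) (hC : Cen F N k α)
    (w : Fin (2 * k) → (K →+* ℂ)) (hw : Occ F N k α w) (s : Z →+* ℂ) : wt j w s = 0 := by
  classical
  have hϖ : (2 * Real.pi * Complex.I : ℂ) ≠ 0 := Complex.two_pi_I_ne_zero
  have hρ : (fun x v => F.ρ x v) = ρ := by
    funext x v
    exact hF x v
  have hz : ∀ x, Zen F x ↔ ∃ z, j z = x := fun x =>
    (Fra_zen A K n ρ F hF x).trans (hcen x)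
  have hag : ∀ σ τ : K →+* ℂ, Ag F σ τ ↔ σ.comp j = τ.comp j := by
    intro σ τ
    constructor
    · intro h
      ext x
      exact h (j x) ((hz _).mpr ⟨x, rfl⟩)
    · intro h x hx
      obtain ⟨z, rfl⟩ := (hz x).mp hx
      exact RingHom.congr_fun h z
  have hagA : ∀ σ τ : K →+* ℂ, A.AgreeCen ρ σ τ ↔ σ.comp j = τ.comp j := fun σ τ =>
    (Fra_ag A K n ρ F hF σ τ).symm.trans (hag σ τ)
  -- complex conjugation on the fields
  have hcc : ∀ x : Z, j (cmConj Z x) = cmConj K (j x) := by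
    intro x
    apply σ₀.injective
    have h3 : σ₀ (cmConj K (j x)) = conj (σ₀ (j x)) :=
      IsCMField.complexEmbedding_complexConj K σ₀ (j x)
    have h4 : (σ₀.comp j) (cmConj Z x) = conj ((σ₀.comp j) x) :=
      IsCMField.complexEmbedding_complexConj Z (σ₀.comp j) x
    rw [h3]
    exact h4
  -- the torus theorem
  have hrel : ∀ τ : ℂ ≃+* ℂ, ∑ s, wt j w ((τ : ℂ →+* ℂ).comp s) *
      ((finrank ℂ (A.eigenFil (fun x v => (F.ρ.comp j) x v) s) : ℕ) : ℤ) = 0 := by
    intro τ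
    refine hTor A Z hGal hab (F.ρ.comp j) ?_ ?_ (fun s => wt j w ((τ : ℂ →+* ℂ).comp s)) ?_ ?_
    · intro x
      exact isEnd_of_isDRB A _ (F.hρ (j x))
    · intro x u v
      have h3 := hros (j x) u v
      rw [← hcc, ← hF, ← hF] at h3
      exact h3
    · intro s
      show wt j w ((τ : ℂ →+* ℂ).comp (ComplexEmbedding.conjugate s)) = - wt j w _
      rw [Zer_comp_conj, Zer_wt_neg]
    · intro τ' D
      have h3 := hCrl _ _ (pData A) K n F N k α Z j (by omega) hϖ hB hA hz hC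
        (fun r => ((τ'.trans τ).symm : ℂ →+* ℂ).comp (w r))
        (hStb _ _ (pData A) K n F N k α hϖ hB w (τ'.trans τ).symm hw) D
      rw [← h3]
      refine Finset.sum_congr rfl fun s _ => ?_
      rw [Zer_wt_tw]
      rfl
  obtain ⟨s₀, hs₀⟩ : ∃ s₀, s₀ = σ₀.comp j := ⟨_, rfl⟩
  have hcj : ∀ σ : K →+* ℂ, (ComplexEmbedding.conjugate σ).comp j =
      ComplexEmbedding.conjugate (σ.comp j) := fun σ => rfl
  have hd1 : ∀ σ : K →+* ℂ, σ.comp j = s₀ → Zer_d F σ = r := by
    intro σ hσ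
    unfold Zer_d
    rw [hρ]
    exact h1 σ ((hagA _ _).mpr (by rw [hσ, hs₀]))
  have hdn : ∀ σ : K →+* ℂ, σ.comp j = ComplexEmbedding.conjugate s₀ → Zer_d F σ = n - r := by
    intro σ hσ
    have h3 := Zer_d_add F (ComplexEmbedding.conjugate σ)
    rw [conj_conj', hd1 _ (by rw [hcj, hσ, conj_conj'])] at h3
    omega
  obtain ⟨d, hd⟩ : ∃ d, d = Fintype.card {σ : K →+* ℂ // σ.comp j = s₀} := ⟨_, rfl⟩
  have hcard : ∀ s, Fintype.card {σ : K →+* ℂ // σ.comp j = s} = d := by
    intro s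
    rw [hd]
    exact Zer_card j s s₀
  refine DscQ Z n d r (wt j w) (fun s => finrank ℂ (A.eigenFil (fun x v => (F.ρ.comp j) x v) s))
    s₀ hr hn ?_ ?_ ?_ ?_ ?_ ?_ hrel s
  · rw [hd]
    exact Fintype.card_pos_iff.mpr ⟨⟨σ₀, hs₀.symm⟩⟩
  · intro τ
    rw [Zer_comp_conj, Zer_wt_neg]
  · intro h
    exact IsTotallyComplex.complexEmbedding_not_isReal s₀ h
  · show finrank ℂ (A.eigenFil (fun x v => (F.ρ.comp j) x v) s₀) = d * r
    rw [Zer_sum, Finset.sum_congr rfl fun σ _ => hd1 σ.1 σ.2, Finset.sum_const, Finset.card_univ,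
      hcard, smul_eq_mul]
  · show finrank ℂ (A.eigenFil (fun x v => (F.ρ.comp j) x v) (ComplexEmbedding.conjugate s₀)) = _
    rw [Zer_sum, Finset.sum_congr rfl fun σ _ => hdn σ.1 σ.2, Finset.sum_const, Finset.card_univ,
      hcard, smul_eq_mul]
  · intro s hs hs'
    show finrank ℂ (A.eigenFil (fun x v => (F.ρ.comp j) x v) s) = 0 ∨
      finrank ℂ (A.eigenFil (fun x v => (F.ρ.comp j) x v) s) = _
    have h3 : ∀ σ : {σ : K →+* ℂ // σ.comp j = s}, Zer_d F σ.1 = 0 ∨ Zer_d F σ.1 = n := by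
      intro σ
      apply Zer_pure
      rw [hρ]
      refine h2 σ.1 ?_ ?_
      · rw [hagA, σ.2, ← hs₀]
        exact hs
      · rw [hagA, σ.2, hcj, ← hs₀]
        exact hs'
    have h4 : ∀ σ τ : {σ : K →+* ℂ // σ.comp j = s}, Zer_d F σ.1 = Zer_d F τ.1 := fun σ τ =>
      hDim A K n F σ.1 τ.1 ((hag _ _).mpr (σ.2.trans τ.2.symm))
    rw [Zer_sum]
    by_cases h5 : ∃ σ : {σ : K →+* ℂ // σ.comp j = s}, Zer_d F σ.1 = 0
    · obtain ⟨σ, hσ⟩ := h5
      left
      refine Finset.sum_eq_zero fun τ _ => ?_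
      rw [h4 τ σ, hσ]
    · right
      push Not at h5
      rw [Finset.sum_congr rfl fun σ _ => (h3 σ).resolve_left (h5 σ), Finset.sum_const,
        Finset.card_univ, hcard, smul_eq_mul]

theorem thm_Zer (hStb : St_Stb) (hCrl : St_Crl) (_hDsc : St_Dsc) (hDim : St_Dim)
    (hTor : St_TorA) : St_Zer := by
  intro A K _ _ _ n ρ Z _ _ _ j F N k α hGal hab hcen hSB hn hF hB hA hC w hw s
  obtain ⟨hMC, σ₀, h1, h2⟩ := hSB
  exact Zer_main hStb hCrl hDim hTor A K n 1 ρ Z j F N k α hGal hab hcen hMC.rosati σ₀ h1 h2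
    le_rfl (by omega) hF hB hA hC w hw s

end WPB
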