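import Pool.Agent.WPB.TypesQ
import Pool.Agent.WPB.AbR
import Pool.Agent.WPB.Cna
import Pool.Agent.WPB.Zer
import Pool.Agent.Helper8.P.AV7
import Pool.Agent.Helper7.AFT.Prod31
import Pool.Agent.PSQ.Bridge

/-!
# WPB: signature `(n - q, q)` over one place of the centre
-/

set_option autoImplicit false

namespace WPB

open Module Matrix NumberField Pool.Agent.Helper7 KT2
open Pool.Agent.GPC (AbVar Form IsGrothendieck IsDivisorial cmConj)
open Pool.Agent.Helper7 Pool.Agent.Helper39.AF Pool.Agent.Helper71.AF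
open Pool.Agent.Ball (rot gAt HG Lorentz Sep hf Definite HasRot Unbal indef_of_not_pure
  hf_conj_place unbal_of all_rot2 all_rotP')
open Pool.Agent.Helper83.Ball (conj_conj' HG_herm definite_of_pure lorentz_of_one)
open PSQ (W Inv BetR DRA)
open scoped ComplexConjugate

/-- the frame -/
theorem MainQ_uf (A : AbVar) (K : Type) [Field K] [NumberField K] [IsCMField K] (m q : ℕ)
    (ρ : K → A.H1 → A.H1) (C : A.IsMultAt K m q ρ) :
    ∃ F : UF (pData A) K m, ∀ x v, F.ρ x v = ρ x v := by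
  obtain ⟨R, hR⟩ : ∃ R : K →+* Module.End ℂ A.H1, ∀ x v, R x v = ρ x v :=
    ⟨{  toFun := fun x => IsLinearMap.mk' _ (C.endo x).linear
        map_one' := LinearMap.ext C.one
        map_mul' := fun x y => LinearMap.ext (C.mul x y)
        map_add' := fun x y => LinearMap.ext (C.add x y)
        map_zero' := LinearMap.ext fun v => by
          have h := C.add 0 0 v
          rw [add_zero] at h
          have h2 : ρ 0 v = 0 := by
            have h3 := congrArg (fun w => w - ρ 0 v) h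
            simp only [sub_self, add_sub_cancel_right] at h3
            exact h3.symm
          exact h2 }, fun x v => rfl⟩
  have hE : ∀ x, A.IsEnd (R x) := by
    intro x
    have h1 : (fun v => R x v) = ρ x := funext (hR x)
    have h2 := C.endo x
    rw [← h1] at h2
    exact h2
  have hQ : ∀ x, ∀ v ∈ (pData A).Q, R x v ∈ (pData A).Q :=
    fun x v hv => (isDRB_of_isEnd A _ (hE x)).rat v hv
  obtain ⟨lam, h1, h2, eb, h3⟩ := exists_Kbasis (pData A) R hQ m
    (by rw [card_index, mul_comm, C.rank])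
  exact ⟨{  ρ := R
            hρ := fun x => isDRB_of_isEnd A _ (hE x)
            cc := cmConj K
            hcc := fun σ x => IsCMField.complexEmbedding_complexConj K σ x
            hros := fun x u v => by rw [hR, hR]; exact C.rosati x u v
            hcen := fun f hf hc => by
              obtain ⟨x, hx⟩ := C.centralizer f (isEnd_of_isDRB A f hf) fun x v => by
                rw [← hR, ← hR]; exact hc x v
              exact ⟨x, fun v => by rw [hR]; exact hx v⟩
            hnd := hnd_pData A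
            lam := lam
            lam_rat := h1
            gen := h2
            eb := eb
            heb := h3 }, hR⟩

/-- no anti-automorphism -/
theorem MainQ_anti (A : AbVar) (K : Type) [Field K] [NumberField K] [IsCMField K] (n q : ℕ)
    (ρ : K → A.H1 → A.H1) (C : A.IsMultAt K n q ρ) (F : UF (pData A) K n)
    (hF : ∀ x v, F.ρ x v = ρ x v) (hA : A.NoAnti) : KT2.NoAnti F := by
  classical
  rintro ⟨θ, h1, h2, h3⟩
  apply hA
  refine ⟨fun f => if h : A.IsEnd f then θ (IsLinearMap.mk' f h.linear) else f, ?_, ?_, ?_⟩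
  · intro f hf
    simp only [dif_pos hf]
    exact isEnd_of_isDRB A _ (h1 _ (isDRB_of_isEnd A _ hf))
  · intro f h hf hh
    have hc := Fra_comp A f h hf hh
    have ha := Fra_add A f h hf hh
    obtain ⟨h4, h5⟩ := h2 (IsLinearMap.mk' f hf.linear) (IsLinearMap.mk' h hh.linear)
      (isDRB_of_isEnd A _ hf) (isDRB_of_isEnd A _ hh)
    simp only [dif_pos hf, dif_pos hh, dif_pos hc, dif_pos ha]
    constructor
    · have h6 : IsLinearMap.mk' (f ∘ h) hc.linear =
          IsLinearMap.mk' f hf.linear * IsLinearMap.mk' h hh.linear := LinearMap.ext fun v => rfl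
      rw [h6, h4]
      rfl
    · have h6 : IsLinearMap.mk' (f + h) ha.linear =
          IsLinearMap.mk' f hf.linear + IsLinearMap.mk' h hh.linear := LinearMap.ext fun v => rfl
      rw [h6, h5]
      rfl
  · intro f hf hc
    simp only [dif_pos hf]
    obtain ⟨x, hx⟩ := C.centralizer f hf fun y v => hc (ρ y) (C.endo y) v
    have h4 : IsLinearMap.mk' f hf.linear = F.ρ x := LinearMap.ext fun v => by
      rw [hF]
      exact hx v
    have h5 : Zen F x := by
      rw [Fra_zen A K n ρ F hF x]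
      intro h hh v
      rw [← hx, ← hx]
      exact (hc h hh v).symm
    rw [h4, h3 x h5]
    funext v
    rw [hF]
    exact (hx v).symm

section

variable (A : AbVar) (K : Type) [Field K] [NumberField K] [IsCMField K] (n q : ℕ)
  (ρ : K → A.H1 → A.H1) (C : A.IsMultAt K n q ρ) (F : UF (pData A) K n)
  (hF : ∀ x v, F.ρ x v = ρ x v)

include C hF in
/-- the two kinds of signature -/
theorem MainQ_sig (hq : (q = 1 ∧ 3 ≤ n) ∨ (n.Prime ∧ 1 ≤ q ∧ 2 * q + 3 ≤ n)) :
    ∃ σ₀ : K →+* ℂ, ((3 ≤ n ∧ Lorentz (HG F σ₀)) ∨ (n.Prime ∧ 5 ≤ n ∧ Unbal (HG F σ₀))) ∧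
      ∀ τ, ¬ Ag F τ σ₀ → ¬ Ag F τ (ComplexEmbedding.conjugate σ₀) →
        Sep (fun _ : Unit => pData A) () F σ₀ τ := by
  obtain ⟨σ₁, hs1, hs2⟩ := C.signature
  have hag := Fra_ag A K n ρ F hF
  rcases hq with ⟨rfl, hn⟩ | ⟨hp, h1, h2⟩
  · refine ⟨ComplexEmbedding.conjugate σ₁,
      Or.inl ⟨hn, lorentz_of_one F ρ hF σ₁ (hs1 σ₁ fun _ _ => rfl)⟩, ?_⟩
    intro τ h1 h2
    rw [conj_conj'] at h2
    rw [hag] at h1 h2
    obtain ⟨g, h3, h4⟩ := hs2 τ h2 h1
    obtain ⟨⟨v, hv⟩, ⟨w, hw⟩⟩ := indef_of_not_pure F ρ hF _ h3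
    have h5 : (g : ℂ →+* ℂ).comp (ComplexEmbedding.conjugate σ₁) =
        ComplexEmbedding.conjugate ((g : ℂ →+* ℂ).comp σ₁) :=
      Pool.Agent.Ball.comp_conj (fun _ : Unit => pData A) () g σ₁ F
    refine ⟨g, HG_herm F _, ⟨fun a => conj (w a), ?_⟩, ⟨fun a => conj (v a), ?_⟩,
      definite_of_pure F ρ hF _ h4⟩
    · rw [h5, hf_conj_place]
      linarith
    · rw [h5, hf_conj_place]
      linarith
  · refine ⟨σ₁, Or.inr ⟨hp, by omega,
      unbal_of F ρ hF σ₁ q (hs1 σ₁ fun _ _ => rfl) h1 h2⟩, ?_⟩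
    intro τ h3 h4
    rw [hag] at h3 h4
    obtain ⟨g, h5, h6⟩ := hs2 τ h3 h4
    obtain ⟨hv, hw⟩ := indef_of_not_pure F ρ hF _ h5
    exact ⟨g, HG_herm F _, hv, hw, definite_of_pure F ρ hF _ h6⟩

end

/-- a weight at an embedding, for a bijective homomorphism -/
theorem MainQ_wt {L Z : Type} [Field L] [Field Z] (j : Z →+* L) (hj : ∀ x, ∃ z, j z = x) {N : ℕ}
    (w : Fin N → (L →+* ℂ)) (σ : L →+* ℂ) : wt (RingHom.id L) w σ = wt j w (σ.comp j) := by
  classical
  have h1 : ∀ φ ψ : L →+* ℂ, φ.comp (RingHom.id L) = ψ ↔ φ.comp j = ψ.comp j := by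
    intro φ ψ
    constructor
    · rintro rfl
      rfl
    · intro h
      ext x
      obtain ⟨z, rfl⟩ := hj x
      exact RingHom.congr_fun h z
  have h2 : (ComplexEmbedding.conjugate σ).comp j = ComplexEmbedding.conjugate (σ.comp j) := rfl
  unfold wt
  simp only [h1, h2]

theorem mainQ (hStb : St_Stb) (hCrl : St_Crl) (hDim : St_Dim) (hTor : St_TorA) (hCnb : St_Cnb)
    (hCkl : St_Ckl) (hM9o : St_M9o) (A : AbVar) (m k : ℕ) (h : A.IsUnitaryRange m k)
    (α : Form (fun _ : Unit => A) (fun _ => m) (2 * k)) :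
    IsGrothendieck (fun _ : Unit => A) (fun _ => m) k α ↔
      IsDivisorial (fun _ : Unit => A) (fun _ => m) k α := by
  classical
  obtain ⟨K, _, _, _, n, q, ρ, C, hq, hE, hk⟩ := h
  refine ⟨fun hα => ?_, Pool.Agent.Helper7.isGrothendieck_of_isDivisorial _ _ k α⟩
  obtain ⟨F, hF⟩ := MainQ_uf A K n q ρ C
  obtain ⟨σ₀, hsig, hsep⟩ := MainQ_sig A K n q ρ C F hF hq
  have hn : 3 ≤ n := by rcases hq with h | h <;> omega
  have hq1 : 1 ≤ q := by rcases hq with h | h <;> omega
  have hq2 : 2 * q + 1 ≤ n := by rcases hq with h | h <;> omega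
  obtain ⟨hα1, hα2⟩ := hα
  have hB : BetR (pData A) m k (α : MultilinearMap ℂ (fun _ : Fin (2 * k) => W _ m) ℂ) := by
    intro v hv
    apply hα2
    intro r i m
    exact (mem_pData_Q _ _).mp (hv r i m)
  have hD : DRA m k (α : MultilinearMap ℂ
      (fun _ : Fin (2 * k) => W (Fin A.g ⊕ Fin A.g) m) ℂ) :=
    fun v hv => hα1 v fun r i m j => hv r i m j
  have hR : HasRotZ F m k (α : MultilinearMap ℂ (fun _ : Fin (2 * k) => W _ m) ℂ) σ₀ := by
    rcases hsig with ⟨h1, h2⟩ | ⟨h1, h2, h3⟩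
    · exact hasRotZ_one (pData A) F m k _ h1 hB hD σ₀ h2 hsep
    · exact hasRotZ_prime (pData A) F m k _ h1 h2 hB hD σ₀ h3 hsep
  by_cases hNA : A.NoAnti
  · have hNF := MainQ_anti A K n q ρ C F hF hNA
    refine isDivisorial_of_span (fun _ : Unit => A) (fun _ => m) k α ?_
    rcases hk with h | h | ⟨⟨σ₁, hs1, hs2⟩, ⟨Z, _, _, _, j, hGal, hab, hcen⟩, -⟩
    · exact AbR_range _ (pData A) K n F m k α hn hNF hB hD σ₀ hR (Or.inl h)
    · refine AbR_range _ (pData A) K n F m k α hn hNF hB hD σ₀ hR (Or.inr ?_)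
      rw [card_index]
      calc m * (2 * A.g) = 2 * (m * A.g) := by ring
        _ < _ := h
    · refine AbR_all hCnb hCkl _ (pData A) K n F m k α Z j hn hNF hB hD σ₀ hR
        (fun x => (Fra_zen A K n ρ F hF x).trans (hcen x)) ?_
      intro hCen w hw s
      exact Zer_main hStb hCrl hDim hTor A K n q ρ Z j F m k _ hGal hab hcen C.rosati σ₁ hs1 hs2
        hq1 hq2 hF hB hD hCen w hw s
  · obtain ⟨rfl, hall⟩ := hE.resolve_right hNA
    have hcen : ∀ x : K, ∀ f, A.IsEnd f → ∀ v, f (ρ x v) = ρ x (f v) := by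
      intro x f hf v
      obtain ⟨y, hy⟩ := hall f hf
      rw [hy, hy, ← C.mul, ← C.mul, mul_comm]
    have hzen : ∀ x, Zen F x := fun x => (Fra_zen A K n ρ F hF x).mpr (hcen x)
    have hsep' : ∀ τ, τ ≠ σ₀ → τ ≠ ComplexEmbedding.conjugate σ₀ →
        Sep (fun _ : Unit => pData A) () F σ₀ τ := by
      intro τ h1 h2
      refine hsep τ (fun h => h1 ?_) fun h => h2 ?_
      · exact RingHom.ext fun x => h x (hzen x)
      · exact RingHom.ext fun x => h x (hzen x)
    have hc : ∀ σ : K →+* ℂ, ComplexEmbedding.conjugate σ ≠ σ := fun σ h =>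
      IsTotallyComplex.complexEmbedding_not_isReal σ (ComplexEmbedding.isReal_iff.mpr h)
    have hrot : ∀ σ : K →+* ℂ, HasRot (pData A) F α σ := by
      rcases hsig with ⟨h1, h2⟩ | ⟨h1, h2, h3⟩
      · exact all_rot2 (pData A) F α h1 _ h2 hsep' (fun v hv => hB v hv) (fun v hv => hD v hv)
      · exact all_rotP' (pData A) F α h1 h2 _ h3 hsep' (fun v hv => hB v hv)
          (fun v hv => hD v hv)
    refine isDivisorial_of_span (fun _ : Unit => A) (fun _ => 1) k α ?_
    have hran : (2 * k < (if Even n then n else 2 * n) ∨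
        Fintype.card (Fin A.g ⊕ Fin A.g) < 2 * k + (if Even n then n else 2 * n)) →
        α ∈ Submodule.span ℚ {ω | ∃ γ : Fin k → (W (Fin A.g ⊕ Fin A.g) 1 →ₗ[ℂ]
          W (Fin A.g ⊕ Fin A.g) 1 →ₗ[ℂ] ℂ),
          (∀ a, γ a ∈ GW (fun _ : Unit => 1) (fun _ => pData A)) ∧ ω = wedge γ} := fun h =>
      Pool.Agent.Ball.M9a (pData A) F α Complex.two_pi_I_ne_zero hc (fun v hv => hB v hv)
        (fun v hv => hD v hv) hrot h
    rcases hk with h | h | ⟨⟨σ₁, hs1, hs2⟩, ⟨Z, _, _, _, j, hGal, hab, hcen'⟩, hodd⟩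
    · exact hran (Or.inl h)
    · refine hran (Or.inr ?_)
      rw [card_index]
      omega
    · have hCen := Cna_rot _ (pData A) K n F 1 k _ hn hB σ₀ hR hzen
      refine hM9o _ _ (pData A) K n F k α Complex.two_pi_I_ne_zero hc hB hD hrot
        (hodd.resolve_right hNA) fun w hw s => ?_
      rw [MainQ_wt j (fun x => (hcen' x).mp (hcen x))]
      exact Zer_main hStb hCrl hDim hTor A K n q ρ Z j F 1 k _ hGal hab hcen' C.rosati σ₁ hs1 hs2
        hq1 hq2 hF hB hD hCen w hw _

end WPB
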