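import Pool.Agent.WPB.St
import Pool.Agent.KT2.Rot
import Pool.Agent.Helper8.P.Final7

/-!
# WPB: rotations at a place of the centre, prime rank and unbalanced signature
-/

set_option autoImplicit false

open scoped ComplexConjugate

namespace WPB

open Module Matrix NumberField Pool.Agent.Helper7 KT2
open Pool.Agent.Ball
open Pool.Agent.Helper8.D (ent ent_apply ent_act ent_mul)
open PSQ (W Inv BetR DRA)

/-- The rotations are in `zAt` at the place `σ`. -/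
def HasRotZ {κ : Type} [Fintype κ] [DecidableEq κ] {ϖ : ℂ} {P : PData κ ϖ} {L : Type} [Field L]
    [NumberField L] {m : ℕ} (F : UF P L m) (n k : ℕ)
    (α : MultilinearMap ℂ (fun _ : Fin (2 * k) => W κ n) ℂ) (σ : L →+* ℂ) : Prop :=
  ∃ U V : Matrix (Fin m) (Fin m) ℂ, U * V = 1 ∧ V * U = 1 ∧
    ∀ i j, U * rot i j * V ∈ zAt n k α F σ

section family

variable {I : Type} [Fintype I] [DecidableEq I] (n : I → ℕ)
  {κ : I → Type} [∀ i, Fintype (κ i)] [∀ i, DecidableEq (κ i)] {ϖ : ℂ}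
  (P : ∀ i, PData (κ i) ϖ)
  {k : ℕ} (α : MultilinearMap ℂ (fun _ : Fin (2 * k) => HW κ n) ℂ)
  (i : I) {K : Type} [Field K] [NumberField K] {m : ℕ} (F : UF (P i) K m)
  (hϖ : ϖ ≠ 0)
  (hB : ∀ v : Fin (2 * k) → HW κ n, (∀ r, IsRatP n P (v r)) → ∃ q : ℚ, α v = ϖ ^ k * q)
  (hA : ∀ v : Fin (2 * k) → HW κ n, (∀ r i m j, IsAlgebraic ℚ (v r i m j)) →
      IsAlgebraic ℚ (α v))

include hϖ hB hA in
/-- concentration at a place of prime rank -/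
private theorem RotP_conc (hm : m.Prime) (σ₀ : K →+* ℂ) (hL : Unbal (HG F σ₀))
    (A : (K →+* ℂ) → Prop) (hsep : ∀ τ, A τ → Sep P i F σ₀ τ) :
    ∃ B : Matrix (Fin m) (Fin m) ℂ, B ∈ Rot_cA n P α i F A σ₀ ∧
      (∀ u v, hf (HG F σ₀) (B *ᵥ u) v + hf (HG F σ₀) u (B *ᵥ v) = 0) ∧
      (∀ v : Fin m → ℂ, v ∈ Submodule.span ℂ {w | ∃ r : ℝ, B *ᵥ w = (r : ℂ) • w}) ∧ B ≠ 0 := by
  classical
  obtain ⟨Y, hY, hY2, hY0, hYs, -⟩ := exists_hyper_at n P α i F σ₀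
    (fun W hW hst => Pool.Agent.Helper98.Ball.M2 n P α i F hϖ hB hA _ W hW hst) hL.1 hL.2.2.1
    hL.2.2.2.1
  obtain ⟨hsk, hdg⟩ := hYs σ₀
  have hne : ent F σ₀ (Y.1 i) ≠ 0 := by
    intro h
    apply hY0 0
    rw [h, zero_smul]
  obtain ⟨hZ, hI⟩ := Pool.Agent.GP.prime_ideal hm (gAt n P α i F σ₀)
    (gAt_br n P α i F σ₀) (gAt_irr n P α i F hϖ hB hA σ₀)
    (ent F σ₀ (Y.1 i)) ⟨Y, hY, hY2, rfl⟩ (trace_zero hL _ hsk hdg) hne
    (fun v => Submodule.span_mono (by rintro w ⟨r, hr⟩; exact ⟨r, hr⟩) (hdg v))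
  have key : ∀ S : Finset (K →+* ℂ), (∀ τ ∈ S, A τ) →
      IsIdl n P α (S.inf fun τ => vanAt P i F τ) ∧
      ent F σ₀ (Y.1 i) ∈ kAt n P α i F (S.inf fun τ => vanAt P i F τ) σ₀ := by
    intro S
    induction S using Finset.induction_on with
    | empty =>
      intro _
      rw [Finset.inf_empty]
      exact ⟨IsIdl.top n P α, kAt_top n P α i F σ₀ ⟨Y, hY, hY2, rfl⟩⟩
    | insert τ S _ ih =>
      intro h
      obtain ⟨h1, h2⟩ := ih fun τ hτ => h τ (Finset.mem_insert_of_mem hτ)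
      have h3 := h τ (Finset.mem_insert_self _ _)
      rw [Finset.inf_insert]
      have h5 := isIdl_vanAt n P α i F hϖ hB τ
      refine ⟨h5.inf h1, ?_⟩
      refine conc_inf n P α i F σ₀ _ hZ (fun c hc hid _ hns => hI c hc hid hns) h5 h1 ?_ h2
        (kAt_adj n P α i F hϖ hB (h5.inf h1) σ₀)
      exact hI _ (kAt_le n P α i F _ σ₀) (kAt_br n P α i F h5 σ₀)
        (exists_sep n P α i F hϖ hB hA σ₀ τ (hsep τ h3))
  obtain ⟨-, X, hX, hX2, hXJ, hXe⟩ := key (Finset.univ.filter fun τ => A τ)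
    (fun τ hτ => (Finset.mem_filter.mp hτ).2)
  refine ⟨ent F σ₀ (Y.1 i), ⟨X, hX, hX2, hXe, fun τ h1 => ?_⟩, hsk, hdg, hne⟩
  have h3 : (Finset.univ.filter fun τ => A τ).inf
      (fun τ => vanAt P i F τ) ≤ vanAt P i F τ :=
    Finset.inf_le (Finset.mem_filter.mpr ⟨Finset.mem_univ _, h1⟩)
  exact (h3 hXJ).1

include hϖ hB in
/-- adjoints -/
private lemma RotP_adj (A : (K →+* ℂ) → Prop)
    (hA' : ∀ τ, A τ → A (ComplexEmbedding.conjugate τ)) (σ₀ : K →+* ℂ) :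
    ∀ X ∈ Rot_cA n P α i F A σ₀, ∃ X' ∈ Rot_cA n P α i F A σ₀,
      ∀ u v, hf (HG F σ₀) (X' *ᵥ u) v = hf (HG F σ₀) u (X *ᵥ v) := by
  classical
  have key : ∀ S : Finset (K →+* ℂ), IsIdl n P α (S.inf fun τ => vanAt P i F τ) := by
    intro S
    induction S using Finset.induction_on with
    | empty =>
      rw [Finset.inf_empty]
      exact IsIdl.top n P α
    | insert τ S _ ih =>
      rw [Finset.inf_insert]
      exact (isIdl_vanAt n P α i F hϖ hB τ).inf ih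
  rintro _ ⟨X, hX, hX2, rfl, hX0⟩
  obtain ⟨S, hS⟩ : ∃ S : Finset (K →+* ℂ), S = Finset.univ.filter fun τ => A τ := ⟨_, rfl⟩
  have hXJ : X ∈ S.inf fun τ => vanAt P i F τ := by
    rw [Submodule.mem_finsetInf]
    intro τ hτ
    rw [hS, Finset.mem_filter] at hτ
    exact ⟨hX0 τ hτ.2, hX0 _ (hA' τ hτ.2)⟩
  obtain ⟨A', ⟨Y, hY, hY2, hYJ, hYe⟩, hadj⟩ := kAt_adj n P α i F hϖ hB (key S) σ₀ _
    ⟨X, hX, hX2, hXJ, rfl⟩
  refine ⟨A', ⟨Y, hY, hY2, hYe, fun τ h1 => ?_⟩, hadj⟩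
  have h3 : S.inf (fun τ => vanAt P i F τ) ≤ vanAt P i F τ :=
    Finset.inf_le (by rw [hS]; exact Finset.mem_filter.mpr ⟨Finset.mem_univ _, h1⟩)
  exact (h3 hYJ).1

include hϖ hB hA in
/-- rotations at a place of prime rank -/
private theorem RotP_rot (hm : m.Prime) (h5 : 5 ≤ m) (σ₀ : K →+* ℂ) (hL : Unbal (HG F σ₀))
    (A : (K →+* ℂ) → Prop) (hA' : ∀ τ, A τ → A (ComplexEmbedding.conjugate τ))
    (hsep : ∀ τ, A τ → Sep P i F σ₀ τ) :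
    ∃ U V : Matrix (Fin m) (Fin m) ℂ, U * V = 1 ∧ V * U = 1 ∧
      ∀ a b, U * rot a b * V ∈ Rot_cA n P α i F A σ₀ := by
  obtain ⟨B, hBc, hBs, hBd, hB0⟩ := RotP_conc n P α i F hϖ hB hA hm σ₀ hL A hsep
  have hBt := trace_zero hL B hBs hBd
  have hns : ∃ X ∈ tl (Rot_cA n P α i F A σ₀), ∀ a : ℂ, X ≠ a • 1 := by
    refine ⟨B, ⟨hBc, hBt⟩, fun a ha => hB0 ?_⟩
    have h1 := hBt
    rw [ha, Matrix.trace_smul, Matrix.trace_one, Fintype.card_fin, smul_eq_mul] at h1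
    rcases mul_eq_zero.mp h1 with h2 | h2
    · rw [ha, h2, zero_smul]
    · exact absurd h2 (Nat.cast_ne_zero.mpr hm.pos.ne')
  have hid : ∀ X ∈ gAt n P α i F σ₀, ∀ Y ∈ tl (Rot_cA n P α i F A σ₀),
      X * Y - Y * X ∈ tl (Rot_cA n P α i F A σ₀) := fun X hX Y hY =>
    ⟨Rot_cA_br n P α i F A σ₀ X hX Y hY.1, trace_br X Y⟩
  have hle : tl (Rot_cA n P α i F A σ₀) ≤ gAt n P α i F σ₀ :=
    inf_le_left.trans (Rot_cA_le n P α i F A σ₀)
  obtain ⟨U, V, h1, h2, h3⟩ := Pool.Agent.GP.prime_core' hm h5 (tl (Rot_cA n P α i F A σ₀))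
    (fun X hX Y hY => hid X (hle hX) Y hY) (fun X hX => hX.2)
    (Pool.Agent.GP.ideal_irr hm (gAt n P α i F σ₀) _ (gAt_br n P α i F σ₀)
      (gAt_irr n P α i F hϖ hB hA σ₀) hle hid hns) hL (fun X hX => by
        obtain ⟨X', hX', hadj⟩ := RotP_adj n P α i F hϖ hB A hA' σ₀ X hX.1
        exact ⟨X', ⟨hX', trace_adj _ hL.2.1 X X' hadj hX.2⟩, hadj⟩) B ⟨hBc, hBt⟩ hB0 hBs hBd
  exact ⟨U, V, h1, h2, fun a b => (h3 a b).1⟩

end family

/-- rotations at a place of the centre, ball type -/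
theorem hasRotZ_one {κ : Type} [Fintype κ] [DecidableEq κ]
    (P : PData κ (2 * Real.pi * Complex.I)) {L : Type} [Field L] [NumberField L] {m : ℕ}
    (F : UF P L m) (n k : ℕ) (α : MultilinearMap ℂ (fun _ : Fin (2 * k) => W κ n) ℂ)
    (hm : 3 ≤ m) (hB : BetR P n k α) (hA : DRA n k α) (σ₀ : L →+* ℂ)
    (hL : Lorentz (HG F σ₀)) (hsep : ∀ τ, ¬ Ag F τ σ₀ →
      ¬ Ag F τ (ComplexEmbedding.conjugate σ₀) → Sep (fun _ : Unit => P) () F σ₀ τ) :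
    HasRotZ F n k α σ₀ :=
  KT2.thm_Rot κ P L m F n k α hm hB hA σ₀ hL hsep

/-- rotations at a place of the centre, prime rank -/
theorem hasRotZ_prime {κ : Type} [Fintype κ] [DecidableEq κ]
    (P : PData κ (2 * Real.pi * Complex.I)) {L : Type} [Field L] [NumberField L] {m : ℕ}
    (F : UF P L m) (n k : ℕ) (α : MultilinearMap ℂ (fun _ : Fin (2 * k) => W κ n) ℂ)
    (hm : m.Prime) (h5 : 5 ≤ m) (hB : BetR P n k α) (hA : DRA n k α) (σ₀ : L →+* ℂ)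
    (hL : Unbal (HG F σ₀)) (hsep : ∀ τ, ¬ Ag F τ σ₀ →
      ¬ Ag F τ (ComplexEmbedding.conjugate σ₀) → Sep (fun _ : Unit => P) () F σ₀ τ) :
    HasRotZ F n k α σ₀ := by
  have hϖ : (2 * Real.pi * Complex.I : ℂ) ≠ 0 := Complex.two_pi_I_ne_zero
  have hcc : ∀ σ τ : L →+* ℂ, Ag F (ComplexEmbedding.conjugate σ) τ →
      Ag F σ (ComplexEmbedding.conjugate τ) := by
    intro σ τ h x hx
    have h1 := congrArg (starRingEnd ℂ) (h x hx)
    rw [ComplexEmbedding.conjugate_coe_eq, Complex.conj_conj] at h1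
    rw [h1, ComplexEmbedding.conjugate_coe_eq]
  obtain ⟨U, V, h1, h2, h3⟩ := RotP_rot (fun _ : Unit => n) (fun _ : Unit => P) α () F hϖ
    hB hA hm h5 σ₀ hL (fun τ => ¬ Ag F τ σ₀ ∧ ¬ Ag F τ (ComplexEmbedding.conjugate σ₀))
    (fun τ h => ⟨fun h' => h.2 (hcc τ σ₀ h'), fun h' => h.1 (by
      have h4 := hcc τ _ h'
      rwa [ComplexEmbedding.involutive_conjugate L σ₀] at h4)⟩)
    (fun τ h => hsep τ h.1 h.2)
  refine ⟨U, V, h1, h2, fun i j => ?_⟩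
  obtain ⟨X, hX, hX2, hX3, hX4⟩ := h3 i j
  refine ⟨X.1 (), ?_, hX3, fun τ h5 h6 => hX4 τ ⟨h5, h6⟩⟩
  have h4 : X = ((fun _ : Unit => X.1 ()), (0 : ℂ)) := by
    refine Prod.ext ?_ hX2
    funext u
    rfl
  show IsInv (fun _ : Unit => n) (fun _ => P) α ((fun _ : Unit => X.1 ()), (0 : ℂ))
  rw [← h4]
  exact hX

end WPB
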